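import Pool.Agent.TH642.RC.Main

set_option autoImplicit false

open MeasureTheory Polynomial Filter Topology

namespace Pool.Agent.TH642.RC.M

/-- uniform law on a disc -/
noncomputable def unif (a : ℂ) (η : ℝ) : Measure ℂ :=
  (volume (Metric.closedBall a η))⁻¹ • volume.restrict (Metric.closedBall a η)

theorem vol_ball (a : ℂ) {η : ℝ} (hη : 0 < η) :
    volume (Metric.closedBall a η) = ENNReal.ofReal (Real.pi * η ^ 2) := by
  rw [Complex.volume_closedBall]
  have h1 : (NNReal.pi : ENNReal) = ENNReal.ofReal Real.pi := by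
    rw [ENNReal.ofReal, ← NNReal.coe_real_pi, Real.toNNReal_coe]
  rw [h1, ← ENNReal.ofReal_pow hη.le, mul_comm, ← ENNReal.ofReal_mul Real.pi_pos.le]

theorem unif_prob (a : ℂ) {η : ℝ} (hη : 0 < η) : IsProbabilityMeasure (unif a η) := by
  refine ⟨?_⟩
  unfold unif
  rw [Measure.smul_apply, Measure.restrict_apply_univ, smul_eq_mul, vol_ball a hη]
  apply ENNReal.inv_mul_cancel
  · have := Real.pi_pos
    simp only [ne_eq, ENNReal.ofReal_eq_zero, not_le]
    positivity
  · exact ENNReal.ofReal_ne_top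

theorem unif_dens (a : ℂ) {η : ℝ} (hη : 0 < η) : Dens (1 / (Real.pi * η ^ 2)) (unif a η) := by
  unfold Dens unif
  have h1 : (volume (Metric.closedBall a η))⁻¹ = ENNReal.ofReal (1 / (Real.pi * η ^ 2)) := by
    rw [vol_ball a hη, one_div, ENNReal.ofReal_inv_of_pos (by have := Real.pi_pos; positivity)]
  rw [h1]
  intro s
  simp only [Measure.smul_apply, smul_eq_mul]
  gcongr
  exact Measure.restrict_le_self

theorem unif_compl (a : ℂ) (η : ℝ) : unif a η (Metric.closedBall a η)ᶜ = 0 := by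
  unfold unif
  rw [Measure.smul_apply, Measure.restrict_apply Metric.isClosed_closedBall.measurableSet.compl,
    Set.compl_inter_self]
  simp

/-- coarse density: every numerator is within `K n^(-(1-ε)/4)` of one for which the map is
hyperbolic -/
theorem coarse (θ M0 ε : ℝ) (hθ0 : 0 ≤ θ) (hθ1 : θ < 1) (hM0 : 1 ≤ M0) (hε : 0 < ε) (hε1 : ε < 1) :
    ∃ K : ℝ, 0 < K ∧ ∃ n0 : ℕ, ∀ n : ℕ, n0 ≤ n → ∀ (m : ℕ) (Q : ℂ[X]), (m : ℝ) ≤ θ * n →
      Q ≠ 0 → Q.natDegree ≤ m → (∀ k, ‖Q.coeff k‖ ≤ M0 * bw m k) →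
      ∀ a : Fin (n + 1) → ℂ, (∀ k, ‖a k‖ ≤ M0) →
      ∃ x : Fin (n + 1) → ℂ, (∀ k, ‖x k - a k‖ ≤ K / (n : ℝ) ^ ((1 - ε) / 4)) ∧
        (TT n x).natDegree = n ∧ Hyperbolic (TT n x) Q := by
  obtain ⟨K, hK0, hK⟩ := main_bound θ M0 ε hθ0 hθ1 hM0 hε (fun p => (M0 + 1) ^ p)
  have hpi := Real.pi_pos
  obtain ⟨R, hR⟩ : ∃ R : ℝ, R = K + 1 := ⟨_, rfl⟩
  have hR1 : 1 ≤ R := by linarith
  have he : 0 < (1 - ε) / 4 := by linarith
  have hev : ∀ᶠ n : ℕ in atTop, 2 * R ≤ (n : ℝ) ^ ((1 - ε) / 4) :=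
    ((tendsto_rpow_atTop he).comp tendsto_natCast_atTop_atTop).eventually_ge_atTop (2 * R)
  obtain ⟨n0, hn0⟩ := eventually_atTop.1 (hev.and (eventually_ge_atTop 1))
  refine ⟨R, by linarith, n0, ?_⟩
  intro n hn m Q hm hQ0 hdeg hcoef a ha
  obtain ⟨h2R, hn1⟩ := hn0 n hn
  have hnpos : (0 : ℝ) < n := by exact_mod_cast hn1
  obtain ⟨η, hη⟩ : ∃ η : ℝ, η = R / (n : ℝ) ^ ((1 - ε) / 4) := ⟨_, rfl⟩
  have hpp : 0 < (n : ℝ) ^ ((1 - ε) / 4) := Real.rpow_pos_of_pos hnpos _
  have hη0 : 0 < η := by rw [hη]; positivity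
  have hη2 : η ≤ 1 / 2 := by
    rw [hη, div_le_div_iff₀ hpp (by norm_num)]
    linarith
  obtain ⟨B, hB⟩ : ∃ B : ℝ, B = 1 / (Real.pi * η ^ 2) := ⟨_, rfl⟩
  have hB1 : 1 ≤ B := by
    rw [hB, one_le_div (by positivity)]
    have h4 := Real.pi_le_four
    nlinarith
  have hprob : ∀ i, IsProbabilityMeasure (unif (a i) η) := fun i => unif_prob _ hη0
  have key := hK n hn1 B hB1 m Q hm hQ0 hdeg hcoef (fun i => unif (a i) η) hprob
    (fun i => by rw [hB]; exact unif_dens _ hη0)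
    (by
      intro i p t ht
      by_cases hbig : t < M0 + 1
      · refine (prob_le_one).trans ?_
        rw [← ENNReal.ofReal_one]
        apply ENNReal.ofReal_le_ofReal
        rw [one_le_div (by positivity)]
        gcongr
      · push Not at hbig
        have hsub : {y : ℂ | t < ‖y‖} ⊆ (Metric.closedBall (a i) η)ᶜ := by
          intro y hy hy'
          rw [Metric.mem_closedBall, dist_eq_norm] at hy'
          have h1 : ‖y‖ ≤ ‖y - a i‖ + ‖a i‖ := by
            have := norm_add_le (y - a i) (a i)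
            rwa [sub_add_cancel] at this
          have h2 := ha i
          have h3 : t < ‖y‖ := hy
          linarith
        refine (measure_mono hsub).trans ?_
        rw [unif_compl]
        exact bot_le)
  -- the bound is less than one
  have hlt : K * B ^ 2 / (n : ℝ) ^ (1 - ε) < 1 := by
    have h1 : η ^ 4 = R ^ 4 / (n : ℝ) ^ (1 - ε) := by
      rw [hη, div_pow]
      congr 1
      rw [← Real.rpow_natCast, ← Real.rpow_mul hnpos.le]
      congr 1
      push_cast
      ring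
    have hN : 0 < (n : ℝ) ^ (1 - ε) := Real.rpow_pos_of_pos hnpos _
    have h2 : K * B ^ 2 / (n : ℝ) ^ (1 - ε) = K / (Real.pi ^ 2 * R ^ 4) := by
      have h3 : B ^ 2 = 1 / (Real.pi ^ 2 * η ^ 4) := by
        rw [hB]; ring
      rw [h3, h1]
      field_simp
    rw [h2, div_lt_one (by positivity)]
    have h3 : 1 ≤ Real.pi ^ 2 := by
      have := Real.pi_gt_three
      nlinarith
    have h4 : R ≤ R ^ 4 := by
      calc R = R ^ 1 := (pow_one _).symm
        _ ≤ R ^ 4 := pow_le_pow_right₀ hR1 (by norm_num)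
    have h5 : R ^ 4 ≤ Real.pi ^ 2 * R ^ 4 := by
      have : 0 ≤ R ^ 4 := by positivity
      nlinarith
    linarith
  have := hprob
  have hnull : Measure.pi (fun i => unif (a i) η)
      {x : Fin (n + 1) → ℂ | ∃ k, x k ∈ (Metric.closedBall (a k) η)ᶜ} = 0 := by
    have e : {x : Fin (n + 1) → ℂ | ∃ k, x k ∈ (Metric.closedBall (a k) η)ᶜ} =
        ⋃ k, Function.eval k ⁻¹' (Metric.closedBall (a k) η)ᶜ := by
      ext x
      simp
    rw [e, measure_iUnion_null_iff]
    intro k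
    exact Measure.pi_eval_preimage_null _ (unif_compl _ _)
  by_contra hcon
  push Not at hcon
  have huniv : (Set.univ : Set (Fin (n + 1) → ℂ)) ⊆
      {x | ¬ ((TT n x).natDegree = n ∧ Hyperbolic (TT n x) Q)} ∪
      {x : Fin (n + 1) → ℂ | ∃ k, x k ∈ (Metric.closedBall (a k) η)ᶜ} := by
    intro x _
    by_cases hx : ∀ k, x k ∈ Metric.closedBall (a k) η
    · left
      intro hgood
      refine hcon x (fun k => ?_) hgood.1 hgood.2
      have := hx k
      rw [Metric.mem_closedBall, dist_eq_norm] at this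
      rwa [hη] at this
    · right
      push Not at hx
      exact hx
  have h1 : (1 : ENNReal) ≤ ENNReal.ofReal (K * B ^ 2 / (n : ℝ) ^ (1 - ε)) := by
    calc (1 : ENNReal) = Measure.pi (fun i => unif (a i) η) Set.univ := by rw [measure_univ]
      _ ≤ _ := measure_mono huniv
      _ ≤ _ := measure_union_le _ _
      _ ≤ ENNReal.ofReal (K * B ^ 2 / (n : ℝ) ^ (1 - ε)) + 0 := by
        gcongr
        exact hnull.le
      _ = _ := add_zero _
  rw [← ENNReal.ofReal_one, ENNReal.ofReal_le_ofReal_iff (by positivity)] at h1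
  linarith

end Pool.Agent.TH642.RC.M
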