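import Pool.Agent.TH642.RC.Defs

set_option autoImplicit false

open MeasureTheory

namespace Pool.Agent.TH642.RC

/-- the affine form `∑ a_k x_k + t` solved for the coordinate `j` -/
noncomputable def ctr {N : ℕ} (a : Fin N → ℂ) (t : ℂ) (j : Fin N) (x : Fin N → ℂ) : ℂ :=
  -((∑ k ∈ Finset.univ.erase j, a k * x k) + t) / a j

theorem ctr_meas {N : ℕ} (a : Fin N → ℂ) (t : ℂ) (j : Fin N) : Measurable (ctr a t j) := by
  unfold ctr
  have h : Measurable (fun x : Fin N → ℂ => ∑ k ∈ Finset.univ.erase j, a k * x k) :=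
    Finset.measurable_fun_sum _ (fun k _ => measurable_const.mul (measurable_pi_apply k))
  exact ((h.add_const t).neg).div_const (a j)

theorem ctr_update {N : ℕ} (a : Fin N → ℂ) (t : ℂ) (j : Fin N) (x : Fin N → ℂ) (b : ℂ) :
    ctr a t j (Function.update x j b) = ctr a t j x := by
  unfold ctr
  congr 3
  apply Finset.sum_congr rfl
  intro k hk
  rw [Function.update_of_ne (Finset.ne_of_mem_erase hk)]

theorem aff_update {N : ℕ} (a : Fin N → ℂ) (i : Fin N) (h : a i = 0) (x : Fin N → ℂ) (b : ℂ) :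
    ∑ k, a k * (Function.update x i b) k = ∑ k, a k * x k := by
  apply Finset.sum_congr rfl
  intro k _
  by_cases hk : k = i
  · rw [hk, h, zero_mul, zero_mul]
  · rw [Function.update_of_ne hk]

theorem sub_ctr {N : ℕ} (a : Fin N → ℂ) (t : ℂ) (j : Fin N) (h : a j ≠ 0) (x : Fin N → ℂ) :
    x j - ctr a t j x = (∑ k, a k * x k + t) / a j := by
  unfold ctr
  rw [← Finset.add_sum_erase Finset.univ (fun k => a k * x k) (Finset.mem_univ j)]
  field_simp
  ring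

theorem norm_sub_ctr {N : ℕ} (a : Fin N → ℂ) (t : ℂ) (j : Fin N) (h : a j ≠ 0) (x : Fin N → ℂ) :
    ‖x j - ctr a t j x‖ = ‖∑ k, a k * x k + t‖ / ‖a j‖ := by
  rw [sub_ctr a t j h, norm_div]

/-- indicator of the event that the affine form is small -/
noncomputable def ind {N : ℕ} (a : Fin N → ℂ) (t : ℂ) (j : Fin N) (ρ : ℝ) (x : Fin N → ℂ) :
    ENNReal :=
  Set.indicator {x : Fin N → ℂ | ‖x j - ctr a t j x‖ ≤ ρ} (fun _ => 1) x

theorem ind_set_meas {N : ℕ} (a : Fin N → ℂ) (t : ℂ) (j : Fin N) (ρ : ℝ) :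
    MeasurableSet {x : Fin N → ℂ | ‖x j - ctr a t j x‖ ≤ ρ} := by
  apply measurableSet_le _ measurable_const
  exact ((measurable_pi_apply j).sub (ctr_meas a t j)).norm

theorem ind_meas {N : ℕ} (a : Fin N → ℂ) (t : ℂ) (j : Fin N) (ρ : ℝ) :
    Measurable (ind a t j ρ) :=
  measurable_const.indicator (ind_set_meas a t j ρ)

theorem ind_update {N : ℕ} (a : Fin N → ℂ) (t : ℂ) (i j : Fin N) (hj : a j ≠ 0)
    (hi : a i = 0) (ρ : ℝ) (x : Fin N → ℂ) (b : ℂ) :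
    ind a t j ρ (Function.update x i b) = ind a t j ρ x := by
  unfold ind
  have h : Function.update x i b ∈ {x : Fin N → ℂ | ‖x j - ctr a t j x‖ ≤ ρ} ↔
      x ∈ {x : Fin N → ℂ | ‖x j - ctr a t j x‖ ≤ ρ} := by
    rw [Set.mem_ofPred_eq, Set.mem_ofPred_eq, norm_sub_ctr a t j hj, norm_sub_ctr a t j hj,
      aff_update a i hi]
  by_cases hx : x ∈ {x : Fin N → ℂ | ‖x j - ctr a t j x‖ ≤ ρ}
  · rw [Set.indicator_of_mem hx, Set.indicator_of_mem (h.mpr hx)]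
  · rw [Set.indicator_of_notMem hx, Set.indicator_of_notMem (fun h' => hx (h.mp h'))]

theorem ind_eq_one {N : ℕ} (a : Fin N → ℂ) (t : ℂ) (j : Fin N) (hj : a j ≠ 0) (ρ : ℝ)
    (x : Fin N → ℂ) (h : ‖∑ k, a k * x k + t‖ ≤ ρ) : ind a t j (ρ / ‖a j‖) x = 1 := by
  unfold ind
  apply Set.indicator_of_mem
  rw [Set.mem_ofPred_eq, norm_sub_ctr a t j hj]
  gcongr

theorem ind_step (hS : S_STEP) {N : ℕ} (μ : Fin N → Measure ℂ)
    (hμ : ∀ i, IsProbabilityMeasure (μ i)) (B : ℝ) (hB : 0 ≤ B) (hD : ∀ i, Dens B (μ i))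
    (a : Fin N → ℂ) (t : ℂ) (i : Fin N) (ρ : ℝ) (hρ : 0 ≤ ρ)
    (G : (Fin N → ℂ) → ENNReal) (hG : Measurable G)
    (hGi : ∀ x b, G (Function.update x i b) = G x) :
    ∫⁻ x, ind a t i ρ x * G x ∂(Measure.pi μ) ≤
      ENNReal.ofReal (B * (Real.pi * ρ ^ 2)) * ∫⁻ x, G x ∂(Measure.pi μ) :=
  hS N μ hμ B hB hD i (ctr a t i) (ctr_meas a t i) (fun x b => ctr_update a t i x b) ρ hρ G hG hGi

end Pool.Agent.TH642.RC
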