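import Pool.Agent.TH642.RC.Core

set_option autoImplicit false

open MeasureTheory Polynomial Filter Topology

namespace Pool.Agent.TH642.RC.M

/-- number of blocks -/
noncomputable def sN (b : ℝ) (n : ℕ) : ℕ := ⌈b * Real.log n⌉₊ + 2

theorem two_le_sN (b : ℝ) (n : ℕ) : 2 ≤ sN b n := by unfold sN; omega

theorem le_sN (b : ℝ) (n : ℕ) : b * Real.log n ≤ sN b n := by
  unfold sN
  have := Nat.le_ceil (b * Real.log n)
  push_cast
  linarith

theorem sN_le {b : ℝ} (hb : 0 ≤ b) {n : ℕ} (hn : 1 ≤ n) : (sN b n : ℝ) ≤ b * Real.log n + 3 := by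
  unfold sN
  have hn1 : (1 : ℝ) ≤ n := by exact_mod_cast hn
  have := (Nat.ceil_lt_add_one (show 0 ≤ b * Real.log n from mul_nonneg hb (Real.log_nonneg hn1))).le
  push_cast
  linarith

theorem ev_log {a b e : ℝ} (he : 0 < e) : ∀ᶠ n : ℕ in atTop, a * Real.log n + b ≤ (n : ℝ) ^ e := by
  have h1 : Tendsto (fun x : ℝ => Real.log x / x ^ e) atTop (𝓝 0) :=
    (isLittleO_log_rpow_atTop he).tendsto_div_nhds_zero
  have h2 : Tendsto (fun x : ℝ => (1 : ℝ) / x ^ e) atTop (𝓝 0) := by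
    simp only [one_div]
    exact tendsto_inv_atTop_zero.comp (tendsto_rpow_atTop he)
  have h3 : Tendsto (fun x : ℝ => a * (Real.log x / x ^ e) + b * (1 / x ^ e)) atTop (𝓝 0) := by
    have := (h1.const_mul a).add (h2.const_mul b)
    simpa using this
  have h4 := (h3.comp tendsto_natCast_atTop_atTop).eventually (gt_mem_nhds (show (0:ℝ) < 1 by norm_num))
  filter_upwards [h4, eventually_ge_atTop 1] with n hn hn1
  have hn0 : (0 : ℝ) < n := by exact_mod_cast hn1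
  have hp : 0 < (n : ℝ) ^ e := Real.rpow_pos_of_pos hn0 e
  simp only [Function.comp] at hn
  have e1 : a * (Real.log n / (n : ℝ) ^ e) + b * (1 / (n : ℝ) ^ e) =
      (a * Real.log n + b) / (n : ℝ) ^ e := by ring
  rw [e1, div_lt_one hp] at hn
  exact hn.le

theorem ev_sN {a b e : ℝ} (ha : 0 ≤ a) (hb : 0 ≤ b) (he : 0 < e) :
    ∀ᶠ n : ℕ in atTop, a * ((sN b n : ℝ) + 1) ≤ (n : ℝ) ^ e := by
  filter_upwards [ev_log (a := a * b) (b := a * 4) he, eventually_ge_atTop 1] with n hn hn1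
  refine le_trans ?_ hn
  have := sN_le hb hn1
  calc a * ((sN b n : ℝ) + 1) ≤ a * ((b * Real.log n + 3) + 1) := by gcongr
    _ = _ := by ring

theorem ev_exp {k κ e : ℝ} (hκ : 0 < κ) (he : 0 < e) :
    ∀ᶠ n : ℕ in atTop, (n : ℝ) ^ k * Real.exp (-κ * (n : ℝ) ^ e) < 1 := by
  have h1 := tendsto_rpow_mul_exp_neg_mul_atTop_nhds_zero (k / e) κ hκ
  have h2 : Tendsto (fun n : ℕ => (n : ℝ) ^ e) atTop atTop :=
    (tendsto_rpow_atTop he).comp tendsto_natCast_atTop_atTop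
  have h3 := (h1.comp h2).eventually (gt_mem_nhds (show (0:ℝ) < 1 by norm_num))
  filter_upwards [h3] with n hn
  simp only [Function.comp] at hn
  rw [← Real.rpow_mul (Nat.cast_nonneg _)] at hn
  have : e * (k / e) = k := by field_simp
  rw [this] at hn
  exact hn

theorem exp_half_le {x : ℝ} (h0 : 0 ≤ x) (h1 : x ≤ 1) : Real.exp (x / 2) ≤ 1 + x := by
  have h2 : Real.exp ((1 - x) • (0 : ℝ) + x • (1 / 2 : ℝ)) ≤
      (1 - x) • Real.exp 0 + x • Real.exp (1 / 2) :=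
    convexOn_exp.2 (Set.mem_univ _) (Set.mem_univ _) (by linarith) h0 (by ring)
  simp only [smul_eq_mul, mul_zero, mul_one, zero_add, Real.exp_zero] at h2
  have e1 : x * (1 / 2) = x / 2 := by ring
  rw [e1] at h2
  have h3 : Real.exp (1 / 2) ≤ 2 := by
    have h4 : Real.exp (1 / 2) ^ 2 = Real.exp 1 := by
      rw [← Real.exp_nat_mul]; norm_num
    have h5 := Real.exp_one_lt_d9
    have h6 := Real.exp_pos (1 / 2)
    nlinarith
  nlinarith

theorem exp_le_pow {a : ℝ} (h0 : 0 ≤ a) (h1 : a ≤ 1) (n : ℕ) :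
    Real.exp (n * a / 2) ≤ (1 + a) ^ n := by
  have h := pow_le_pow_left₀ (Real.exp_pos _).le (exp_half_le h0 h1) n
  rw [← Real.exp_nat_mul] at h
  have e : (n : ℝ) * (a / 2) = n * a / 2 := by ring
  rwa [e] at h

theorem ev_big {e : ℝ} (he : 0 < e) (he1 : e ≤ 1) :
    ∀ᶠ n : ℕ in atTop, ((n : ℝ) + 1) * n < (1 + ((n : ℝ) ^ (-1 / 2 + e / 2) / 2) ^ 2) ^ (n - 1) := by
  filter_upwards [ev_exp (k := 3) (κ := 1 / 16) (by norm_num) he, eventually_ge_atTop 2] with n hn hn2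
  have hn2' : (2 : ℝ) ≤ n := by exact_mod_cast hn2
  have hn0 : (0 : ℝ) < n := by linarith
  have hA2 : ((n : ℝ) ^ (-1 / 2 + e / 2)) ^ 2 = (n : ℝ) ^ (-1 + e) := by
    rw [← Real.rpow_natCast, ← Real.rpow_mul hn0.le]
    congr 1
    push_cast
    ring
  have hA1 : (n : ℝ) ^ (-1 + e) ≤ 1 := Real.rpow_le_one_of_one_le_of_nonpos (by linarith) (by linarith)
  have hA0 : 0 ≤ (n : ℝ) ^ (-1 + e) := by positivity
  have hnA : (n : ℝ) * (n : ℝ) ^ (-1 + e) = (n : ℝ) ^ e := by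
    rw [← Real.rpow_one_add' hn0.le]
    · congr 1; ring
    · linarith
  have e1 : ((n : ℝ) ^ (-1 / 2 + e / 2) / 2) ^ 2 = (n : ℝ) ^ (-1 + e) / 4 := by
    rw [div_pow, hA2]; norm_num
  rw [e1]
  have h1 := exp_le_pow (a := (n : ℝ) ^ (-1 + e) / 4) (by positivity) (by linarith) (n - 1)
  refine lt_of_lt_of_le ?_ h1
  have h2 : (1 / 16) * (n : ℝ) ^ e ≤ ((n - 1 : ℕ) : ℝ) * ((n : ℝ) ^ (-1 + e) / 4) / 2 := by
    rw [← hnA]
    have h3 : ((n - 1 : ℕ) : ℝ) = (n : ℝ) - 1 := by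
      rw [Nat.cast_sub (by omega)]; simp
    rw [h3]
    have h4 : (n : ℝ) ≤ 2 * ((n : ℝ) - 1) := by linarith
    nlinarith [mul_le_mul_of_nonneg_right h4 hA0]
  refine lt_of_lt_of_le ?_ (Real.exp_le_exp.2 h2)
  have h5 : (n : ℝ) ^ (3 : ℝ) < Real.exp (1 / 16 * (n : ℝ) ^ e) := by
    have h6 := Real.exp_pos (1 / 16 * (n : ℝ) ^ e)
    have h7 : Real.exp (-(1 / 16) * (n : ℝ) ^ e) * Real.exp (1 / 16 * (n : ℝ) ^ e) = 1 := by
      rw [← Real.exp_add]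
      have : -(1 / 16) * (n : ℝ) ^ e + 1 / 16 * (n : ℝ) ^ e = 0 := by ring
      rw [this, Real.exp_zero]
    calc (n : ℝ) ^ (3 : ℝ) = (n : ℝ) ^ (3 : ℝ) *
          (Real.exp (-(1 / 16) * (n : ℝ) ^ e) * Real.exp (1 / 16 * (n : ℝ) ^ e)) := by
          rw [h7, mul_one]
      _ = ((n : ℝ) ^ (3 : ℝ) * Real.exp (-(1 / 16) * (n : ℝ) ^ e)) *
          Real.exp (1 / 16 * (n : ℝ) ^ e) := by ring
      _ < 1 * Real.exp (1 / 16 * (n : ℝ) ^ e) := by gcongr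
      _ = _ := one_mul _
  refine lt_of_le_of_lt ?_ h5
  have e3 : (n : ℝ) ^ (3 : ℝ) = (n : ℝ) ^ 3 := by
    rw [← Real.rpow_natCast]; norm_num
  rw [e3]
  nlinarith [mul_nonneg hn0.le hn0.le]

end Pool.Agent.TH642.RC.M
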