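import Pool.Agent.TH642.RC.Defs

set_option autoImplicit false

open MeasureTheory Polynomial Filter Topology

namespace Pool.Agent.TH642.RC.M

/-! ### Radii -/

/-- the radius with `K_n = e^s` -/
noncomputable def rad (n : ℕ) (s : ℝ) : ℝ := √(Real.exp (s / n) - 1)

theorem rad_arg {n : ℕ} {s : ℝ} (hs : 0 ≤ s) : 0 ≤ Real.exp (s / n) - 1 := by
  have : 0 ≤ s / n := by positivity
  linarith [Real.one_le_exp this]

theorem rad_sq {n : ℕ} {s : ℝ} (hs : 0 ≤ s) : rad n s ^ 2 = Real.exp (s / n) - 1 := by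
  unfold rad
  rw [Real.sq_sqrt (rad_arg hs)]

theorem rad_nonneg (n : ℕ) (s : ℝ) : 0 ≤ rad n s := Real.sqrt_nonneg _

theorem rad_zero (n : ℕ) : rad n 0 = 0 := by simp [rad]

theorem KK_rad {n : ℕ} (hn : 1 ≤ n) {s : ℝ} (hs : 0 ≤ s) : KK n (rad n s) = Real.exp s := by
  unfold KK
  rw [rad_sq hs]
  have e : 1 + (Real.exp (s / n) - 1) = Real.exp (s / n) := by ring
  rw [e, ← Real.exp_nat_mul]
  congr 1
  have : (n : ℝ) ≠ 0 := by positivity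
  field_simp

theorem KK_pos (n : ℕ) (r : ℝ) : 0 < KK n r := by unfold KK; positivity

theorem one_le_KK (n : ℕ) (r : ℝ) : 1 ≤ KK n r := by
  unfold KK
  exact one_le_pow₀ (by nlinarith [sq_nonneg r])

theorem KK_mono {n : ℕ} {r t : ℝ} (hr : 0 ≤ r) (h : r ≤ t) : KK n r ≤ KK n t := by
  unfold KK
  gcongr

theorem rad_lt {n : ℕ} (hn : 1 ≤ n) {s t : ℝ} (hs : 0 ≤ s) (h : s < t) : rad n s < rad n t := by
  unfold rad
  apply Real.sqrt_lt_sqrt (rad_arg hs)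
  have : s / n < t / n := by
    have : (0 : ℝ) < n := by exact_mod_cast hn
    gcongr
  linarith [Real.exp_lt_exp.2 this]

theorem rad_sq_le {n : ℕ} (hn : 1 ≤ n) {s : ℝ} (hs : 0 ≤ s) (h : s ≤ n) :
    rad n s ^ 2 ≤ 2 * (s / n) := by
  rw [rad_sq hs]
  have hn0 : (0 : ℝ) < n := by exact_mod_cast hn
  have hx0 : 0 ≤ s / n := by positivity
  have hx1 : s / n ≤ 1 := by rw [div_le_one hn0]; exact h
  have h1 : Real.exp ((1 - s / n) • (0 : ℝ) + (s / n) • (1 : ℝ)) ≤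
      (1 - s / n) • Real.exp 0 + (s / n) • Real.exp 1 :=
    convexOn_exp.2 (Set.mem_univ _) (Set.mem_univ _) (by linarith) hx0 (by ring)
  simp only [smul_eq_mul, mul_zero, mul_one, zero_add, Real.exp_zero] at h1
  have h2 := Real.exp_one_lt_d9
  nlinarith

theorem KK_m {n m : ℕ} {θ : ℝ} (hm : (m : ℝ) ≤ θ * n) {r : ℝ} : KK m r ≤ KK n r ^ θ := by
  unfold KK
  have h1 : (1 : ℝ) ≤ 1 + r ^ 2 := by nlinarith [sq_nonneg r]
  have e1 : (1 + r ^ 2) ^ m = (1 + r ^ 2) ^ (m : ℝ) := (Real.rpow_natCast _ _).symm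
  have e2 : (1 + r ^ 2) ^ n = (1 + r ^ 2) ^ (n : ℝ) := (Real.rpow_natCast _ _).symm
  rw [e1, e2, ← Real.rpow_mul (by positivity)]
  apply Real.rpow_le_rpow_of_exponent_le h1
  linarith

/-- the context: a denominator -/
structure Ctx (n m : ℕ) (Q : ℂ[X]) (M0 θ : ℝ) : Prop where
  hn : 1 ≤ n
  hm : (m : ℝ) ≤ θ * n
  hdeg : Q.natDegree ≤ m
  hcoef : ∀ k, ‖Q.coeff k‖ ≤ M0 * bw m k
  hM0 : 1 ≤ M0
  hθ0 : 0 ≤ θ
  hθ1 : θ < 1

theorem Ctx.mn {n m : ℕ} {Q : ℂ[X]} {M0 θ : ℝ} (h : Ctx n m Q M0 θ) : m ≤ n := by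
  have h1 := h.hm
  have h2 := h.hθ1
  have h3 : (0 : ℝ) < n := by exact_mod_cast h.hn
  have : (m : ℝ) ≤ n := by nlinarith
  exact_mod_cast this

/-- the bounds of `S_SUM` for given `σ` and `c` -/
def Sums (σ c : ℝ) : Prop := ∀ (n : ℕ) (r : ℝ), 0 ≤ r →
    (∑ k ∈ Finset.range (n + 1), bw n k * r ^ k ≤ c * KK n r ^ (σ / 2)) ∧
    (∑ k ∈ Finset.range (n + 1), k * bw n k * r ^ (k - 1) ≤ c * n * KK n r ^ (σ / 2)) ∧
    (∑ k ∈ Finset.range (n + 1), k * (k - 1) * bw n k * r ^ (k - 2) ≤ c * n * KK n r ^ (σ / 2))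

theorem KK_le_exp {n : ℕ} (hn : 1 ≤ n) {s r : ℝ} (hs : 0 ≤ s) (hr : 0 ≤ r) (h : r ≤ rad n s) :
    KK n r ≤ Real.exp s := (KK_mono hr h).trans (le_of_eq (KK_rad hn hs))

theorem exp_le_KK {n : ℕ} (hn : 1 ≤ n) {s r : ℝ} (hs : 0 ≤ s) (h : rad n s ≤ r) :
    Real.exp s ≤ KK n r := (le_of_eq (KK_rad hn hs).symm).trans (KK_mono (rad_nonneg _ _) h)

theorem mbound (hE : S_EVAL) (hQ : S_QB) {σ c : ℝ} (hσ : 0 ≤ σ) (hc : 0 ≤ c) (hS : Sums σ c)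
    {n m : ℕ} {Q : ℂ[X]} {M0 θ : ℝ} (h : Ctx n m Q M0 θ) {L V s : ℝ} (hL : 0 ≤ L) (hV : 0 ≤ V)
    (hs : 0 ≤ s) (x : Fin (n + 1) → ℂ) (hx : ∀ k, ‖x k‖ ≤ L) (w : ℂ) (hw : ‖w‖ ≤ rad n s) :
    ‖(derivative (derivative (TT n x))).eval w‖ + V * ‖(derivative (derivative Q)).eval w‖ ≤
      (L + V * M0) * c * n * Real.exp (σ * s / 2) := by
  have h1 := ((hE n x w).2.2 L hx).2.2
  have h2 := (hQ m Q M0 h.hdeg h.hcoef w).2.2
  have h3 := (hS n ‖w‖ (norm_nonneg _)).2.2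
  have h4 := (hS m ‖w‖ (norm_nonneg _)).2.2
  have hK := KK_le_exp h.hn hs (norm_nonneg _) hw
  have hKm : KK m ‖w‖ ≤ KK n ‖w‖ := by
    unfold KK
    exact pow_le_pow_right₀ (by nlinarith [sq_nonneg ‖w‖]) h.mn
  have e1 : KK n ‖w‖ ^ (σ / 2) ≤ Real.exp (σ * s / 2) := by
    refine (Real.rpow_le_rpow (KK_pos _ _).le hK (by linarith)).trans (le_of_eq ?_)
    rw [← Real.exp_mul]
    congr 1
    ring
  have e2 : KK m ‖w‖ ^ (σ / 2) ≤ Real.exp (σ * s / 2) :=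
    (Real.rpow_le_rpow (KK_pos _ _).le hKm (by linarith)).trans e1
  have hmn : (m : ℝ) ≤ n := by exact_mod_cast h.mn
  have hM0 := h.hM0
  have hKm0 : 0 ≤ KK m ‖w‖ ^ (σ / 2) := Real.rpow_nonneg (KK_pos _ _).le _
  have k1 : ‖(derivative (derivative (TT n x))).eval w‖ ≤ L * (c * n * Real.exp (σ * s / 2)) := by
    refine h1.trans ?_
    gcongr
    exact h3.trans (by gcongr)
  have k2 : ‖(derivative (derivative Q)).eval w‖ ≤ M0 * (c * n * Real.exp (σ * s / 2)) := by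
    refine h2.trans ?_
    gcongr
    exact h4.trans (by gcongr)
  calc _ ≤ L * (c * n * Real.exp (σ * s / 2)) + V * (M0 * (c * n * Real.exp (σ * s / 2))) := by
        gcongr
    _ = _ := by ring

theorem qbound (hQ : S_QB) {σ c : ℝ} (hσ : 0 ≤ σ) (hc : 0 ≤ c) (hS : Sums σ c)
    {n m : ℕ} {Q : ℂ[X]} {M0 θ : ℝ} (h : Ctx n m Q M0 θ) (w : ℂ) :
    ‖Q.eval w‖ ≤ M0 * c * (KK n ‖w‖) ^ (σ * θ / 2) := by
  have h2 := (hQ m Q M0 h.hdeg h.hcoef w).1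
  have h4 := (hS m ‖w‖ (norm_nonneg _)).1
  have hM0 := h.hM0
  have e : KK m ‖w‖ ^ (σ / 2) ≤ KK n ‖w‖ ^ (σ * θ / 2) := by
    refine (Real.rpow_le_rpow (KK_pos _ _).le (KK_m h.hm) (by linarith)).trans (le_of_eq ?_)
    rw [← Real.rpow_mul (KK_pos _ _).le]
    congr 1
    ring
  refine h2.trans ?_
  rw [mul_assoc]
  gcongr
  exact h4.trans (by gcongr)

theorem qbound' (hQ : S_QB) {σ c : ℝ} (hσ : 0 ≤ σ) (hc : 0 ≤ c) (hS : Sums σ c)
    {n m : ℕ} {Q : ℂ[X]} {M0 θ : ℝ} (h : Ctx n m Q M0 θ) {s : ℝ} (hs : 0 ≤ s) (w : ℂ)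
    (hw : ‖w‖ ≤ rad n s) :
    ‖Q.eval w‖ ≤ M0 * c * Real.exp (σ * θ * s / 2) := by
  refine (qbound hQ hσ hc hS h w).trans ?_
  have hM0 := h.hM0
  have hθ := h.hθ0
  have hK := KK_le_exp h.hn hs (norm_nonneg _) hw
  gcongr
  refine (Real.rpow_le_rpow (KK_pos _ _).le hK (by positivity)).trans (le_of_eq ?_)
  rw [← Real.exp_mul]
  congr 1
  ring

/-! ### Pairs of indices -/

theorem bw_nonneg (n k : ℕ) : 0 ≤ bw n k := Real.sqrt_nonneg _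

theorem norm_pf (n : ℕ) (z : ℂ) (k : Fin (n + 1)) : ‖pf n z k‖ = bw n k * ‖z‖ ^ (k : ℕ) := by
  unfold pf
  rw [norm_mul, norm_pow, Complex.norm_real, Real.norm_eq_abs, abs_of_nonneg (bw_nonneg _ _)]

theorem norm_qf (n : ℕ) (z : ℂ) (k : Fin (n + 1)) :
    ‖qf n z k‖ = (k : ℕ) * bw n k * ‖z‖ ^ ((k : ℕ) - 1) := by
  unfold qf
  rw [norm_mul, norm_mul, norm_pow, Complex.norm_real, Real.norm_eq_abs,
    abs_of_nonneg (bw_nonneg _ _), Complex.norm_natCast]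

theorem bw_pos {n k : ℕ} (h : k ≤ n) : 0 < bw n k := by
  unfold bw
  apply Real.sqrt_pos.2
  exact_mod_cast Nat.choose_pos h

theorem bw_sq (n k : ℕ) : bw n k ^ 2 = n.choose k := by
  unfold bw
  rw [Real.sq_sqrt (Nat.cast_nonneg _)]

theorem det_succ {n i : ℕ} (hi : i + 1 ≤ n) (z : ℂ) :
    pf n z ⟨i, by omega⟩ * qf n z ⟨i + 1, by omega⟩ - pf n z ⟨i + 1, by omega⟩ * qf n z ⟨i, by omega⟩ =
      (bw n i : ℂ) * bw n (i + 1) * z ^ (2 * i) := by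
  unfold pf qf
  simp only
  rcases Nat.eq_zero_or_pos i with rfl | hi0
  · simp
  · obtain ⟨j, rfl⟩ : ∃ j, i = j + 1 := ⟨i - 1, by omega⟩
    simp only [Nat.add_sub_cancel]
    push_cast
    ring

theorem det_sq {n i : ℕ} (hi : i + 1 ≤ n) (z : ℂ) :
    (i + 1 : ℝ) * ‖pf n z ⟨i, by omega⟩ * qf n z ⟨i + 1, by omega⟩ -
      pf n z ⟨i + 1, by omega⟩ * qf n z ⟨i, by omega⟩‖ ^ 2 =
      ((n : ℝ) - i) * ((n.choose i : ℝ) * ‖z‖ ^ (2 * i)) ^ 2 := by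
  rw [det_succ hi, norm_mul, norm_mul, norm_pow, Complex.norm_real, Complex.norm_real,
    Real.norm_eq_abs, Real.norm_eq_abs, abs_of_nonneg (bw_nonneg _ _),
    abs_of_nonneg (bw_nonneg _ _), mul_pow, mul_pow, mul_pow]
  rw [bw_sq, bw_sq]
  have h1 : (n.choose (i + 1) : ℝ) * (i + 1) = n.choose i * ((n : ℝ) - i) := by
    have := Nat.choose_succ_right_eq n i
    have h2 : ((n - i : ℕ) : ℝ) = (n : ℝ) - i := by
      rw [Nat.cast_sub (by omega)]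
    rw [← h2]
    exact_mod_cast this
  linear_combination (n.choose i : ℝ) * (‖z‖ ^ (2 * i)) ^ 2 * h1

/-- a good pair of indices, small `n ‖z‖²` -/
theorem pair_small (hI : S_IND) {n : ℕ} (hn : 1 ≤ n) {T r' : ℝ} (hT : 4 * T ≤ n) (hT0 : 1 / 2 ≤ T) (z : ℂ)
    (hz : n * ‖z‖ ^ 2 ≤ T) (hr' : ‖z‖ ≤ r') :
    ∃ i j : Fin (n + 1), i ≠ j ∧ pf n z i ≠ 0 ∧ ‖qf n z i‖ ≤ (2 * n * r') * ‖pf n z i‖ ∧
      n * KK n ‖z‖ ^ 2 ≤ 8 * (2 * T + 1) ^ 3 *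
        ‖pf n z i * qf n z j - pf n z j * qf n z i‖ ^ 2 := by
  obtain ⟨i, hin, hi2, hK⟩ := (hI n ‖z‖ (norm_nonneg _)).2
  have hn0 : (1 : ℝ) ≤ n := by exact_mod_cast hn
  have hiT : (i : ℝ) ≤ 2 * T := by linarith
  have hi1 : i + 1 ≤ n := by
    have : ((i + 1 : ℕ) : ℝ) ≤ n := by push_cast; linarith
    exact_mod_cast this
  have hKpos := KK_pos n ‖z‖
  have hxpos : 0 < (n.choose i : ℝ) * ‖z‖ ^ (2 * i) := by
    have h0 : 0 ≤ (n : ℝ) * ‖z‖ ^ 2 := by positivity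
    by_contra hcon
    push Not at hcon
    nlinarith
  have hpf : pf n z ⟨i, by omega⟩ ≠ 0 := by
    rw [← norm_pos_iff, norm_pf]
    by_contra hcon
    push Not at hcon
    have hb := bw_pos hin
    have h1 : ‖z‖ ^ i ≤ 0 := by
      by_contra h2
      push Not at h2
      have := mul_pos hb h2
      simp only at hcon
      linarith
    have h3 : ‖z‖ ^ i = 0 := le_antisymm h1 (by positivity)
    rw [mul_comm 2 i, pow_mul, h3] at hxpos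
    simp at hxpos
  refine ⟨⟨i, by omega⟩, ⟨i + 1, by omega⟩, ?_, hpf, ?_, ?_⟩
  · simp [Fin.ext_iff]
  · rw [norm_pf, norm_qf]
    simp only
    have hb := (bw_pos hin).le
    rcases Nat.eq_zero_or_pos i with h0 | h0
    · subst h0
      have : 0 ≤ r' := (norm_nonneg _).trans hr'
      simp only [Nat.cast_zero, zero_mul]
      positivity
    · obtain ⟨j, rfl⟩ : ∃ j, i = j + 1 := ⟨i - 1, by omega⟩
      simp only [Nat.add_sub_cancel]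
      have h1 : ((j + 1 : ℕ) : ℝ) ≤ 2 * n * r' * ‖z‖ := by
        refine hi2.trans ?_
        have : ‖z‖ * ‖z‖ ≤ r' * ‖z‖ := mul_le_mul_of_nonneg_right hr' (norm_nonneg _)
        nlinarith
      calc ((j + 1 : ℕ) : ℝ) * bw n (j + 1) * ‖z‖ ^ j
          ≤ (2 * n * r' * ‖z‖) * bw n (j + 1) * ‖z‖ ^ j := by gcongr
        _ = 2 * n * r' * (bw n (j + 1) * ‖z‖ ^ (j + 1)) := by ring
  · have hd := det_sq hi1 z
    set D := ‖pf n z ⟨i, by omega⟩ * qf n z ⟨i + 1, by omega⟩ -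
      pf n z ⟨i + 1, by omega⟩ * qf n z ⟨i, by omega⟩‖ ^ 2 with hD
    set X := (n.choose i : ℝ) * ‖z‖ ^ (2 * i) with hX
    have hK2 : KK n ‖z‖ ≤ 2 * (2 * T + 1) * X := hK.trans (by gcongr)
    have hD0 : 0 ≤ D := by positivity
    -- `(n / 2) X² ≤ (2T+1) D`
    have h1 : (n / 2 : ℝ) * X ^ 2 ≤ (2 * T + 1) * D := by
      calc (n / 2 : ℝ) * X ^ 2 ≤ ((n : ℝ) - i) * X ^ 2 := by
            gcongr; linarith
        _ = (i + 1) * D := hd.symm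
        _ ≤ (2 * T + 1) * D := by gcongr
    calc (n : ℝ) * KK n ‖z‖ ^ 2 ≤ n * (2 * (2 * T + 1) * X) ^ 2 := by gcongr
      _ = 8 * (2 * T + 1) ^ 2 * ((n / 2 : ℝ) * X ^ 2) := by ring
      _ ≤ 8 * (2 * T + 1) ^ 2 * ((2 * T + 1) * D) := by gcongr
      _ = 8 * (2 * T + 1) ^ 3 * D := by ring

/-- a good pair of indices, large `‖z‖` -/
theorem pair_large (hI : S_IND) {n : ℕ} (hn : 1 ≤ n) (z : ℂ) {lo : ℝ} (hlo : 0 < lo)
    (hz : lo ≤ ‖z‖) (hz4 : ‖z‖ ≤ 4 * (n : ℝ) ^ 3) :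
    ∃ i j : Fin (n + 1), i ≠ j ∧ pf n z i ≠ 0 ∧ ‖qf n z i‖ ≤ (n / lo) * ‖pf n z i‖ ∧
      KK n ‖z‖ ^ 2 ≤ 1024 * (n : ℝ) ^ 13 *
        ‖pf n z i * qf n z j - pf n z j * qf n z i‖ ^ 2 := by
  obtain ⟨i₀, hin, hK⟩ := (hI n ‖z‖ (norm_nonneg _)).1
  have hn0 : (1 : ℝ) ≤ n := by exact_mod_cast hn
  have hz0 : 0 < ‖z‖ := lt_of_lt_of_le hlo hz
  obtain ⟨i, hi⟩ : ∃ i, i = min i₀ (n - 1) := ⟨_, rfl⟩
  have hi1 : i + 1 ≤ n := by omega
  have hin' : i ≤ n := by omega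
  refine ⟨⟨i, by omega⟩, ⟨i + 1, by omega⟩, by simp [Fin.ext_iff], ?_, ?_, ?_⟩
  · rw [← norm_pos_iff, norm_pf]
    have := bw_pos hin'
    positivity
  · rw [norm_pf, norm_qf]
    simp only
    have hb := (bw_pos hin').le
    rcases Nat.eq_zero_or_pos i with h0 | h0
    · rw [h0]
      simp only [Nat.cast_zero, zero_mul]
      have := bw_nonneg n 0
      positivity
    · obtain ⟨j, hj⟩ : ∃ j, i = j + 1 := ⟨i - 1, by omega⟩
      rw [hj]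
      simp only [Nat.add_sub_cancel]
      have h1 : ((j + 1 : ℕ) : ℝ) ≤ n / lo * ‖z‖ := by
        rw [div_mul_eq_mul_div, le_div_iff₀ hlo]
        have : ((j + 1 : ℕ) : ℝ) ≤ n := by exact_mod_cast (by omega : j + 1 ≤ n)
        gcongr
      calc ((j + 1 : ℕ) : ℝ) * bw n (j + 1) * ‖z‖ ^ j
          ≤ (n / lo * ‖z‖) * bw n (j + 1) * ‖z‖ ^ j := by
            have : 0 ≤ bw n (j + 1) := Real.sqrt_nonneg _
            gcongr
        _ = n / lo * (bw n (j + 1) * ‖z‖ ^ (j + 1)) := by ring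
  · have hd := det_sq hi1 z
    set D := ‖pf n z ⟨i, by omega⟩ * qf n z ⟨i + 1, by omega⟩ -
      pf n z ⟨i + 1, by omega⟩ * qf n z ⟨i, by omega⟩‖ ^ 2 with hD
    have hD0 : 0 ≤ D := by positivity
    have hKp := (KK_pos n ‖z‖).le
    have hn1 : ((n : ℝ) + 1) ^ 2 ≤ 4 * (n : ℝ) ^ 2 := by nlinarith
    rcases Nat.lt_or_ge i₀ n with hlt | hge
    · have hii : i = i₀ := by omega
      rw [← hii] at hK
      set X := (n.choose i : ℝ) * ‖z‖ ^ (2 * i) with hX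
      have h1 : X ^ 2 ≤ n * D := by
        have h2 : (1 : ℝ) ≤ (n : ℝ) - i := by
          have : ((i + 1 : ℕ) : ℝ) ≤ n := by exact_mod_cast hi1
          push_cast at this; linarith
        calc X ^ 2 = 1 * X ^ 2 := by ring
          _ ≤ ((n : ℝ) - i) * X ^ 2 := by gcongr
          _ = (i + 1) * D := hd.symm
          _ ≤ n * D := by
            gcongr
            exact_mod_cast hi1
      calc KK n ‖z‖ ^ 2 ≤ ((n + 1) * X) ^ 2 := by gcongr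
        _ = ((n : ℝ) + 1) ^ 2 * X ^ 2 := by ring
        _ ≤ (4 * (n : ℝ) ^ 2) * (n * D) := by gcongr
        _ = 4 * (n : ℝ) ^ 3 * D := by ring
        _ ≤ 1024 * (n : ℝ) ^ 13 * D := by
          have : (n : ℝ) ^ 3 ≤ (n : ℝ) ^ 13 := pow_le_pow_right₀ hn0 (by norm_num)
          have h5 : (0:ℝ) ≤ (n:ℝ)^13 := by positivity
          nlinarith [mul_le_mul_of_nonneg_right this hD0]
    · have hii : i₀ = n := by omega
      have hi' : i = n - 1 := by omega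
      rw [hii, Nat.choose_self, Nat.cast_one, one_mul] at hK
      have hch : (n.choose i : ℝ) = n := by
        rw [hi']
        have : n.choose (n - 1) = n := by
          rw [← Nat.choose_symm (by omega : n - 1 ≤ n)]
          have : n - (n - 1) = 1 := by omega
          rw [this, Nat.choose_one_right]
        exact_mod_cast this
      have hni : (n : ℝ) - i = 1 := by
        have : (n : ℝ) = i + 1 := by exact_mod_cast (by omega : n = i + 1)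
        linarith
      have hi1n : (i : ℝ) + 1 = n := by linarith
      rw [hch, hni, hi1n, one_mul] at hd
      -- n * D = (n * ‖z‖^(2 i))^2
      have hD1 : D = n * (‖z‖ ^ (2 * i)) ^ 2 := by
        have hne : (n : ℝ) ≠ 0 := by linarith
        apply mul_left_cancel₀ hne
        rw [hd]
        ring
      have hp : ‖z‖ ^ (2 * n) = ‖z‖ ^ (2 * i) * ‖z‖ ^ 2 := by
        rw [← pow_add]
        congr 1
        omega
      have hz16 : (‖z‖ ^ 2) ^ 2 ≤ 256 * (n : ℝ) ^ 12 := by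
        calc (‖z‖ ^ 2) ^ 2 ≤ ((4 * (n : ℝ) ^ 3) ^ 2) ^ 2 := by gcongr
          _ = _ := by ring
      calc KK n ‖z‖ ^ 2 ≤ ((n + 1) * (‖z‖ ^ (2 * i) * ‖z‖ ^ 2)) ^ 2 := by
            rw [← hp]; gcongr
        _ = ((n : ℝ) + 1) ^ 2 * ((‖z‖ ^ (2 * i)) ^ 2 * (‖z‖ ^ 2) ^ 2) := by ring
        _ ≤ (4 * (n : ℝ) ^ 2) * ((‖z‖ ^ (2 * i)) ^ 2 * (256 * (n : ℝ) ^ 12)) := by gcongr
        _ = 1024 * (n : ℝ) ^ 13 * (n * (‖z‖ ^ (2 * i)) ^ 2) := by ring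
        _ = 1024 * (n : ℝ) ^ 13 * D := by rw [hD1]

end Pool.Agent.TH642.RC.M
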