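import Pool.Agent.TH642.RC.Blk

set_option autoImplicit false

open MeasureTheory Polynomial Filter Topology

namespace Pool.Agent.TH642.RC.M

/-- constants -/
noncomputable def C1 : ℝ := 100000 * 16 * 729 * Real.exp 6

theorem C1_pos : 0 < C1 := by unfold C1; positivity

/-- one small block -/
theorem blk1 (hD : S_DRB) (hI : S_IND) (hE : S_EVAL) (hQ : S_QB) {σ c θ : ℝ} (hσ : 1 < σ)
    (hσθ : σ * (1 + θ) ≤ 2) (hc : 1 ≤ c) (hS : Sums σ c) {n m : ℕ} {Q : ℂ[X]} {M0 : ℝ}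
    (h : Ctx n m Q M0 θ) (μ : Fin (n + 1) → Measure ℂ) [∀ i, IsProbabilityMeasure (μ i)] {B : ℝ}
    (hB : 0 ≤ B) (hd : ∀ i, Dens B (μ i)) {L V : ℝ} (hL : 0 ≤ L) (hV : 0 < V) (s : ℕ)
    (hs : 8 * (s + 2) ≤ n) :
    Measure.pi μ (DR n Q L (rad n s) (rad n (s + 1)) V) ≤
      ENNReal.ofReal (C1 * (B ^ 2 * V ^ 2 * (L + V * M0) ^ 2 * (M0 ^ 2 * c ^ 4)) *
        ((s + 1 : ℝ) ^ 4 * Real.exp (-(2 - σ * (1 + θ)) * s))) := by
  have hn := h.hn
  have hn0 : (0 : ℝ) < n := by exact_mod_cast hn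
  have hM0 := h.hM0
  have hM00 : 0 < M0 := by linarith
  have hθ := h.hθ0
  have hs0 : (0 : ℝ) ≤ s := Nat.cast_nonneg _
  have hsn : (8 : ℝ) * (s + 2) ≤ n := by exact_mod_cast hs
  have hρ1 : rad n (s + 1) ^ 2 ≤ 2 * ((s + 1) / n) := rad_sq_le hn (by linarith) (by linarith)
  have hρ2 : rad n (s + 2) ^ 2 ≤ 2 * ((s + 2) / n) := rad_sq_le hn (by linarith) (by linarith)
  have hρ1pos : 0 < rad n (s + 1) := by
    have := rad_lt hn le_rfl (show (0:ℝ) < (s:ℝ) + 1 by linarith)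
    rw [rad_zero] at this
    exact this
  obtain ⟨T, hT⟩ : ∃ T : ℝ, T = 2 * (s + 2) := ⟨_, rfl⟩
  obtain ⟨lo', hlo', hloK⟩ : ∃ lo' : ℝ, lo' < rad n s ∧ ∀ z : ℂ, lo' ≤ ‖z‖ →
      Real.exp (s - 1) ≤ KK n ‖z‖ := by
    rcases Nat.eq_zero_or_pos s with h0 | h0
    · refine ⟨-1, ?_, fun z _ => ?_⟩
      · have := rad_nonneg n s
        linarith
      · rw [h0]
        refine le_trans ?_ (one_le_KK n _)
        simp only [Nat.cast_zero, zero_sub]
        rw [Real.exp_le_one_iff]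
        norm_num
    · have h1 : (1 : ℝ) ≤ s := by exact_mod_cast h0
      refine ⟨rad n (s - 1), rad_lt hn (by linarith) (by linarith), fun z hz => ?_⟩
      exact exp_le_KK hn (by linarith) hz
  have key := hD n μ inferInstance B hB hd Q L V (rad n s) lo' (rad n (s + 1)) (rad n (s + 2))
    ((L + V * M0) * c * n * Real.exp (σ * (s + 2) / 2)) (M0 * c * Real.exp (σ * θ * (s + 2) / 2))
    (8 * (4 * s + 9) ^ 3 / (n * Real.exp (2 * (s - 1)))) (2 * n * rad n (s + 2)) hL hV hρ1pos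
    hlo' (rad_lt hn (by linarith) (by linarith)) (by positivity) (by positivity) (by positivity)
    (by have := rad_nonneg n (s + 2); positivity)
    (fun x hx w hw => mbound hE hQ (by linarith) (by linarith) hS h hL hV.le (by linarith) x hx w hw)
    (fun w hw => qbound' hQ (by linarith) (by linarith) hS h (by linarith) w hw)
    (by
      intro z hz1 hz2
      have hz : n * ‖z‖ ^ 2 ≤ T := by
        have h1 : ‖z‖ ^ 2 ≤ 2 * ((s + 2) / n) :=
          (pow_le_pow_left₀ (norm_nonneg _) hz2 2).trans hρ2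
        calc n * ‖z‖ ^ 2 ≤ n * (2 * ((s + 2) / n)) := by gcongr
          _ = T := by rw [hT]; field_simp
      obtain ⟨i, j, hij, hp, hq, hdet⟩ := pair_small hI hn (T := T) (r' := rad n (s + 2))
        (by rw [hT]; linarith) (by rw [hT]; linarith) z hz hz2
      refine ⟨i, j, hij, hp, hq, ?_⟩
      have hK := hloK z hz1
      have e2 : Real.exp (2 * ((s : ℝ) - 1)) = Real.exp (s - 1) ^ 2 := by
        rw [← Real.exp_nat_mul]; norm_num
      rw [e2, div_mul_eq_mul_div, le_div_iff₀ (by positivity), one_mul]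
      have e3 : 2 * T + 1 = 4 * s + 9 := by rw [hT]; ring
      rw [e3] at hdet
      refine le_trans ?_ hdet
      gcongr)
  refine key.trans (ENNReal.ofReal_le_ofReal ?_)
  have h49 : ((4 : ℝ) * s + 9) ^ 3 ≤ 729 * (s + 1) ^ 3 := by
    calc ((4 : ℝ) * s + 9) ^ 3 ≤ (9 * (s + 1)) ^ 3 := by gcongr; linarith
      _ = _ := by ring
  have eE : Real.exp (σ * θ * (s + 2) / 2) ^ 2 * Real.exp (σ * (s + 2) / 2) ^ 2 /
      Real.exp (2 * (s - 1)) ≤ Real.exp 6 * Real.exp (-(2 - σ * (1 + θ)) * s) := by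
    rw [← Real.exp_nat_mul, ← Real.exp_nat_mul, ← Real.exp_add, ← Real.exp_sub, ← Real.exp_add]
    apply Real.exp_le_exp.2
    push_cast
    nlinarith
  calc 100000 * B ^ 2 * rad n (s + 1) ^ 2 * V ^ 2 * (M0 * c * Real.exp (σ * θ * (s + 2) / 2)) ^ 2 *
        ((L + V * M0) * c * n * Real.exp (σ * (s + 2) / 2)) ^ 2 *
        (8 * (4 * s + 9) ^ 3 / (n * Real.exp (2 * (s - 1))))
      ≤ 100000 * B ^ 2 * (2 * ((s + 1) / n)) * V ^ 2 *
        (M0 * c * Real.exp (σ * θ * (s + 2) / 2)) ^ 2 *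
        ((L + V * M0) * c * n * Real.exp (σ * (s + 2) / 2)) ^ 2 *
        (8 * (729 * (s + 1) ^ 3) / (n * Real.exp (2 * (s - 1)))) := by
        gcongr
    _ = 100000 * 16 * 729 * (B ^ 2 * V ^ 2 * (L + V * M0) ^ 2 * (M0 ^ 2 * c ^ 4)) * (s + 1) ^ 4 *
        (Real.exp (σ * θ * (s + 2) / 2) ^ 2 * Real.exp (σ * (s + 2) / 2) ^ 2 /
          Real.exp (2 * (s - 1))) := by
        field_simp
        ring
    _ ≤ 100000 * 16 * 729 * (B ^ 2 * V ^ 2 * (L + V * M0) ^ 2 * (M0 ^ 2 * c ^ 4)) * (s + 1) ^ 4 *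
        (Real.exp 6 * Real.exp (-(2 - σ * (1 + θ)) * s)) := by
        gcongr
    _ = _ := by unfold C1; ring

noncomputable def C2 : ℝ := 100000 * 16 * 4 * 1024 * Real.exp 6

theorem C2_pos : 0 < C2 := by unfold C2; positivity

/-- one large block -/
theorem blk2 (hD : S_DRB) (hI : S_IND) (hE : S_EVAL) (hQ : S_QB) {σ c θ : ℝ} (hσ : 1 < σ)
    (hσθ : σ * (1 + θ) ≤ 2) (hc : 1 ≤ c) (hS : Sums σ c) {n m : ℕ} {Q : ℂ[X]} {M0 : ℝ}
    (h : Ctx n m Q M0 θ) (μ : Fin (n + 1) → Measure ℂ) [∀ i, IsProbabilityMeasure (μ i)] {B : ℝ}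
    (hB : 0 ≤ B) (hd : ∀ i, Dens B (μ i)) {L : ℝ} (hL : 0 ≤ L) (hLn : L ≤ (n : ℝ) ^ 3 * M0) (s : ℕ)
    (hs : 2 ≤ s) (hr : rad n (s + 2) ≤ 4 * (n : ℝ) ^ 3) :
    Measure.pi μ (DR n Q L (rad n s) (rad n (s + 1)) ((n : ℝ) ^ 3)) ≤
      ENNReal.ofReal (C2 * (B ^ 2 * (M0 ^ 4 * c ^ 4)) * (n : ℝ) ^ 33 *
        Real.exp (-(2 - σ * (1 + θ)) * s)) := by
  have hn := h.hn
  have hn0 : (0 : ℝ) < n := by exact_mod_cast hn
  have hM0 := h.hM0
  have hM00 : 0 < M0 := by linarith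
  have hθ := h.hθ0
  have hs2 : (2 : ℝ) ≤ s := by exact_mod_cast hs
  have hρ1pos : 0 < rad n (s + 1) := by
    have := rad_lt hn le_rfl (show (0:ℝ) < (s:ℝ) + 1 by linarith)
    rw [rad_zero] at this
    exact this
  have hlopos : 0 < rad n (s - 1) := by
    have := rad_lt hn le_rfl (show (0:ℝ) < (s:ℝ) - 1 by linarith)
    rw [rad_zero] at this
    exact this
  have hρ14 : rad n (s + 1) ≤ 4 * (n : ℝ) ^ 3 :=
    (rad_lt hn (by linarith) (by linarith)).le.trans hr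
  have key := hD n μ inferInstance B hB hd Q L ((n : ℝ) ^ 3) (rad n s) (rad n (s - 1))
    (rad n (s + 1)) (rad n (s + 2))
    ((2 * (n : ℝ) ^ 3 * M0) * c * n * Real.exp (σ * (s + 2) / 2))
    (M0 * c * Real.exp (σ * θ * (s + 2) / 2))
    (1024 * (n : ℝ) ^ 13 / Real.exp (2 * (s - 1))) (n / rad n (s - 1)) hL (by positivity) hρ1pos
    (rad_lt hn (by linarith) (by linarith)) (rad_lt hn (by linarith) (by linarith))
    (by positivity) (by positivity) (by positivity) (by positivity)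
    (fun x hx w hw => (mbound hE hQ (by linarith) (by linarith) hS h hL (by positivity)
      (by linarith) x hx w hw).trans (by
        have : L + (n : ℝ) ^ 3 * M0 ≤ 2 * (n : ℝ) ^ 3 * M0 := by linarith
        gcongr))
    (fun w hw => qbound' hQ (by linarith) (by linarith) hS h (by linarith) w hw)
    (by
      intro z hz1 hz2
      obtain ⟨i, j, hij, hp, hq, hdet⟩ := pair_large hI hn z hlopos hz1 (hz2.trans hr)
      refine ⟨i, j, hij, hp, hq, ?_⟩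
      have hK : Real.exp (s - 1) ≤ KK n ‖z‖ := exp_le_KK hn (by linarith) hz1
      have e2 : Real.exp (2 * ((s : ℝ) - 1)) = Real.exp (s - 1) ^ 2 := by
        rw [← Real.exp_nat_mul]; norm_num
      rw [e2, div_mul_eq_mul_div, le_div_iff₀ (by positivity), one_mul]
      refine le_trans ?_ hdet
      gcongr)
  refine key.trans (ENNReal.ofReal_le_ofReal ?_)
  have eE : Real.exp (σ * θ * (s + 2) / 2) ^ 2 * Real.exp (σ * (s + 2) / 2) ^ 2 /
      Real.exp (2 * (s - 1)) ≤ Real.exp 6 * Real.exp (-(2 - σ * (1 + θ)) * s) := by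
    rw [← Real.exp_nat_mul, ← Real.exp_nat_mul, ← Real.exp_add, ← Real.exp_sub, ← Real.exp_add]
    apply Real.exp_le_exp.2
    push_cast
    nlinarith
  calc 100000 * B ^ 2 * rad n (s + 1) ^ 2 * ((n : ℝ) ^ 3) ^ 2 *
        (M0 * c * Real.exp (σ * θ * (s + 2) / 2)) ^ 2 *
        ((2 * (n : ℝ) ^ 3 * M0) * c * n * Real.exp (σ * (s + 2) / 2)) ^ 2 *
        (1024 * (n : ℝ) ^ 13 / Real.exp (2 * (s - 1)))
      ≤ 100000 * B ^ 2 * (4 * (n : ℝ) ^ 3) ^ 2 * ((n : ℝ) ^ 3) ^ 2 *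
        (M0 * c * Real.exp (σ * θ * (s + 2) / 2)) ^ 2 *
        ((2 * (n : ℝ) ^ 3 * M0) * c * n * Real.exp (σ * (s + 2) / 2)) ^ 2 *
        (1024 * (n : ℝ) ^ 13 / Real.exp (2 * (s - 1))) := by
        gcongr
    _ = 100000 * 16 * 4 * 1024 * (B ^ 2 * (M0 ^ 4 * c ^ 4)) * (n : ℝ) ^ 33 *
        (Real.exp (σ * θ * (s + 2) / 2) ^ 2 * Real.exp (σ * (s + 2) / 2) ^ 2 /
          Real.exp (2 * (s - 1))) := by
        field_simp
        ring
    _ ≤ 100000 * 16 * 4 * 1024 * (B ^ 2 * (M0 ^ 4 * c ^ 4)) * (n : ℝ) ^ 33 *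
        (Real.exp 6 * Real.exp (-(2 - σ * (1 + θ)) * s)) := by
        gcongr
    _ = _ := by unfold C2; ring

end Pool.Agent.TH642.RC.M
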