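import Pool.Agent.TH642.RC.Tre

set_option autoImplicit false

open MeasureTheory Polynomial Filter Topology

namespace Pool.Agent.TH642.RC.M

/-- off the bad events, the map is hyperbolic -/
theorem core_incl (hQ : S_QB) (hDYN : S_DYN) (hESC : S_ESC) {σ c θ : ℝ} (hσ : 1 < σ) (hc : 1 ≤ c)
    (hS : Sums σ c) {n m : ℕ} {Q : ℂ[X]} {M0 : ℝ} (h : Ctx n m Q M0 θ) (hQ0 : Q ≠ 0) (hn4 : 4 ≤ n)
    (hm2 : m + 2 ≤ n) (h8 : 8 * M0 ≤ n) {L A : ℝ} (hL : L ≤ √n) (s1 : ℕ) (x : Fin (n + 1) → ℂ)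
    (h1 : ¬ ((∃ k, L < ‖x k‖) ∨ ‖x (Fin.last n)‖ ≤ 1 / n))
    (h2 : IsCoprime (TT n x) Q)
    (h3 : x ∉ DR n Q L 0 (rad n s1) A)
    (h4 : x ∉ DR n Q L (rad n s1) ((n : ℝ) ^ 3) ((n : ℝ) ^ 3))
    (h5 : x ∉ TR n Q L (rad n s1) A ((n : ℝ) ^ 3)
      (fun r => (n : ℝ) ^ 3 * (M0 * c * KK n r ^ (σ * θ / 2)))) :
    (TT n x).natDegree = n ∧ Hyperbolic (TT n x) Q := by
  push Not at h1
  obtain ⟨hx, hlast⟩ := h1
  have hn0 : (0 : ℝ) < n := by exact_mod_cast h.hn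
  obtain ⟨hdeg, hgr⟩ := hESC n m x Q M0 hn4 hm2 h.hM0 h8 h.hdeg h.hcoef
    (fun k => (hx k).trans hL) hlast.le
  refine ⟨hdeg, hDYN (TT n x) Q ((n : ℝ) ^ 3) h2 hQ0 ?_ (by positivity) hgr ?_⟩
  · rw [hdeg]
    have := h.hdeg
    omega
  intro w hw hcrit
  set v := (TT n x).eval w / Q.eval w with hv
  have hPw : (TT n x).eval w = v * Q.eval w := by rw [hv, div_mul_cancel₀ _ hw]
  have hdPw : (derivative (TT n x)).eval w = v * (derivative Q).eval w := by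
    apply mul_right_cancel₀ hw
    rw [hcrit, hPw]
    ring
  by_cases hv3 : (n : ℝ) ^ 3 ≤ ‖v‖
  · exact Or.inl hv3
  push Not at hv3
  have hw3 : ‖w‖ < (n : ℝ) ^ 3 := by
    by_contra hcon
    push Not at hcon
    have h6 := hgr w hcon
    rw [hPw, norm_mul] at h6
    have h7 : 0 < ‖Q.eval w‖ := norm_pos_iff.2 hw
    have h8 : 2 * ‖w‖ ≤ ‖v‖ := le_of_mul_le_mul_right h6 h7
    have h9 : 0 ≤ ‖w‖ := norm_nonneg _
    linarith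
  by_cases hr : rad n s1 ≤ ‖w‖
  · exact absurd ⟨hx, w, v, hr, hw3.le, hv3.le, hPw, hdPw⟩ h4
  push Not at hr
  by_cases hA : ‖v‖ ≤ A
  · exact absurd ⟨hx, w, v, norm_nonneg _, hr.le, hA, hPw, hdPw⟩ h3
  push Not at hA
  by_cases hQv : Q.eval v = 0
  · exact Or.inr (Or.inl hQv)
  right; right
  by_contra hcon
  push Not at hcon
  refine h5 ⟨hx, w, v, hr.le, hA.le, hv3.le, hPw, hdPw, ?_⟩
  rw [norm_div, div_lt_iff₀ (norm_pos_iff.2 hQv)] at hcon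
  refine hcon.le.trans ?_
  have hq := qbound hQ (by linarith : (0:ℝ) ≤ σ) (by linarith) hS h v
  simp only
  gcongr

/-- the failure probability, all parameters free -/
theorem core_bound (hD : S_DRB) (hT : S_TRB) (hI : S_IND)
    (hE : S_EVAL) (hQ : S_QB) (hTRI : S_TRI) (hDYN : S_DYN) (hESC : S_ESC) (hTAIL : S_TAIL)
    (hCOP : S_COP) {σ c θ : ℝ} (hσ : 1 < σ) (hσθ : 0 < lam σ θ) (hc : 1 ≤ c)
    (hS : Sums σ c) {n m : ℕ} {Q : ℂ[X]} {M0 : ℝ} (h : Ctx n m Q M0 θ) (hQ0 : Q ≠ 0) (hn4 : 4 ≤ n)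
    (hm2 : m + 2 ≤ n) (h8 : 8 * M0 ≤ n)
    (μ : Fin (n + 1) → Measure ℂ) [∀ i, IsProbabilityMeasure (μ i)] {B : ℝ}
    (hB : 0 ≤ B) (hd : ∀ i, Dens B (μ i)) {L A t : ℝ} (hL0 : 0 ≤ L) (hL : L ≤ √n) (hA : 0 < A)
    (hA1 : A ≤ 1) (ht : 0 ≤ t) (htail : ∀ i, μ i {y | L < ‖y‖} ≤ ENNReal.ofReal t)
    (s1 : ℕ) (hs1 : 2 ≤ s1) (hs : 8 * (s1 + 1) ≤ n)
    (hAn : 800 * (s1 + 1 : ℝ) ≤ n * A ^ 2)
    (hbig : ((n : ℝ) + 1) * n < (1 + (A / 2) ^ 2) ^ (n - 1)) :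
    Measure.pi μ {x | ¬ ((TT n x).natDegree = n ∧ Hyperbolic (TT n x) Q)} ≤ ENNReal.ofReal (
      ((n + 1) * t + B * (Real.pi * (1 / n) ^ 2)) +
      C1 * (B ^ 2 * A ^ 2 * (L + A * M0) ^ 2 * (M0 ^ 2 * c ^ 4)) * Lam (lam σ θ) +
      C2 * (B ^ 2 * (M0 ^ 4 * c ^ 4)) * (n : ℝ) ^ 33 *
        (Real.exp (-lam σ θ * s1) / (1 - Real.exp (-lam σ θ))) +
      C3 * B ^ 3 * (M0 ^ 2 * c ^ 2) ^ 3 * (n : ℝ) ^ 21 * Real.exp (2 * (s1 + 1)) *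
        KK n (A / 2) ^ (-(1 - σ * θ))) := by
  have hn1 : 1 ≤ n := by omega
  have hn0 : (0 : ℝ) < n := by exact_mod_cast hn1
  have hn1' : (1 : ℝ) ≤ n := by exact_mod_cast hn1
  have hM0 := h.hM0
  have hsn : (8 : ℝ) * (s1 + 1) ≤ n := by exact_mod_cast hs
  have hs1' : (2 : ℝ) ≤ s1 := by exact_mod_cast hs1
  have hLn : L ≤ (n : ℝ) ^ 3 * M0 := by
    refine hL.trans ?_
    have h1 : √(n : ℝ) ≤ n := by
      rw [Real.sqrt_le_left (by linarith)]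
      nlinarith
    have h2 : (n : ℝ) ≤ (n : ℝ) ^ 3 := by
      calc (n : ℝ) = (n : ℝ) ^ 1 := (pow_one _).symm
        _ ≤ _ := pow_le_pow_right₀ hn1' (by norm_num)
    have h3 : (n : ℝ) ^ 3 * 1 ≤ (n : ℝ) ^ 3 * M0 := by gcongr
    linarith
  have h12 : (s1 : ℝ) + 1 ≤ n * Real.log (1 + (n : ℝ) ^ 6) := by
    have h1 : (1 : ℝ) ≤ (n : ℝ) ^ 6 := one_le_pow₀ hn1'
    have h2 : Real.log 2 ≤ Real.log (1 + (n : ℝ) ^ 6) :=
      Real.log_le_log (by norm_num) (by linarith)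
    have h3 := Real.log_two_gt_d9
    have h4 : (1 : ℝ) / 8 ≤ Real.log (1 + (n : ℝ) ^ 6) := by linarith
    nlinarith
  have k0 := hTAIL n μ inferInstance B hB hd L t (1 / n) (by positivity) ht htail
  have k1 := hCOP n μ inferInstance B hB hd Q hQ0
  have k2 := small_union hD hI hE hQ hσ hσθ hc hS h μ hB hd hL0 hA s1 (by omega) hs
  have k3 := large_union hD hI hE hQ hσ hσθ hc hS h μ hB hd hL0 hLn s1 hs1 h12
  have k4 := tre_bound hT hI hE hQ hTRI hσ hσθ hc hS h μ hB hd hL0 hLn hA hA1 s1 (by omega) hs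
    hAn hbig
  have hq1 : Real.exp (-lam σ θ) < 1 := by rw [Real.exp_lt_one_iff]; linarith
  have hsub : {x : Fin (n + 1) → ℂ | ¬ ((TT n x).natDegree = n ∧ Hyperbolic (TT n x) Q)} ⊆
      (({x : Fin (n + 1) → ℂ | (∃ k, L < ‖x k‖) ∨ ‖x (Fin.last n)‖ ≤ 1 / n} ∪
        {x : Fin (n + 1) → ℂ | ¬ IsCoprime (TT n x) Q}) ∪
        (DR n Q L 0 (rad n s1) A ∪ DR n Q L (rad n s1) ((n : ℝ) ^ 3) ((n : ℝ) ^ 3))) ∪
        TR n Q L (rad n s1) A ((n : ℝ) ^ 3)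
        (fun r => (n : ℝ) ^ 3 * (M0 * c * KK n r ^ (σ * θ / 2))) := by
    intro x hx
    by_contra hcon
    simp only [Set.mem_union, Set.mem_ofPred_eq, not_or] at hcon
    obtain ⟨⟨⟨h1, h2⟩, h3, h4⟩, h5⟩ := hcon
    rw [not_not] at h2
    exact hx (core_incl hQ hDYN hESC hσ hc hS h hQ0 hn4 hm2 h8 hL s1 x (by
      rw [not_or]; exact h1) h2 h3 h4 h5)
  refine (measure_mono hsub).trans ?_
  refine (measure_union_le _ _).trans ?_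
  have p0 : 0 ≤ (n + 1) * t + B * (Real.pi * (1 / (n : ℝ)) ^ 2) := by
    have := Real.pi_pos
    positivity
  have p1 : 0 ≤ C1 * (B ^ 2 * A ^ 2 * (L + A * M0) ^ 2 * (M0 ^ 2 * c ^ 4)) * Lam (lam σ θ) := by
    have := C1_pos
    have := Lam_pos hσθ
    positivity
  have p2 : 0 ≤ C2 * (B ^ 2 * (M0 ^ 4 * c ^ 4)) * (n : ℝ) ^ 33 *
        (Real.exp (-lam σ θ * s1) / (1 - Real.exp (-lam σ θ))) := by
    have := C2_pos
    have : 0 < 1 - Real.exp (-lam σ θ) := by linarith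
    positivity
  have p3 : 0 ≤ C3 * B ^ 3 * (M0 ^ 2 * c ^ 2) ^ 3 * (n : ℝ) ^ 21 * Real.exp (2 * (s1 + 1)) *
        KK n (A / 2) ^ (-(1 - σ * θ)) := by
    have := C3_pos
    have := KK_pos n (A / 2)
    positivity
  rw [ENNReal.ofReal_add (by positivity) p3, ENNReal.ofReal_add (by positivity) p2,
    ENNReal.ofReal_add p0 p1]
  refine add_le_add ?_ k4
  refine (measure_union_le _ _).trans ?_
  rw [add_assoc]
  refine add_le_add ?_ ?_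
  · refine (measure_union_le _ _).trans ?_
    rw [k1, add_zero]
    exact k0
  · exact (measure_union_le _ _).trans (add_le_add k2 k3)

end Pool.Agent.TH642.RC.M
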