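import Mathlib

set_option autoImplicit false

/-!
# Random numerators (MP_8f2e1c_an): definitions and statements of the parts

`P = ∑ x_k √C(n,k) z^k` with independent coefficients `x_k`, and an arbitrary denominator `Q`.
-/

open MeasureTheory Polynomial Filter Topology

namespace Pool.Agent.TH642.RC

/-- the weights `√C(n,k)` -/
noncomputable def bw (n k : ℕ) : ℝ := √(n.choose k : ℝ)

/-- `K_n(r) = (1 + r²)^n` -/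
noncomputable def KK (n : ℕ) (r : ℝ) : ℝ := (1 + r ^ 2) ^ n

/-- the polynomial `∑ x_k √C(n,k) z^k` -/
noncomputable def TT (n : ℕ) (x : Fin (n + 1) → ℂ) : ℂ[X] :=
  ∑ k : Fin (n + 1), C (x k * (bw n k : ℂ)) * X ^ (k : ℕ)

/-- `μ` has density at most `B`. -/
def Dens (B : ℝ) (μ : Measure ℂ) : Prop := μ ≤ ENNReal.ofReal B • (volume : Measure ℂ)

/-- **STEP** (one coordinate at a time). `c` and `G` do not depend on the coordinate `i`. -/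
def S_STEP : Prop :=
  ∀ (N : ℕ) (μ : Fin N → Measure ℂ) (_ : ∀ i, IsProbabilityMeasure (μ i)) (B : ℝ), 0 ≤ B →
    (∀ i, Dens B (μ i)) → ∀ (i : Fin N) (c : (Fin N → ℂ) → ℂ), Measurable c →
    (∀ x a, c (Function.update x i a) = c x) → ∀ (ρ : ℝ), 0 ≤ ρ →
    ∀ (G : (Fin N → ℂ) → ENNReal), Measurable G → (∀ x a, G (Function.update x i a) = G x) →
    ∫⁻ x, (Set.indicator {x : Fin N → ℂ | ‖x i - c x‖ ≤ ρ} (fun _ => 1) x) * G x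
        ∂(Measure.pi μ) ≤
      ENNReal.ofReal (B * (Real.pi * ρ ^ 2)) * ∫⁻ x, G x ∂(Measure.pi μ)

/-- **SB2** two affine forms -/
def S_SB2 : Prop :=
  ∀ (N : ℕ) (μ : Fin N → Measure ℂ) (_ : ∀ i, IsProbabilityMeasure (μ i)) (B : ℝ), 0 ≤ B →
    (∀ i, Dens B (μ i)) → ∀ (p q : Fin N → ℂ) (u w : ℂ) (i j : Fin N), i ≠ j → p i ≠ 0 →
    p i * q j - p j * q i ≠ 0 → ∀ α β : ℝ, 0 ≤ α → 0 ≤ β →
    Measure.pi μ {x | ‖∑ k, p k * x k + u‖ ≤ α ∧ ‖∑ k, q k * x k + w‖ ≤ β} ≤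
      ENNReal.ofReal ((B * (Real.pi * (α / ‖p i‖) ^ 2)) *
        (B * (Real.pi * ((‖p i‖ * β + ‖q i‖ * α) / ‖p i * q j - p j * q i‖) ^ 2)))

/-- **SB3** three affine forms; `s - l₁ p - l₂ q` vanishes at `i` and `j`, not at `l` -/
def S_SB3 : Prop :=
  ∀ (N : ℕ) (μ : Fin N → Measure ℂ) (_ : ∀ i, IsProbabilityMeasure (μ i)) (B : ℝ), 0 ≤ B →
    (∀ i, Dens B (μ i)) → ∀ (p q s : Fin N → ℂ) (u w y l₁ l₂ : ℂ) (i j l : Fin N),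
    i ≠ j → i ≠ l → j ≠ l → p i ≠ 0 → q i = 0 → q j ≠ 0 →
    s i = l₁ * p i → s j = l₁ * p j + l₂ * q j → s l - l₁ * p l - l₂ * q l ≠ 0 →
    ∀ α β γ : ℝ, 0 ≤ α → 0 ≤ β → 0 ≤ γ →
    Measure.pi μ {x | ‖∑ k, p k * x k + u‖ ≤ α ∧ ‖∑ k, q k * x k + w‖ ≤ β ∧
        ‖∑ k, s k * x k + y‖ ≤ γ} ≤
      ENNReal.ofReal ((B * (Real.pi * (α / ‖p i‖) ^ 2)) * (B * (Real.pi * (β / ‖q j‖) ^ 2)) *
        (B * (Real.pi * ((γ + ‖l₁‖ * α + ‖l₂‖ * β) / ‖s l - l₁ * p l - l₂ * q l‖) ^ 2)))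

/-- **NET** -/
def S_NET : Prop :=
  ∀ (ρ δ : ℝ), 0 ≤ ρ → 0 < δ → ∃ Z : Finset ℂ, (Z.card : ℝ) ≤ (2 * ρ / δ + 3) ^ 2 ∧
    ∀ z : ℂ, ‖z‖ ≤ ρ → ∃ z₀ ∈ Z, ‖z - z₀‖ ≤ δ

/-- **SUM** bounds for `∑ √C(n,k) r^k` and its first two derivatives -/
def S_SUM : Prop :=
  ∀ σ : ℝ, 1 < σ → ∃ c : ℝ, 1 ≤ c ∧ ∀ (n : ℕ) (r : ℝ), 0 ≤ r →
    (∑ k ∈ Finset.range (n + 1), bw n k * r ^ k ≤ c * KK n r ^ (σ / 2)) ∧
    (∑ k ∈ Finset.range (n + 1), k * bw n k * r ^ (k - 1) ≤ c * n * KK n r ^ (σ / 2)) ∧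
    (∑ k ∈ Finset.range (n + 1), k * (k - 1) * bw n k * r ^ (k - 2) ≤ c * n * KK n r ^ (σ / 2))

/-- **IND** choice of an index, `C(n,i) r^(2i)` being large; the second part is sharp for small
`n r²` -/
def S_IND : Prop :=
  ∀ (n : ℕ) (r : ℝ), 0 ≤ r →
    (∃ i ≤ n, KK n r ≤ (n + 1) * ((n.choose i : ℝ) * r ^ (2 * i))) ∧
    (∃ i ≤ n, (i : ℝ) ≤ 2 * (n * r ^ 2) ∧
      KK n r ≤ 2 * (2 * (n * r ^ 2) + 1) * ((n.choose i : ℝ) * r ^ (2 * i)))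

/-- **EVAL** values of `TT` and of its first two derivatives as linear forms in `x`, and bounds -/
def S_EVAL : Prop :=
  ∀ (n : ℕ) (x : Fin (n + 1) → ℂ) (z : ℂ),
    (TT n x).eval z = ∑ k : Fin (n + 1), ((bw n k : ℂ) * z ^ (k : ℕ)) * x k ∧
    (derivative (TT n x)).eval z =
      ∑ k : Fin (n + 1), (((k : ℕ) : ℂ) * (bw n k : ℂ) * z ^ ((k : ℕ) - 1)) * x k ∧
    ∀ L : ℝ, (∀ k, ‖x k‖ ≤ L) →
      ‖(TT n x).eval z‖ ≤ L * ∑ k ∈ Finset.range (n + 1), bw n k * ‖z‖ ^ k ∧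
      ‖(derivative (TT n x)).eval z‖ ≤
        L * ∑ k ∈ Finset.range (n + 1), k * bw n k * ‖z‖ ^ (k - 1) ∧
      ‖(derivative (derivative (TT n x))).eval z‖ ≤
        L * ∑ k ∈ Finset.range (n + 1), k * (k - 1) * bw n k * ‖z‖ ^ (k - 2)

/-- **QB** the same bounds for the denominator -/
def S_QB : Prop :=
  ∀ (m : ℕ) (Q : ℂ[X]) (M : ℝ), Q.natDegree ≤ m → (∀ k, ‖Q.coeff k‖ ≤ M * bw m k) → ∀ z : ℂ,
    ‖Q.eval z‖ ≤ M * ∑ k ∈ Finset.range (m + 1), bw m k * ‖z‖ ^ k ∧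
    ‖(derivative Q).eval z‖ ≤ M * ∑ k ∈ Finset.range (m + 1), k * bw m k * ‖z‖ ^ (k - 1) ∧
    ‖(derivative (derivative Q)).eval z‖ ≤
      M * ∑ k ∈ Finset.range (m + 1), k * (k - 1) * bw m k * ‖z‖ ^ (k - 2)

/-- **TAY** a double root `z` of `P - v Q` makes `P - v₀ Q` and its derivative small near `z`. -/
def S_TAY : Prop :=
  ∀ (P Q : ℂ[X]) (z v z₀ v₀ : ℂ) (δ η M Qb Qb' V ρ : ℝ), 0 ≤ δ → 0 ≤ η → 0 ≤ M →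
    (∀ w : ℂ, ‖w‖ ≤ ρ → ‖(derivative (derivative P)).eval w‖ +
      V * ‖(derivative (derivative Q)).eval w‖ ≤ M) →
    (∀ w : ℂ, ‖w‖ ≤ ρ → ‖Q.eval w‖ ≤ Qb ∧ ‖(derivative Q).eval w‖ ≤ Qb') →
    ‖z‖ ≤ ρ → ‖z₀‖ ≤ ρ → ‖v‖ ≤ V → ‖z - z₀‖ ≤ δ → ‖v - v₀‖ ≤ η →
    P.eval z = v * Q.eval z → (derivative P).eval z = v * (derivative Q).eval z →
    ‖P.eval z₀ - v₀ * Q.eval z₀‖ ≤ δ ^ 2 * M + η * Qb ∧
    ‖(derivative P).eval z₀ - v₀ * (derivative Q).eval z₀‖ ≤ δ * M + η * Qb'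

/-- the double root event -/
def DR (n : ℕ) (Q : ℂ[X]) (L lo ρ V : ℝ) : Set (Fin (n + 1) → ℂ) :=
  {x | (∀ k, ‖x k‖ ≤ L) ∧ ∃ z v : ℂ, lo ≤ ‖z‖ ∧ ‖z‖ ≤ ρ ∧ ‖v‖ ≤ V ∧
    (TT n x).eval z = v * Q.eval z ∧ (derivative (TT n x)).eval z = v * (derivative Q).eval z}

/-- coefficients of the form `P(z)` -/
noncomputable def pf (n : ℕ) (z : ℂ) (k : Fin (n + 1)) : ℂ := (bw n k : ℂ) * z ^ (k : ℕ)

/-- coefficients of the form `P'(z)` -/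
noncomputable def qf (n : ℕ) (z : ℂ) (k : Fin (n + 1)) : ℂ :=
  ((k : ℕ) : ℂ) * (bw n k : ℂ) * z ^ ((k : ℕ) - 1)

/-- **DRB** probability of the double root event -/
def S_DRB : Prop :=
  ∀ (n : ℕ) (μ : Fin (n + 1) → Measure ℂ) (_ : ∀ i, IsProbabilityMeasure (μ i)) (B : ℝ), 0 ≤ B →
    (∀ i, Dens B (μ i)) → ∀ (Q : ℂ[X]) (L V lo lo' ρ ρ' M Qb S κ : ℝ),
    0 ≤ L → 0 < V → 0 < ρ → lo' < lo → ρ < ρ' → 0 < M → 0 < Qb → 0 ≤ S → 0 ≤ κ →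
    (∀ x : Fin (n + 1) → ℂ, (∀ k, ‖x k‖ ≤ L) → ∀ w : ℂ, ‖w‖ ≤ ρ' →
      ‖(derivative (derivative (TT n x))).eval w‖ +
        V * ‖(derivative (derivative Q)).eval w‖ ≤ M) →
    (∀ w : ℂ, ‖w‖ ≤ ρ' → ‖Q.eval w‖ ≤ Qb) →
    (∀ z : ℂ, lo' ≤ ‖z‖ → ‖z‖ ≤ ρ' → ∃ i j : Fin (n + 1), i ≠ j ∧ pf n z i ≠ 0 ∧
      ‖qf n z i‖ ≤ κ * ‖pf n z i‖ ∧
      1 ≤ S * ‖pf n z i * qf n z j - pf n z j * qf n z i‖ ^ 2) →
    Measure.pi μ (DR n Q L lo ρ V) ≤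
      ENNReal.ofReal (100000 * B ^ 2 * ρ ^ 2 * V ^ 2 * Qb ^ 2 * M ^ 2 * S)

/-- the double root event with the image point being mapped to a small value -/
def TR (n : ℕ) (Q : ℂ[X]) (L ρ A V : ℝ) (g : ℝ → ℝ) : Set (Fin (n + 1) → ℂ) :=
  {x | (∀ k, ‖x k‖ ≤ L) ∧ ∃ z v : ℂ, ‖z‖ ≤ ρ ∧ A ≤ ‖v‖ ∧ ‖v‖ ≤ V ∧
    (TT n x).eval z = v * Q.eval z ∧ (derivative (TT n x)).eval z = v * (derivative Q).eval z ∧
    ‖(TT n x).eval v‖ ≤ g ‖v‖}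

/-- **TRB** probability of this event -/
def S_TRB : Prop :=
  ∀ (n : ℕ), 2 ≤ n → ∀ (μ : Fin (n + 1) → Measure ℂ) (_ : ∀ i, IsProbabilityMeasure (μ i)) (B : ℝ),
    0 ≤ B → (∀ i, Dens B (μ i)) → ∀ (Q : ℂ[X]) (L V A A' V' ρ ρ' M Qb S : ℝ) (g : ℝ → ℝ),
    0 ≤ L → 0 < ρ → 0 < A' → A' < A → A ≤ V → V < V' → ρ < ρ' → 0 < M → 0 < Qb → 0 ≤ S →
    Continuous g → (∀ r, 1 ≤ g r) →
    (∀ x : Fin (n + 1) → ℂ, (∀ k, ‖x k‖ ≤ L) → ∀ w : ℂ, ‖w‖ ≤ ρ' →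
      ‖(derivative (derivative (TT n x))).eval w‖ +
        V * ‖(derivative (derivative Q)).eval w‖ ≤ M) →
    (∀ w : ℂ, ‖w‖ ≤ ρ' → ‖Q.eval w‖ ≤ Qb) →
    (∀ z v : ℂ, ‖z‖ ≤ ρ' → A' ≤ ‖v‖ → ‖v‖ ≤ V' → ∃ l : ℕ, 2 ≤ l ∧ l ≤ n ∧
      g ‖v‖ ^ 2 ≤ S * (bw n l * ‖v ^ l - z ^ l - l * z ^ (l - 1) * (v - z)‖) ^ 2) →
    Measure.pi μ (TR n Q L ρ A V g) ≤
      ENNReal.ofReal (10000000 * B ^ 3 * ρ ^ 2 * V ^ 2 * Qb ^ 2 * M ^ 2 * S)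

/-- `P / Q` is in lowest terms, `∞` is an attracting fixed point of the map `f` it induces on the
Riemann sphere, and every critical point of `f` (point where `f` is not locally injective) is
attracted by `∞`. -/
def Hyperbolic (P Q : Polynomial ℂ) : Prop :=
  IsCoprime P Q ∧ ∃ f : OnePoint ℂ → OnePoint ℂ, Continuous f ∧
    (∀ z : ℂ, Q.eval z ≠ 0 →
      f (OnePoint.some z) = OnePoint.some (P.eval z / Q.eval z)) ∧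
    f OnePoint.infty = OnePoint.infty ∧
    (∃ U ∈ nhds (OnePoint.infty : OnePoint ℂ), ∀ w ∈ U,
      Filter.Tendsto (fun k : ℕ => f^[k] w) Filter.atTop (nhds OnePoint.infty)) ∧
    ∀ c : OnePoint ℂ, (¬ ∃ U ∈ nhds c, Set.InjOn f U) →
      Filter.Tendsto (fun k : ℕ => f^[k] c) Filter.atTop (nhds OnePoint.infty)

/-- **DYN** the dynamics: if the critical points are far out after one or two steps, the map is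
hyperbolic. -/
def S_DYN : Prop :=
  ∀ (P Q : ℂ[X]) (R : ℝ), IsCoprime P Q → Q ≠ 0 → Q.natDegree + 2 ≤ P.natDegree → 0 < R →
    (∀ z : ℂ, R ≤ ‖z‖ → 2 * ‖z‖ * ‖Q.eval z‖ ≤ ‖P.eval z‖) →
    (∀ c : ℂ, Q.eval c ≠ 0 →
      (derivative P).eval c * Q.eval c = P.eval c * (derivative Q).eval c →
      R ≤ ‖P.eval c / Q.eval c‖ ∨ Q.eval (P.eval c / Q.eval c) = 0 ∨
        R ≤ ‖P.eval (P.eval c / Q.eval c) / Q.eval (P.eval c / Q.eval c)‖) →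
    Hyperbolic P Q

/-- **TAIL** the large and the small coefficients -/
def S_TAIL : Prop :=
  ∀ (N : ℕ) (μ : Fin (N + 1) → Measure ℂ) (_ : ∀ i, IsProbabilityMeasure (μ i)) (B : ℝ), 0 ≤ B →
    (∀ i, Dens B (μ i)) → ∀ (L t δ : ℝ), 0 ≤ δ → 0 ≤ t →
    (∀ i, μ i {y | L < ‖y‖} ≤ ENNReal.ofReal t) →
    Measure.pi μ {x : Fin (N + 1) → ℂ | (∃ k, L < ‖x k‖) ∨ ‖x (Fin.last N)‖ ≤ δ} ≤
      ENNReal.ofReal ((N + 1) * t + B * (Real.pi * δ ^ 2))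

/-- **COP** `P` and `Q` have no common zero, almost surely -/
def S_COP : Prop :=
  ∀ (n : ℕ) (μ : Fin (n + 1) → Measure ℂ) (_ : ∀ i, IsProbabilityMeasure (μ i)) (B : ℝ), 0 ≤ B →
    (∀ i, Dens B (μ i)) → ∀ Q : ℂ[X], Q ≠ 0 →
    Measure.pi μ {x : Fin (n + 1) → ℂ | ¬ IsCoprime (TT n x) Q} = 0

/-- **ESC** growth near infinity -/
def S_ESC : Prop :=
  ∀ (n m : ℕ) (x : Fin (n + 1) → ℂ) (Q : ℂ[X]) (M : ℝ), 4 ≤ n → m + 2 ≤ n → 1 ≤ M →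
    8 * M ≤ n → Q.natDegree ≤ m → (∀ k, ‖Q.coeff k‖ ≤ M * bw m k) →
    (∀ k, ‖x k‖ ≤ √n) → 1 / n ≤ ‖x (Fin.last n)‖ →
    (TT n x).natDegree = n ∧
    ∀ z : ℂ, (n : ℝ) ^ 3 ≤ ‖z‖ → 2 * ‖z‖ * ‖Q.eval z‖ ≤ ‖(TT n x).eval z‖

/-- **TRI** the determinant of the three forms -/
def S_TRI : Prop :=
  ∀ (l : ℕ) (z v : ℂ), 2 ≤ l → 10 * ‖z‖ ≤ ‖v‖ →
    ‖v‖ ^ l ≤ 2 * ‖v ^ l - z ^ l - l * z ^ (l - 1) * (v - z)‖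

end Pool.Agent.TH642.RC
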