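import Pool.Agent.TH642.RC.Defs

set_option autoImplicit false

/-!
# RC-DRB: probability of the double root event (job 1329)
-/

open MeasureTheory Polynomial Filter Topology

namespace Pool.Agent.TH642.RC

/-- union bound over two nets -/
theorem union_bound {Ω : Type*} [MeasurableSpace Ω] (μ : Measure Ω) (E : Set Ω)
    (Z₁ Z₂ : Finset ℂ) (F : ℂ → ℂ → Set Ω) (good : ℂ → ℂ → Prop) (c : ℝ) (hc : 0 ≤ c)
    (hcov : ∀ x ∈ E, ∃ z ∈ Z₁, ∃ v ∈ Z₂, good z v ∧ x ∈ F z v)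
    (hF : ∀ z v, good z v → μ (F z v) ≤ ENNReal.ofReal c) :
    μ E ≤ ENNReal.ofReal (Z₁.card * Z₂.card * c) := by
  have h1 : E ⊆ ⋃ z ∈ Z₁, ⋃ v ∈ Z₂, {x | good z v ∧ x ∈ F z v} := by
    intro x hx
    obtain ⟨z, hz, v, hv, h2, h3⟩ := hcov x hx
    simp only [Set.mem_iUnion]
    exact ⟨z, hz, v, hv, h2, h3⟩
  have h2 : ∀ z v, μ {x | good z v ∧ x ∈ F z v} ≤ ENNReal.ofReal c := by
    intro z v
    by_cases hg : good z v
    · exact (measure_mono (fun x hx => hx.2)).trans (hF z v hg)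
    · have : {x | good z v ∧ x ∈ F z v} = ∅ := by
        ext x
        simp [hg]
      rw [this, measure_empty]
      exact zero_le
  calc μ E ≤ μ (⋃ z ∈ Z₁, ⋃ v ∈ Z₂, {x | good z v ∧ x ∈ F z v}) := measure_mono h1
    _ ≤ ∑ z ∈ Z₁, μ (⋃ v ∈ Z₂, {x | good z v ∧ x ∈ F z v}) := measure_biUnion_finset_le _ _
    _ ≤ ∑ z ∈ Z₁, ∑ v ∈ Z₂, μ {x | good z v ∧ x ∈ F z v} :=
        Finset.sum_le_sum fun z _ => measure_biUnion_finset_le _ _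
    _ ≤ ∑ _z ∈ Z₁, ∑ _v ∈ Z₂, ENNReal.ofReal c :=
        Finset.sum_le_sum fun z _ => Finset.sum_le_sum fun v _ => h2 z v
    _ = ENNReal.ofReal (Z₁.card * Z₂.card * c) := by
        rw [Finset.sum_const, Finset.sum_const, nsmul_eq_mul, nsmul_eq_mul, ← mul_assoc,
          ENNReal.ofReal_mul (by positivity), ENNReal.ofReal_mul (by positivity),
          ENNReal.ofReal_natCast, ENNReal.ofReal_natCast]

/-- a condition which holds for all small `δ` -/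
theorem ev_lt {f : ℝ → ℝ} (hf : Continuous f) {c : ℝ} (h : f 0 < c) :
    ∀ᶠ δ in 𝓝[>] (0 : ℝ), f δ ≤ c := by
  have h1 : ∀ᶠ δ in 𝓝 (0 : ℝ), f δ < c := hf.continuousAt.eventually_lt_const h
  filter_upwards [h1.filter_mono nhdsWithin_le_nhds] with δ hδ
  exact hδ.le

/-- bound for a polynomial on a disc -/
theorem exists_bound (Q : ℂ[X]) (ρ : ℝ) : ∃ b : ℝ, 0 ≤ b ∧ ∀ w : ℂ, ‖w‖ ≤ ρ → ‖Q.eval w‖ ≤ b := by
  have hc : IsCompact (Metric.closedBall (0 : ℂ) ρ) := isCompact_closedBall 0 ρ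
  obtain ⟨b, hb⟩ := hc.exists_bound_of_continuousOn (f := fun w => Q.eval w)
    Q.continuous.continuousOn
  refine ⟨max b 0, le_max_right _ _, fun w hw => ?_⟩
  refine (hb w ?_).trans (le_max_left _ _)
  rw [mem_closedBall_zero_iff]; exact hw

theorem card_net {r d : ℝ} (hr : 0 < r) (hd : 0 < d) (hdr : d ≤ r / 3) {Z : Finset ℂ}
    (hZ : (Z.card : ℝ) ≤ (2 * r / d + 3) ^ 2) : (Z.card : ℝ) ≤ 9 * r ^ 2 / d ^ 2 := by
  have h1 : 3 ≤ r / d := by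
    rw [le_div_iff₀ hd]; linarith
  calc (Z.card : ℝ) ≤ (2 * r / d + 3) ^ 2 := hZ
    _ ≤ (3 * (r / d)) ^ 2 := by
        apply pow_le_pow_left₀ (by positivity)
        have : 2 * r / d = 2 * (r / d) := by ring
        rw [this]; linarith
    _ = 9 * r ^ 2 / d ^ 2 := by rw [mul_pow, div_pow]; ring

theorem drb (h1 : S_SB2) (h2 : S_NET) (h3 : S_TAY) (h4 : S_EVAL) : S_DRB := by
  intro n μ hμ B hB hdens Q L V lo lo' ρ ρ' M Qb S κ hL hV hρ hlo hρρ hM hQb hS hκ hH2 hHQ hHD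
  obtain ⟨Qb', hQb'0, hQb'⟩ := exists_bound (derivative Q) ρ'
  -- choice of `δ`
  have e1 := ev_lt (f := fun δ => δ) (by fun_prop) (c := ρ' - ρ) (by simpa using hρρ)
  have e2 := ev_lt (f := fun δ => δ) (by fun_prop) (c := lo - lo') (by simpa using hlo)
  have e3 := ev_lt (f := fun δ => δ) (by fun_prop) (c := ρ / 3) (by show (0 : ℝ) < ρ / 3; positivity)
  have e4 := ev_lt (f := fun δ => κ * δ) (by fun_prop) (c := 1) (by simp)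
  have e5 := ev_lt (f := fun δ => δ * Qb') (by fun_prop) (c := Qb) (by simpa using hQb)
  have e6 := ev_lt (f := fun δ => δ ^ 2 * M / Qb) (by fun_prop) (c := V / 3) (by
    show (0 : ℝ) ^ 2 * M / Qb < V / 3
    have : (0 : ℝ) ^ 2 * M / Qb = 0 := by simp
    rw [this]; positivity)
  obtain ⟨δ, ⟨c1, c2, c3, c4, c5, c6⟩, hδ⟩ :=
    ((e1.and (e2.and (e3.and (e4.and (e5.and e6))))).and self_mem_nhdsWithin).exists
  have hδ : 0 < δ := hδ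
  set η : ℝ := δ ^ 2 * M / Qb with hη
  have hη0 : 0 < η := by positivity
  have hηQ : η * Qb = δ ^ 2 * M := by rw [hη]; field_simp
  obtain ⟨Z₁, hZ₁, hZ₁'⟩ := h2 ρ δ hρ.le hδ
  obtain ⟨Z₂, hZ₂, hZ₂'⟩ := h2 V η hV.le hη0
  have hc1 := card_net hρ hδ c3 hZ₁
  have hc2 := card_net hV hη0 c6 hZ₂
  -- the bound for one pair
  have hpair : ∀ z v : ℂ, (lo' ≤ ‖z‖ ∧ ‖z‖ ≤ ρ') → Measure.pi μ {x : Fin (n + 1) → ℂ |
      ‖∑ k, pf n z k * x k + -(v * Q.eval z)‖ ≤ 2 * δ ^ 2 * M ∧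
      ‖∑ k, qf n z k * x k + -(v * (derivative Q).eval z)‖ ≤ 2 * δ * M} ≤
      ENNReal.ofReal (64 * Real.pi ^ 2 * B ^ 2 * δ ^ 6 * M ^ 4 * S) := by
    intro z v hz
    obtain ⟨i, j, hij, hpi, hqi, hSD⟩ := hHD z hz.1 hz.2
    have hD0 : pf n z i * qf n z j - pf n z j * qf n z i ≠ 0 := by
      intro h0
      rw [h0, norm_zero] at hSD
      norm_num at hSD
    have hD : 0 < ‖pf n z i * qf n z j - pf n z j * qf n z i‖ := norm_pos_iff.2 hD0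
    have hp : 0 < ‖pf n z i‖ := norm_pos_iff.2 hpi
    refine (h1 (n + 1) μ hμ B hB hdens (pf n z) (qf n z) _ _ i j hij hpi hD0 _ _
      (by positivity) (by positivity)).trans (ENNReal.ofReal_le_ofReal ?_)
    set D : ℝ := ‖pf n z i * qf n z j - pf n z j * qf n z i‖ with hDd
    set P₀ : ℝ := ‖pf n z i‖ with hP₀
    set Q₀ : ℝ := ‖qf n z i‖ with hQ₀
    have hQ₀0 : 0 ≤ Q₀ := norm_nonneg _
    have h5 : P₀ * (2 * δ * M) + Q₀ * (2 * δ ^ 2 * M) ≤ P₀ * (4 * δ * M) := by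
      have : Q₀ * (2 * δ ^ 2 * M) ≤ (κ * P₀) * (2 * δ ^ 2 * M) := by gcongr
      have h6 : (κ * P₀) * (2 * δ ^ 2 * M) = (κ * δ) * (P₀ * (2 * δ * M)) := by ring
      have h7 : (κ * δ) * (P₀ * (2 * δ * M)) ≤ 1 * (P₀ * (2 * δ * M)) := by gcongr
      linarith
    have h8 : 1 / D ^ 2 ≤ S := by
      rw [div_le_iff₀ (by positivity)]; exact hSD
    calc (B * (Real.pi * (2 * δ ^ 2 * M / P₀) ^ 2)) *
          (B * (Real.pi * ((P₀ * (2 * δ * M) + Q₀ * (2 * δ ^ 2 * M)) / D) ^ 2))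
        ≤ (B * (Real.pi * (2 * δ ^ 2 * M / P₀) ^ 2)) *
          (B * (Real.pi * ((P₀ * (4 * δ * M)) / D) ^ 2)) := by gcongr
      _ = 64 * Real.pi ^ 2 * B ^ 2 * δ ^ 6 * M ^ 4 * (1 / D ^ 2) := by
          field_simp
          ring
      _ ≤ 64 * Real.pi ^ 2 * B ^ 2 * δ ^ 6 * M ^ 4 * S := by gcongr
  -- the cover
  have hcov : ∀ x ∈ DR n Q L lo ρ V, ∃ z₀ ∈ Z₁, ∃ v₀ ∈ Z₂, (lo' ≤ ‖z₀‖ ∧ ‖z₀‖ ≤ ρ') ∧
      x ∈ {x : Fin (n + 1) → ℂ |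
      ‖∑ k, pf n z₀ k * x k + -(v₀ * Q.eval z₀)‖ ≤ 2 * δ ^ 2 * M ∧
      ‖∑ k, qf n z₀ k * x k + -(v₀ * (derivative Q).eval z₀)‖ ≤ 2 * δ * M} := by
    rintro x ⟨hx, z, v, hz1, hz2, hv, hr1, hr2⟩
    obtain ⟨z₀, hz₀, hzz⟩ := hZ₁' z hz2
    obtain ⟨v₀, hv₀, hvv⟩ := hZ₂' v hv
    have hn1 : ‖z₀‖ ≤ ‖z‖ + δ := by
      have : z₀ = z - (z - z₀) := by ring
      calc ‖z₀‖ = ‖z - (z - z₀)‖ := by rw [← this]
        _ ≤ ‖z‖ + ‖z - z₀‖ := norm_sub_le _ _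
        _ ≤ _ := by linarith
    have hn2 : ‖z‖ ≤ ‖z₀‖ + δ := by
      calc ‖z‖ = ‖z₀ + (z - z₀)‖ := by ring_nf
        _ ≤ ‖z₀‖ + ‖z - z₀‖ := norm_add_le _ _
        _ ≤ _ := by linarith
    have hz₀ρ : ‖z₀‖ ≤ ρ' := by linarith
    have hz₀lo : lo' ≤ ‖z₀‖ := by linarith
    have ht := h3 (TT n x) Q z v z₀ v₀ δ η M Qb Qb' V ρ' hδ.le hη0.le hM.le
      (fun w hw => hH2 x hx w hw) (fun w hw => ⟨hHQ w hw, hQb' w hw⟩) (by linarith) hz₀ρ hv hzz hvv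
      hr1 hr2
    obtain ⟨ht1, ht2⟩ := ht
    obtain ⟨he1, he2, -⟩ := h4 n x z₀
    refine ⟨z₀, hz₀, v₀, hv₀, ⟨hz₀lo, hz₀ρ⟩, ?_, ?_⟩
    · show ‖∑ k : Fin (n + 1), ((bw n k : ℂ) * z₀ ^ (k : ℕ)) * x k + -(v₀ * Q.eval z₀)‖ ≤ 2 * δ ^ 2 * M
      rw [← he1, ← sub_eq_add_neg]
      refine ht1.trans (le_of_eq ?_)
      rw [hηQ]; ring
    · show ‖∑ k : Fin (n + 1), (((k : ℕ) : ℂ) * (bw n k : ℂ) * z₀ ^ ((k : ℕ) - 1)) * x k +
        -(v₀ * (derivative Q).eval z₀)‖ ≤ 2 * δ * M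
      rw [← he2, ← sub_eq_add_neg]
      refine ht2.trans ?_
      have : η * Qb' ≤ δ * M := by
        calc η * Qb' = (δ * Qb') * (δ * M) / Qb := by rw [hη]; ring
          _ ≤ Qb * (δ * M) / Qb := by gcongr
          _ = δ * M := by field_simp
      linarith
  refine (union_bound (Measure.pi μ) (DR n Q L lo ρ V) Z₁ Z₂ _ _ _ (by positivity) hcov
    hpair).trans (ENNReal.ofReal_le_ofReal ?_)
  have hpi : Real.pi ^ 2 ≤ 10 := by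
    have h9 := Real.pi_lt_d2
    have h10 := Real.pi_pos
    nlinarith
  calc (Z₁.card : ℝ) * Z₂.card * (64 * Real.pi ^ 2 * B ^ 2 * δ ^ 6 * M ^ 4 * S)
      ≤ (9 * ρ ^ 2 / δ ^ 2) * (9 * V ^ 2 / η ^ 2) *
        (64 * Real.pi ^ 2 * B ^ 2 * δ ^ 6 * M ^ 4 * S) := by gcongr
    _ = 5184 * Real.pi ^ 2 * (B ^ 2 * ρ ^ 2 * V ^ 2 * Qb ^ 2 * M ^ 2 * S) := by
        rw [hη]
        field_simp
        ring
    _ ≤ 5184 * 10 * (B ^ 2 * ρ ^ 2 * V ^ 2 * Qb ^ 2 * M ^ 2 * S) := by gcongr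
    _ ≤ 100000 * B ^ 2 * ρ ^ 2 * V ^ 2 * Qb ^ 2 * M ^ 2 * S := by
        have : 0 ≤ B ^ 2 * ρ ^ 2 * V ^ 2 * Qb ^ 2 * M ^ 2 * S := by positivity
        linarith

end Pool.Agent.TH642.RC
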