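import Pool.Agent.TH642.RC.Defs
import Pool.Agent.H462R2.AP1
import Pool.Agent.H762R2.RtC

set_option autoImplicit false

open Polynomial Filter Topology
open scoped OnePoint

namespace Pool.Agent.TH642.RC

open Pool.Agent.H762R2.Rt Pool.Agent.H462R2.AP
open Pool.Agent.Helper114.Herman Pool.Agent.Helper114.Konig

theorem dyn : S_DYN := by
  intro P Q R hcop hQ0 hdeg hR hfar hcrit
  obtain ⟨f, hf, hinf⟩ := exists_isRat hcop hQ0
  have hfi : f ∞ = ∞ := hinf (by omega)
  have hd0 : 0 < P.natDegree := by omega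
  have hdmax : P.natDegree = max P.natDegree Q.natDegree := by
    rw [max_eq_left (by omega)]
  have hfe : ∀ z : ℂ, Q.eval z ≠ 0 → f (z : OnePoint ℂ) = ((P.eval z / Q.eval z : ℂ) : OnePoint ℂ) :=
    hf.eval
  have hpole : ∀ w : ℂ, Q.eval w = 0 → f (w : OnePoint ℂ) = ∞ := by
    intro w hw
    have h1 : f (pr w 1) = pr (hom P P.natDegree w 1) (hom Q P.natDegree w 1) :=
      rat_formula hf hdmax hd0 (Or.inr one_ne_zero)
    rw [pr_one, hom_ne (by omega : Q.natDegree ≤ P.natDegree) one_ne_zero] at h1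
    simp only [div_one, hw, mul_zero] at h1
    rw [h1, pr_zero]
  -- far points
  have hstep : ∀ z : ℂ, R ≤ ‖z‖ → f (z : OnePoint ℂ) = ∞ ∨
      ∃ z' : ℂ, f (z : OnePoint ℂ) = (z' : OnePoint ℂ) ∧ 2 * ‖z‖ ≤ ‖z'‖ := by
    intro z hz
    by_cases h1 : Q.eval z = 0
    · exact Or.inl (hpole z h1)
    · refine Or.inr ⟨P.eval z / Q.eval z, hfe z h1, ?_⟩
      rw [norm_div, le_div_iff₀ (norm_pos_iff.2 h1)]
      exact hfar z hz
  have hiinf : ∀ k : ℕ, f^[k] (∞ : OnePoint ℂ) = ∞ := fun k =>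
    Function.iterate_fixed hfi k
  have hiter : ∀ (z : ℂ), R ≤ ‖z‖ → ∀ k : ℕ, f^[k] (z : OnePoint ℂ) = ∞ ∨
      ∃ z' : ℂ, f^[k] (z : OnePoint ℂ) = (z' : OnePoint ℂ) ∧ 2 ^ k * R ≤ ‖z'‖ := by
    intro z hz k
    induction k with
    | zero => exact Or.inr ⟨z, rfl, by simpa using hz⟩
    | succ k ih =>
      rcases ih with ih | ⟨z', h1, h2⟩
      · left
        rw [Function.iterate_succ_apply', ih, hfi]
      · have h3 : R ≤ ‖z'‖ := by
          have : (1 : ℝ) ≤ 2 ^ k := one_le_pow₀ (by norm_num)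
          nlinarith
        rcases hstep z' h3 with h4 | ⟨z'', h4, h5⟩
        · left
          rw [Function.iterate_succ_apply', h1, h4]
        · right
          refine ⟨z'', by rw [Function.iterate_succ_apply', h1, h4], ?_⟩
          rw [pow_succ]
          linarith
  have htend : ∀ z : ℂ, R ≤ ‖z‖ →
      Tendsto (fun k : ℕ => f^[k] (z : OnePoint ℂ)) atTop (𝓝 ∞) := by
    intro z hz
    intro U hU
    rw [OnePoint.nhds_infty_eq, Filter.mem_sup] at hU
    obtain ⟨hU1, hU2⟩ := hU
    rw [Filter.mem_map, coclosedCompact_eq_cocompact, ← Metric.cobounded_eq_cocompact] at hU1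
    rw [← Metric.comap_dist_right_atTop (0 : ℂ)] at hU1
    rw [Filter.mem_comap] at hU1
    obtain ⟨t, ht, hts⟩ := hU1
    have hev : Tendsto (fun k : ℕ => (2 : ℝ) ^ k * R) atTop atTop :=
      (tendsto_pow_atTop_atTop_of_one_lt (by norm_num)).atTop_mul_const hR
    obtain ⟨ρ, hρ⟩ := Filter.mem_atTop_sets.1 ht
    rw [Filter.mem_map]
    filter_upwards [hev.eventually_ge_atTop ρ] with k hk
    rw [Set.mem_preimage]
    rcases hiter z hz k with h | ⟨z', h1, h2⟩
    · rw [h]; exact hU2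
    · rw [h1]
      apply hts
      apply hρ
      show ρ ≤ dist z' 0
      rw [dist_zero_right]
      exact hk.trans h2
  have htinf : Tendsto (fun k : ℕ => f^[k] (∞ : OnePoint ℂ)) atTop (𝓝 ∞) := by
    simp only [hiinf]
    exact tendsto_const_nhds
  have hnb : ∃ U ∈ 𝓝 (∞ : OnePoint ℂ), ∀ w ∈ U,
      Tendsto (fun k : ℕ => f^[k] w) atTop (𝓝 ∞) := by
    refine ⟨{w : OnePoint ℂ | ∀ z : ℂ, w = (z : OnePoint ℂ) → R ≤ ‖z‖}, ?_, ?_⟩
    · rw [OnePoint.nhds_infty_eq, Filter.mem_sup]
      constructor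
      · rw [Filter.mem_map, coclosedCompact_eq_cocompact, ← Metric.cobounded_eq_cocompact]
        have h1 : {z : ℂ | R ≤ ‖z‖} ∈ Bornology.cobounded ℂ := by
          have := tendsto_norm_cobounded_atTop (E := ℂ)
          exact this (Ici_mem_atTop R)
        filter_upwards [h1] with z hz z' hz'
        rw [OnePoint.coe_eq_coe] at hz'
        rw [← hz']; exact hz
      · rw [Filter.mem_pure]
        intro z hz
        exact absurd hz.symm (OnePoint.coe_ne_infty z)
    · intro w hw
      induction w using OnePoint.rec with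
      | infty => exact htinf
      | coe z => exact htend z (hw z rfl)
  have himg : ∀ w : OnePoint ℂ, Tendsto (fun k : ℕ => f^[k] (f w)) atTop (𝓝 ∞) →
      Tendsto (fun k : ℕ => f^[k] w) atTop (𝓝 ∞) := by
    intro w hw
    rw [← tendsto_add_atTop_iff_nat 1]
    simpa only [Function.iterate_succ_apply] using hw
  have hSpole : ∀ w : ℂ, Q.eval w = 0 →
      Tendsto (fun k : ℕ => f^[k] (w : OnePoint ℂ)) atTop (𝓝 ∞) := fun w hw =>
    himg _ (by rw [hpole w hw]; exact htinf)
  refine ⟨hcop, f, hf.cont, hfe, hfi, hnb, ?_⟩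
  intro c hnot
  induction c using OnePoint.rec with
  | infty => exact htinf
  | coe w =>
      by_cases hq : Q.eval w = 0
      · exact hSpole w hq
      by_cases hW : (derivative P).eval w * Q.eval w = P.eval w * (derivative Q).eval w
      · apply himg
        rw [hfe w hq]
        rcases hcrit w hq hW with h | h | h
        · exact htend _ h
        · exact hSpole _ h
        · by_cases hq2 : Q.eval (P.eval w / Q.eval w) = 0
          · exact hSpole _ hq2
          · apply himg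
            rw [hfe _ hq2]
            exact htend _ h
      exfalso
      apply hnot
      have hder := (P.hasStrictDerivAt w).fun_div (Q.hasStrictDerivAt w) hq
      have hne : (P.derivative.eval w * Q.eval w - P.eval w * Q.derivative.eval w) /
          (Q.eval w) ^ 2 ≠ 0 :=
        div_ne_zero (sub_ne_zero.2 hW) (pow_ne_zero _ hq)
      obtain ⟨U, hU, hinj⟩ := injOn_of_deriv hder hne
      have hUQ : {x : ℂ | Q.eval x ≠ 0} ∈ 𝓝 w :=
        (isOpen_ne_fun Q.continuous continuous_const).mem_nhds hq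
      refine ⟨(fun x : ℂ => (x : OnePoint ℂ)) '' (U ∩ {x : ℂ | Q.eval x ≠ 0}), ?_, ?_⟩
      · exact (OnePoint.isOpenEmbedding_coe (X := ℂ)).isOpenMap.image_mem_nhds
          (inter_mem hU hUQ)
      · rintro _ ⟨x, ⟨hx, hxQ⟩, rfl⟩ _ ⟨y, ⟨hy, hyQ⟩, rfl⟩ hxy
        simp only at hxy
        rw [hfe x hxQ, hfe y hyQ, OnePoint.coe_eq_coe] at hxy
        rw [hinj hx hy hxy]

end Pool.Agent.TH642.RC
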