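import Pool.Agent.TH642.RC.Defs

set_option autoImplicit false

open Polynomial

namespace Pool.Agent.TH642.RC

namespace Esc

lemma bw_le (n k : ℕ) (hk : k ≤ n) : bw n k ≤ √(n : ℝ) ^ (n - k) := by
  unfold bw
  have h1 : (n.choose k : ℝ) ≤ (n : ℝ) ^ (n - k) := by
    rw [← Nat.choose_symm hk]
    exact_mod_cast Nat.choose_le_pow n (n - k)
  calc √(n.choose k : ℝ) ≤ √((n : ℝ) ^ (n - k)) := Real.sqrt_le_sqrt h1
    _ = √(n : ℝ) ^ (n - k) := by
      rw [Real.sqrt_eq_iff_mul_self_eq (by positivity) (by positivity), ← mul_pow,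
        Real.mul_self_sqrt (by positivity)]

lemma geo (s r : ℝ) (hs : 0 ≤ s) (hr : 0 < r) (h : 32 * s ≤ r) (n : ℕ) :
    31 * (∑ k ∈ Finset.range n, s ^ (n - k) * r ^ k) * r ≤ 32 * s * r ^ n := by
  induction n with
  | zero => simp; positivity
  | succ n ih =>
    rw [Finset.sum_range_succ]
    have e : ∑ k ∈ Finset.range n, s ^ (n + 1 - k) * r ^ k =
        s * ∑ k ∈ Finset.range n, s ^ (n - k) * r ^ k := by
      rw [Finset.mul_sum]
      refine Finset.sum_congr rfl fun k hk => ?_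
      have hk' : k < n := Finset.mem_range.1 hk
      rw [show n + 1 - k = (n - k) + 1 by omega, pow_succ]
      ring
    rw [e, show n + 1 - n = 1 by omega, pow_one]
    have hrn : 0 < r ^ n := by positivity
    have h2 : 31 * (s * ∑ k ∈ Finset.range n, s ^ (n - k) * r ^ k) * r ≤ s * (32 * s * r ^ n) := by
      calc _ = s * (31 * (∑ k ∈ Finset.range n, s ^ (n - k) * r ^ k) * r) := by ring
        _ ≤ _ := mul_le_mul_of_nonneg_left ih hs
    have h3 : s * (32 * s * r ^ n) ≤ s * (r * r ^ n) := by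
      apply mul_le_mul_of_nonneg_left _ hs
      exact mul_le_mul_of_nonneg_right h hrn.le
    rw [pow_succ]
    nlinarith

lemma sum_lt (n : ℕ) (r : ℝ) (hr : 0 < r) (h : 32 * √(n : ℝ) ≤ r) :
    31 * (∑ k ∈ Finset.range n, bw n k * r ^ k) * r ≤ 32 * √(n : ℝ) * r ^ n := by
  refine le_trans ?_ (geo (√(n : ℝ)) r (Real.sqrt_nonneg _) hr h n)
  have : ∑ k ∈ Finset.range n, bw n k * r ^ k ≤ ∑ k ∈ Finset.range n, √(n : ℝ) ^ (n - k) * r ^ k := by
    refine Finset.sum_le_sum fun k hk => ?_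
    have hk' : k < n := Finset.mem_range.1 hk
    exact mul_le_mul_of_nonneg_right (bw_le n k hk'.le) (by positivity)
  have h31 : (0 : ℝ) ≤ 31 := by norm_num
  exact mul_le_mul_of_nonneg_right (mul_le_mul_of_nonneg_left this h31) hr.le

lemma bw_self (n : ℕ) : bw n n = 1 := by simp [bw]

lemma sum_le (n : ℕ) (r : ℝ) (hr : 0 < r) (h : 32 * √(n : ℝ) ≤ r) :
    ∑ k ∈ Finset.range (n + 1), bw n k * r ^ k ≤ 2 * r ^ n := by
  rw [Finset.sum_range_succ, bw_self, one_mul]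
  have h1 := sum_lt n r hr h
  have h2 : 32 * √(n : ℝ) * r ^ n ≤ r * r ^ n :=
    mul_le_mul_of_nonneg_right h (by positivity)
  have h3 : (31 * ∑ k ∈ Finset.range n, bw n k * r ^ k) * r ≤ r ^ n * r := by
    calc _ = 31 * (∑ k ∈ Finset.range n, bw n k * r ^ k) * r := by ring
      _ ≤ _ := h1
      _ ≤ _ := h2
      _ = _ := by ring
  have h4 := le_of_mul_le_mul_right h3 hr
  have h5 : 0 ≤ ∑ k ∈ Finset.range n, bw n k * r ^ k :=
    Finset.sum_nonneg fun k _ => mul_nonneg (Real.sqrt_nonneg _) (by positivity)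
  linarith

lemma eval_TT (n : ℕ) (x : Fin (n + 1) → ℂ) (z : ℂ) :
    (TT n x).eval z = ∑ k : Fin (n + 1), x k * (bw n k : ℂ) * z ^ (k : ℕ) := by
  simp [TT, eval_finsetSum]

lemma coeff_TT (n : ℕ) (x : Fin (n + 1) → ℂ) (k : Fin (n + 1)) :
    (TT n x).coeff k = x k * (bw n k : ℂ) := by
  simp only [TT, finsetSum_coeff, coeff_C_mul, coeff_X_pow]
  rw [Finset.sum_eq_single k]
  · simp
  · intro b _ hb
    have : (k : ℕ) ≠ (b : ℕ) := fun h => hb (Fin.ext h.symm)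
    simp [this]
  · simp

lemma natDegree_TT_le (n : ℕ) (x : Fin (n + 1) → ℂ) : (TT n x).natDegree ≤ n := by
  unfold TT
  refine natDegree_sum_le_of_forall_le _ _ fun k _ => ?_
  exact (natDegree_C_mul_X_pow_le _ _).trans (Nat.lt_succ_iff.1 k.2)

lemma natDegree_TT (n : ℕ) (x : Fin (n + 1) → ℂ) (h : x (Fin.last n) ≠ 0) :
    (TT n x).natDegree = n := by
  refine le_antisymm (natDegree_TT_le n x) (le_natDegree_of_ne_zero ?_)
  have := coeff_TT n x (Fin.last n)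
  rw [Fin.val_last, bw_self] at this
  rw [this]
  simpa using h

lemma lower (n : ℕ) (x : Fin (n + 1) → ℂ) (z : ℂ) (L : ℝ) (hL : ∀ k, ‖x k‖ ≤ L) :
    ‖x (Fin.last n)‖ * ‖z‖ ^ n - L * ∑ k ∈ Finset.range n, bw n k * ‖z‖ ^ k ≤
      ‖(TT n x).eval z‖ := by
  rw [eval_TT, Fin.sum_univ_castSucc]
  have h1 : ‖∑ k : Fin n, x k.castSucc * (bw n (k.castSucc : Fin (n+1)) : ℂ) *
      z ^ ((k.castSucc : Fin (n+1)) : ℕ)‖ ≤ L * ∑ k ∈ Finset.range n, bw n k * ‖z‖ ^ k := by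
    refine (norm_sum_le _ _).trans ?_
    rw [← Fin.sum_univ_eq_sum_range (fun k => bw n k * ‖z‖ ^ k), Finset.mul_sum]
    refine Finset.sum_le_sum fun k _ => ?_
    rw [norm_mul, norm_mul, norm_pow, Complex.norm_real,
      Real.norm_of_nonneg (show 0 ≤ bw n (k.castSucc : Fin (n + 1)) from Real.sqrt_nonneg _),
      mul_assoc]
    exact mul_le_mul_of_nonneg_right (hL _) (mul_nonneg (Real.sqrt_nonneg _) (by positivity))
  have h2 : ‖x (Fin.last n) * (bw n (Fin.last n : ℕ) : ℂ) * z ^ ((Fin.last n : Fin (n+1)) : ℕ)‖ =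
      ‖x (Fin.last n)‖ * ‖z‖ ^ n := by
    rw [Fin.val_last, bw_self]
    simp
  have h3 := norm_sub_le_norm_add (x (Fin.last n) * (bw n (Fin.last n : ℕ) : ℂ) *
    z ^ ((Fin.last n : Fin (n+1)) : ℕ)) (∑ k : Fin n, x k.castSucc *
      (bw n (k.castSucc : Fin (n+1)) : ℂ) * z ^ ((k.castSucc : Fin (n+1)) : ℕ))
  rw [h2] at h3
  rw [add_comm (∑ k : Fin n, x k.castSucc *
      (bw n (k.castSucc : Fin (n+1)) : ℂ) * z ^ ((k.castSucc : Fin (n+1)) : ℕ))]
  linarith

lemma upperQ (m : ℕ) (Q : ℂ[X]) (M : ℝ) (hd : Q.natDegree ≤ m) (hQ : ∀ k, ‖Q.coeff k‖ ≤ M * bw m k)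
    (z : ℂ) : ‖Q.eval z‖ ≤ M * ∑ k ∈ Finset.range (m + 1), bw m k * ‖z‖ ^ k := by
  rw [eval_eq_sum_range' (Nat.lt_succ_of_le hd), Finset.mul_sum]
  refine (norm_sum_le _ _).trans (Finset.sum_le_sum fun k _ => ?_)
  rw [norm_mul, norm_pow, ← mul_assoc]
  exact mul_le_mul_of_nonneg_right (hQ k) (by positivity)

end Esc

open Esc in
theorem esc : S_ESC := by
  intro n m x Q M hn hmn hM hMn hd hQ hx hlast
  have hn4 : (4 : ℝ) ≤ n := by exact_mod_cast hn
  have hn0 : (0 : ℝ) < n := by linarith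
  have hx0 : x (Fin.last n) ≠ 0 := by
    intro h
    rw [h, norm_zero] at hlast
    have : (0 : ℝ) < 1 / n := by positivity
    linarith
  refine ⟨natDegree_TT n x hx0, fun z hz => ?_⟩
  set r := ‖z‖ with hr
  have hs0 : 0 ≤ √(n : ℝ) := Real.sqrt_nonneg _
  have hss : √(n : ℝ) * √(n : ℝ) = n := Real.mul_self_sqrt hn0.le
  have hs2 : 2 ≤ √(n : ℝ) := by
    rw [show (2 : ℝ) = √(4 : ℝ) by
      rw [show (4 : ℝ) = 2 ^ 2 by norm_num, Real.sqrt_sq (by norm_num)]]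
    exact Real.sqrt_le_sqrt hn4
  -- `32 √n ≤ n^3 ≤ r`
  have hsn : √(n : ℝ) ≤ n / 2 := by nlinarith
  have h32 : 32 * √(n : ℝ) ≤ (n : ℝ) ^ 3 := by
    have : (16 : ℝ) ≤ (n : ℝ) ^ 2 := by nlinarith
    nlinarith
  have h32r : 32 * √(n : ℝ) ≤ r := h32.trans hz
  have hr0 : 0 < r := lt_of_lt_of_le (by positivity) hz
  have hrn : 0 < r ^ n := by positivity
  -- lower bound for P
  have h1 := lower n x z (√(n : ℝ)) hx
  rw [← hr] at h1
  have h2 := sum_lt n r hr0 h32r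
  set S := ∑ k ∈ Finset.range n, bw n k * r ^ k with hS
  have hP : r ^ n ≤ 2 * n * ‖(TT n x).eval z‖ := by
    -- `√n S r ≤ (32/31) n r^n`, `r ≥ n^3`
    have h3 : 31 * (√(n : ℝ) * S) * r ≤ 32 * n * r ^ n := by
      calc 31 * (√(n : ℝ) * S) * r = √(n : ℝ) * (31 * S * r) := by ring
        _ ≤ √(n : ℝ) * (32 * √(n : ℝ) * r ^ n) := mul_le_mul_of_nonneg_left h2 hs0
        _ = 32 * (√(n : ℝ) * √(n : ℝ)) * r ^ n := by ring
        _ = _ := by rw [hss]
    have hS0 : 0 ≤ √(n : ℝ) * S := mul_nonneg hs0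
      (Finset.sum_nonneg fun k _ => mul_nonneg (Real.sqrt_nonneg _) (by positivity))
    have h4 : 31 * (√(n : ℝ) * S) * (n : ℝ) ^ 3 ≤ 32 * n * r ^ n :=
      (mul_le_mul_of_nonneg_left hz (by positivity)).trans h3
    have h5 : 31 * (√(n : ℝ) * S) * (n : ℝ) ^ 2 ≤ 32 * r ^ n := by
      have : (31 * (√(n : ℝ) * S) * (n : ℝ) ^ 2) * n ≤ (32 * r ^ n) * n := by
        calc _ = 31 * (√(n : ℝ) * S) * (n : ℝ) ^ 3 := by ring
          _ ≤ _ := h4
          _ = _ := by ring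
      exact le_of_mul_le_mul_right this hn0
    have h6 : 31 * (√(n : ℝ) * S) * n * 4 ≤ 32 * r ^ n := by
      have : 31 * (√(n : ℝ) * S) * n * 4 ≤ 31 * (√(n : ℝ) * S) * (n : ℝ) ^ 2 := by
        calc _ = 31 * (√(n : ℝ) * S) * (n * 4) := by ring
          _ ≤ 31 * (√(n : ℝ) * S) * (n * n) := by
            apply mul_le_mul_of_nonneg_left _ (by positivity)
            exact mul_le_mul_of_nonneg_left hn4 hn0.le
          _ = _ := by ring
      linarith
    have h7 : r ^ n ≤ n * (‖x (Fin.last n)‖ * r ^ n) := by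
      have : 1 ≤ n * ‖x (Fin.last n)‖ := by
        have := mul_le_mul_of_nonneg_left hlast hn0.le
        rwa [mul_one_div_cancel hn0.ne'] at this
      calc r ^ n = 1 * r ^ n := (one_mul _).symm
        _ ≤ (n * ‖x (Fin.last n)‖) * r ^ n := mul_le_mul_of_nonneg_right this hrn.le
        _ = _ := by ring
    have h8 : n * (‖x (Fin.last n)‖ * r ^ n - √(n : ℝ) * S) ≤ n * ‖(TT n x).eval z‖ :=
      mul_le_mul_of_nonneg_left h1 hn0.le
    nlinarith
  -- upper bound for Q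
  have hmn' : (m : ℝ) ≤ n := by exact_mod_cast (by omega : m ≤ n)
  have h32m : 32 * √(m : ℝ) ≤ r := by
    have := Real.sqrt_le_sqrt hmn'
    linarith
  have hQ2 : ‖Q.eval z‖ ≤ M * (2 * r ^ m) :=
    (upperQ m Q M hd hQ z).trans
      (mul_le_mul_of_nonneg_left (sum_le m r hr0 h32m) (by linarith))
  -- conclusion
  have h9 : 8 * M * n * r ^ (m + 1) ≤ r ^ n := by
    have e : n = (m + 1) + (n - m - 1) := by omega
    have h10 : r ≤ r ^ (n - m - 1) := by
      have h1r : 1 ≤ r := by nlinarith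
      calc r = r ^ 1 := (pow_one r).symm
        _ ≤ r ^ (n - m - 1) := pow_le_pow_right₀ h1r (by omega)
    have h11 : 8 * M * n ≤ r ^ (n - m - 1) := by
      refine le_trans ?_ (hz.trans h10)
      have : 8 * M * n ≤ n * n := mul_le_mul_of_nonneg_right hMn hn0.le
      nlinarith
    calc 8 * M * n * r ^ (m + 1) ≤ r ^ (n - m - 1) * r ^ (m + 1) :=
          mul_le_mul_of_nonneg_right h11 (by positivity)
      _ = r ^ n := by rw [← pow_add]; congr 1; omega
  have h12 : 2 * n * (2 * r * ‖Q.eval z‖) ≤ 2 * n * ‖(TT n x).eval z‖ := by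
    refine le_trans ?_ hP
    refine le_trans ?_ h9
    calc 2 * n * (2 * r * ‖Q.eval z‖) ≤ 2 * n * (2 * r * (M * (2 * r ^ m))) := by
          apply mul_le_mul_of_nonneg_left _ (by positivity)
          exact mul_le_mul_of_nonneg_left hQ2 (by positivity)
      _ = 8 * M * n * r ^ (m + 1) := by rw [pow_succ]; ring
  exact le_of_mul_le_mul_left h12 (by positivity)

end Pool.Agent.TH642.RC
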