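import Mathlib
import Pool.Agent.TH642.RC.Defs

set_option autoImplicit false

open MeasureTheory Polynomial Filter Topology

namespace Pool.Agent.TH642.RC

theorem bw_nonneg (n k : ℕ) : 0 ≤ bw n k := Real.sqrt_nonneg _

theorem norm_bw (n k : ℕ) : ‖(bw n k : ℂ)‖ = bw n k := by
  rw [Complex.norm_real, Real.norm_of_nonneg (bw_nonneg n k)]

theorem deriv_TT (n : ℕ) (x : Fin (n + 1) → ℂ) :
    derivative (TT n x) =
      ∑ k : Fin (n + 1), C (x k * (bw n k : ℂ) * ((k : ℕ) : ℂ)) * X ^ ((k : ℕ) - 1) := by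
  rw [TT, derivative_sum]
  refine Finset.sum_congr rfl fun k _ => ?_
  rw [derivative_C_mul_X_pow]

theorem deriv2_TT (n : ℕ) (x : Fin (n + 1) → ℂ) :
    derivative (derivative (TT n x)) =
      ∑ k : Fin (n + 1), C (x k * (bw n k : ℂ) * ((k : ℕ) : ℂ) * (((k : ℕ) - 1 : ℕ) : ℂ))
        * X ^ ((k : ℕ) - 1 - 1) := by
  rw [deriv_TT, derivative_sum]
  refine Finset.sum_congr rfl fun k _ => ?_
  rw [derivative_C_mul_X_pow]

/-- norms of the coefficients of the second derivative. -/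
theorem cast_pred (k : ℕ) : (k : ℝ) * ((k - 1 : ℕ) : ℝ) = k * (k - 1) := by
  rcases Nat.eq_zero_or_pos k with h | h
  · subst h; simp
  · rw [Nat.cast_sub h]; simp

theorem eval_tt : S_EVAL := by
  intro n x z
  refine ⟨?_, ?_, fun L hL => ⟨?_, ?_, ?_⟩⟩
  · rw [TT, eval_finsetSum]
    refine Finset.sum_congr rfl fun k _ => ?_
    simp only [eval_mul, eval_C, eval_pow, eval_X]
    ring
  · rw [deriv_TT, eval_finsetSum]
    refine Finset.sum_congr rfl fun k _ => ?_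
    simp only [eval_mul, eval_C, eval_pow, eval_X]
    ring
  · rw [TT, eval_finsetSum, Finset.mul_sum, ← Fin.sum_univ_eq_sum_range
      (fun k => L * (bw n k * ‖z‖ ^ k))]
    refine (norm_sum_le _ _).trans (Finset.sum_le_sum fun k _ => ?_)
    simp only [eval_mul, eval_C, eval_pow, eval_X, norm_mul, norm_pow, norm_bw]
    have h1 := mul_le_mul_of_nonneg_right (hL k)
      (mul_nonneg (bw_nonneg n k) (pow_nonneg (norm_nonneg z) k))
    calc ‖x k‖ * bw n k * ‖z‖ ^ (k : ℕ) = ‖x k‖ * (bw n k * ‖z‖ ^ (k : ℕ)) := by ring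
      _ ≤ _ := h1
  · rw [deriv_TT, eval_finsetSum, Finset.mul_sum, ← Fin.sum_univ_eq_sum_range
      (fun k => L * (k * bw n k * ‖z‖ ^ (k - 1)))]
    refine (norm_sum_le _ _).trans (Finset.sum_le_sum fun k _ => ?_)
    simp only [eval_mul, eval_C, eval_pow, eval_X, norm_mul, norm_pow, norm_bw,
      Complex.norm_natCast]
    have h1 := mul_le_mul_of_nonneg_right (hL k)
      (mul_nonneg (mul_nonneg (Nat.cast_nonneg (α := ℝ) (k : ℕ)) (bw_nonneg n k))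
        (pow_nonneg (norm_nonneg z) ((k : ℕ) - 1)))
    calc ‖x k‖ * bw n k * ((k : ℕ) : ℝ) * ‖z‖ ^ ((k : ℕ) - 1)
        = ‖x k‖ * (((k : ℕ) : ℝ) * bw n k * ‖z‖ ^ ((k : ℕ) - 1)) := by ring
      _ ≤ _ := h1
  · rw [deriv2_TT, eval_finsetSum, Finset.mul_sum, ← Fin.sum_univ_eq_sum_range
      (fun k => L * (k * (k - 1) * bw n k * ‖z‖ ^ (k - 2)))]
    refine (norm_sum_le _ _).trans (Finset.sum_le_sum fun k _ => ?_)
    simp only [eval_mul, eval_C, eval_pow, eval_X, norm_mul, norm_pow, norm_bw,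
      Complex.norm_natCast]
    have h1 := mul_le_mul_of_nonneg_right (hL k)
      (mul_nonneg (mul_nonneg (mul_nonneg (Nat.cast_nonneg (α := ℝ) (k : ℕ))
        (Nat.cast_nonneg (α := ℝ) ((k : ℕ) - 1))) (bw_nonneg n k))
        (pow_nonneg (norm_nonneg z) ((k : ℕ) - 1 - 1)))
    calc ‖x k‖ * bw n k * ((k : ℕ) : ℝ) * (((k : ℕ) - 1 : ℕ) : ℝ) * ‖z‖ ^ ((k : ℕ) - 1 - 1)
        = ‖x k‖ * (((k : ℕ) : ℝ) * (((k : ℕ) - 1 : ℕ) : ℝ) * bw n k
          * ‖z‖ ^ ((k : ℕ) - 1 - 1)) := by ring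
      _ ≤ L * (((k : ℕ) : ℝ) * (((k : ℕ) - 1 : ℕ) : ℝ) * bw n k
          * ‖z‖ ^ ((k : ℕ) - 1 - 1)) := h1
      _ = _ := by rw [cast_pred]; rfl

theorem qb : S_QB := by
  intro m Q M hdeg hcoef z
  have hQ : Q = ∑ k ∈ Finset.range (m + 1), C (Q.coeff k) * X ^ k :=
    Q.as_sum_range_C_mul_X_pow' (Nat.lt_succ_of_le hdeg)
  have hQ1 : derivative Q
      = ∑ k ∈ Finset.range (m + 1), C (Q.coeff k * (k : ℂ)) * X ^ (k - 1) := by
    conv_lhs => rw [hQ]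
    rw [derivative_sum]
    refine Finset.sum_congr rfl fun k _ => ?_
    rw [derivative_C_mul_X_pow]
  have hQ2 : derivative (derivative Q)
      = ∑ k ∈ Finset.range (m + 1), C (Q.coeff k * (k : ℂ) * ((k - 1 : ℕ) : ℂ))
        * X ^ (k - 1 - 1) := by
    rw [hQ1, derivative_sum]
    refine Finset.sum_congr rfl fun k _ => ?_
    rw [derivative_C_mul_X_pow]
  refine ⟨?_, ?_, ?_⟩
  · conv_lhs => rw [hQ]
    rw [eval_finsetSum, Finset.mul_sum]
    refine (norm_sum_le _ _).trans (Finset.sum_le_sum fun k _ => ?_)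
    simp only [eval_mul, eval_C, eval_pow, eval_X, norm_mul, norm_pow]
    have h1 := mul_le_mul_of_nonneg_right (hcoef k) (pow_nonneg (norm_nonneg z) k)
    calc ‖Q.coeff k‖ * ‖z‖ ^ k ≤ M * bw m k * ‖z‖ ^ k := h1
      _ = _ := by ring
  · rw [hQ1, eval_finsetSum, Finset.mul_sum]
    refine (norm_sum_le _ _).trans (Finset.sum_le_sum fun k _ => ?_)
    simp only [eval_mul, eval_C, eval_pow, eval_X, norm_mul, norm_pow, Complex.norm_natCast]
    have h1 := mul_le_mul_of_nonneg_right (hcoef k)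
      (mul_nonneg (Nat.cast_nonneg (α := ℝ) k) (pow_nonneg (norm_nonneg z) (k - 1)))
    calc ‖Q.coeff k‖ * (k : ℝ) * ‖z‖ ^ (k - 1) = ‖Q.coeff k‖ * ((k : ℝ) * ‖z‖ ^ (k - 1)) := by
          ring
      _ ≤ M * bw m k * ((k : ℝ) * ‖z‖ ^ (k - 1)) := h1
      _ = _ := by ring
  · rw [hQ2, eval_finsetSum, Finset.mul_sum]
    refine (norm_sum_le _ _).trans (Finset.sum_le_sum fun k _ => ?_)
    simp only [eval_mul, eval_C, eval_pow, eval_X, norm_mul, norm_pow, Complex.norm_natCast]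
    have h1 := mul_le_mul_of_nonneg_right (hcoef k)
      (mul_nonneg (mul_nonneg (Nat.cast_nonneg (α := ℝ) k) (Nat.cast_nonneg (α := ℝ) (k - 1)))
        (pow_nonneg (norm_nonneg z) (k - 1 - 1)))
    calc ‖Q.coeff k‖ * (k : ℝ) * ((k - 1 : ℕ) : ℝ) * ‖z‖ ^ (k - 1 - 1)
        = ‖Q.coeff k‖ * ((k : ℝ) * ((k - 1 : ℕ) : ℝ) * ‖z‖ ^ (k - 1 - 1)) := by ring
      _ ≤ M * bw m k * ((k : ℝ) * ((k - 1 : ℕ) : ℝ) * ‖z‖ ^ (k - 1 - 1)) := h1
      _ = M * ((k * (k - 1)) * bw m k * ‖z‖ ^ (k - 2)) := by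
          rw [cast_pred, Nat.sub_sub]; ring

end Pool.Agent.TH642.RC
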