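import Mathlib
import Pool.Agent.TH642.RC.Defs

set_option autoImplicit false

/-!
# IND (job 1326, helper642, MP_8f2e1c_an): choice of an index
-/

open MeasureTheory Polynomial Filter Topology

namespace Pool.Agent.TH642.RC

theorem ind_KK (n : ℕ) (r : ℝ) :
    KK n r = ∑ i ∈ Finset.range (n + 1), (n.choose i : ℝ) * r ^ (2 * i) := by
  unfold KK
  rw [add_comm, add_pow]
  refine Finset.sum_congr rfl fun i _ => ?_
  rw [one_pow, mul_one, ← pow_mul, mul_comm]

theorem ind_KK' (n : ℕ) (r : ℝ) :
    ∑ i ∈ Finset.range (n + 1), (i : ℝ) * ((n.choose i : ℝ) * r ^ (2 * i)) ≤ n * r ^ 2 * KK n r := by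
  rcases n with _ | m
  · simp
  · have e : ∑ i ∈ Finset.range (m + 1 + 1), (i : ℝ) * (((m + 1).choose i : ℝ) * r ^ (2 * i)) =
        ((m + 1 : ℕ) : ℝ) * r ^ 2 * KK m r := by
      rw [Finset.sum_range_succ', ind_KK, Finset.mul_sum]
      simp only [Nat.cast_zero, zero_mul, add_zero]
      refine Finset.sum_congr rfl fun j _ => ?_
      have h : ((m + 1 : ℕ) : ℝ) * (m.choose j : ℝ) =
          ((m + 1).choose (j + 1) : ℝ) * ((j + 1 : ℕ) : ℝ) := by
        exact_mod_cast Nat.add_one_mul_choose_eq m j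
      calc ((j + 1 : ℕ) : ℝ) * (((m + 1).choose (j + 1) : ℝ) * r ^ (2 * (j + 1)))
          = (((m + 1).choose (j + 1) : ℝ) * ((j + 1 : ℕ) : ℝ)) * r ^ (2 * (j + 1)) := by ring
        _ = (((m + 1 : ℕ) : ℝ) * (m.choose j : ℝ)) * r ^ (2 * (j + 1)) := by rw [h]
        _ = _ := by ring
    rw [e]
    refine mul_le_mul_of_nonneg_left ?_ (by positivity)
    unfold KK
    exact pow_le_pow_right₀ (by nlinarith [sq_nonneg r]) (by omega)

theorem ind_bound : S_IND := by
  intro n r hr
  constructor
  · obtain ⟨i, hi, hmax⟩ := Finset.exists_max_image (Finset.range (n + 1))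
      (fun i => (n.choose i : ℝ) * r ^ (2 * i)) ⟨0, by simp⟩
    refine ⟨i, by simpa [Nat.lt_succ_iff] using hi, ?_⟩
    rw [ind_KK]
    have h := Finset.sum_le_card_nsmul (Finset.range (n + 1))
      (fun i => (n.choose i : ℝ) * r ^ (2 * i)) _ hmax
    rw [Finset.card_range, nsmul_eq_mul] at h
    push_cast at h
    exact h
  · set t : ℝ := n * r ^ 2 with ht
    have ht0 : 0 ≤ t := by positivity
    set a : ℕ → ℝ := fun i => (n.choose i : ℝ) * r ^ (2 * i) with ha
    have ha0 : ∀ i, 0 ≤ a i := fun i => by rw [ha]; positivity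
    rcases ht0.eq_or_lt with h0 | hpos
    · refine ⟨0, Nat.zero_le _, by rw [← h0]; simp, ?_⟩
      have hK : KK n r = 1 := by
        unfold KK
        rcases mul_eq_zero.mp h0.symm with h | h
        · have : n = 0 := by exact_mod_cast h
          rw [this, pow_zero]
        · rw [h, add_zero, one_pow]
      rw [hK, ← h0]
      simp
    · set A := (Finset.range (n + 1)).filter (fun i : ℕ => (i : ℝ) ≤ 2 * t) with hA
      set B := (Finset.range (n + 1)).filter (fun i : ℕ => ¬ (i : ℝ) ≤ 2 * t) with hB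
      have hsplit : ∑ i ∈ A, a i + ∑ i ∈ B, a i = KK n r := by
        rw [ind_KK, hA, hB, Finset.sum_filter_add_sum_filter_not]
      have hBle : 2 * t * ∑ i ∈ B, a i ≤ t * KK n r := by
        calc 2 * t * ∑ i ∈ B, a i = ∑ i ∈ B, 2 * t * a i := by rw [Finset.mul_sum]
          _ ≤ ∑ i ∈ B, (i : ℝ) * a i := by
              refine Finset.sum_le_sum fun i hi => ?_
              have h1 : 2 * t < i := not_le.mp (Finset.mem_filter.mp hi).2
              exact mul_le_mul_of_nonneg_right h1.le (ha0 i)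
          _ ≤ ∑ i ∈ Finset.range (n + 1), (i : ℝ) * a i :=
              Finset.sum_le_sum_of_subset_of_nonneg (Finset.filter_subset _ _)
                fun i _ _ => mul_nonneg (Nat.cast_nonneg _) (ha0 i)
          _ ≤ t * KK n r := ind_KK' n r
      have hBle' : ∑ i ∈ B, a i ≤ KK n r / 2 := by
        have h2 : 2 * (∑ i ∈ B, a i) ≤ KK n r := by
          refine le_of_mul_le_mul_left ?_ hpos
          linarith
        linarith
      have hAge : KK n r ≤ 2 * ∑ i ∈ A, a i := by linarith
      have h0A : 0 ∈ A := by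
        rw [hA, Finset.mem_filter]
        refine ⟨by simp, ?_⟩
        push_cast
        positivity
      obtain ⟨i, hi, hmax⟩ := Finset.exists_max_image A a ⟨0, h0A⟩
      have hi' := Finset.mem_filter.mp hi
      refine ⟨i, by simpa [Nat.lt_succ_iff] using hi'.1, hi'.2, ?_⟩
      have hcard : (A.card : ℝ) ≤ 2 * t + 1 := by
        have h1 : A ⊆ Finset.range (⌊2 * t⌋₊ + 1) := by
          intro j hj
          rw [Finset.mem_range, Nat.lt_succ_iff]
          exact Nat.le_floor (Finset.mem_filter.mp hj).2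
        have h2 : A.card ≤ ⌊2 * t⌋₊ + 1 := by
          have := Finset.card_le_card h1
          rwa [Finset.card_range] at this
        calc (A.card : ℝ) ≤ ((⌊2 * t⌋₊ + 1 : ℕ) : ℝ) := by exact_mod_cast h2
          _ = (⌊2 * t⌋₊ : ℝ) + 1 := by push_cast; ring
          _ ≤ 2 * t + 1 := by linarith [Nat.floor_le (show 0 ≤ 2 * t by positivity)]
      have h := Finset.sum_le_card_nsmul A a _ hmax
      rw [nsmul_eq_mul] at h
      calc KK n r ≤ 2 * ∑ i ∈ A, a i := hAge
        _ ≤ 2 * (A.card * a i) := by linarith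
        _ ≤ 2 * ((2 * t + 1) * a i) := by
            have := mul_le_mul_of_nonneg_right hcard (ha0 i)
            linarith
        _ = 2 * (2 * t + 1) * a i := by ring

end Pool.Agent.TH642.RC
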