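import Pool.Agent.TH642.RC.Defs

set_option autoImplicit false

/-!
# RC-NET: a lattice net
-/

namespace Pool.Agent.TH642.RC

theorem net_round (x : ℝ) (N : ℕ) (hx : |x| ≤ N) : -(N : ℤ) ≤ round x ∧ round x ≤ N := by
  have h1 := abs_sub_round x
  rw [abs_le] at h1 hx
  constructor
  · by_contra h
    push Not at h
    have h2 : (round x : ℝ) ≤ -(N : ℝ) - 1 := by
      have h3 : round x ≤ -(N : ℤ) - 1 := by omega
      exact_mod_cast h3
    linarith [h1.2, hx.1]
  · by_contra h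
    push Not at h
    have h2 : (N : ℝ) + 1 ≤ (round x : ℝ) := by
      have h3 : (N : ℤ) + 1 ≤ round x := by omega
      exact_mod_cast h3
    linarith [h1.1, hx.2]

theorem net : S_NET := by
  classical
  intro ρ δ hρ hδ
  set N : ℕ := ⌈ρ / δ⌉₊ with hN
  have hN1 : ρ / δ ≤ N := Nat.le_ceil _
  have hN2 : (N : ℝ) ≤ ρ / δ + 1 := (Nat.ceil_lt_add_one (div_nonneg hρ hδ.le)).le
  refine ⟨((Finset.Icc (-(N : ℤ)) N) ×ˢ (Finset.Icc (-(N : ℤ)) N)).image
    (fun pq => ((⟨δ * pq.1, δ * pq.2⟩ : ℂ))), ?_, ?_⟩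
  · have h1 : (((Finset.Icc (-(N : ℤ)) N) ×ˢ (Finset.Icc (-(N : ℤ)) N)).image
        (fun pq : ℤ × ℤ => ((⟨δ * pq.1, δ * pq.2⟩ : ℂ)))).card ≤ (2 * N + 1) * (2 * N + 1) := by
      refine Finset.card_image_le.trans ?_
      rw [Finset.card_product, Int.card_Icc]
      have h2 : ((N : ℤ) + 1 - -(N : ℤ)).toNat = 2 * N + 1 := by omega
      rw [h2]
    have h3 : (0 : ℝ) ≤ 2 * (N : ℝ) + 1 := by positivity
    have h4 : 2 * (N : ℝ) + 1 ≤ 2 * ρ / δ + 3 := by
      have : 2 * ρ / δ = 2 * (ρ / δ) := by ring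
      rw [this]
      linarith
    calc ((((Finset.Icc (-(N : ℤ)) N) ×ˢ (Finset.Icc (-(N : ℤ)) N)).image
        (fun pq : ℤ × ℤ => ((⟨δ * pq.1, δ * pq.2⟩ : ℂ)))).card : ℝ)
        ≤ (((2 * N + 1) * (2 * N + 1) : ℕ) : ℝ) := by exact_mod_cast h1
      _ = (2 * (N : ℝ) + 1) ^ 2 := by push_cast; ring
      _ ≤ (2 * ρ / δ + 3) ^ 2 := pow_le_pow_left₀ h3 h4 2
  · intro z hz
    have hre : |z.re / δ| ≤ N := by
      rw [abs_div, abs_of_pos hδ]
      exact (div_le_div_of_nonneg_right ((Complex.abs_re_le_norm z).trans hz) hδ.le).trans hN1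
    have him : |z.im / δ| ≤ N := by
      rw [abs_div, abs_of_pos hδ]
      exact (div_le_div_of_nonneg_right ((Complex.abs_im_le_norm z).trans hz) hδ.le).trans hN1
    refine ⟨⟨δ * (round (z.re / δ) : ℤ), δ * (round (z.im / δ) : ℤ)⟩, ?_, ?_⟩
    · rw [Finset.mem_image]
      refine ⟨(round (z.re / δ), round (z.im / δ)), ?_, rfl⟩
      rw [Finset.mem_product, Finset.mem_Icc, Finset.mem_Icc]
      exact ⟨net_round _ N hre, net_round _ N him⟩
    · have h1 := abs_sub_round (z.re / δ)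
      have h2 := abs_sub_round (z.im / δ)
      have h3 : |z.re - δ * (round (z.re / δ) : ℤ)| ≤ δ / 2 := by
        have : z.re - δ * (round (z.re / δ) : ℤ) = δ * (z.re / δ - (round (z.re / δ) : ℤ)) := by
          field_simp
        rw [this, abs_mul, abs_of_pos hδ]
        calc δ * |z.re / δ - (round (z.re / δ) : ℤ)| ≤ δ * (1 / 2) :=
              mul_le_mul_of_nonneg_left h1 hδ.le
          _ = δ / 2 := by ring
      have h4 : |z.im - δ * (round (z.im / δ) : ℤ)| ≤ δ / 2 := by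
        have : z.im - δ * (round (z.im / δ) : ℤ) = δ * (z.im / δ - (round (z.im / δ) : ℤ)) := by
          field_simp
        rw [this, abs_mul, abs_of_pos hδ]
        calc δ * |z.im / δ - (round (z.im / δ) : ℤ)| ≤ δ * (1 / 2) :=
              mul_le_mul_of_nonneg_left h2 hδ.le
          _ = δ / 2 := by ring
      refine (Complex.norm_le_abs_re_add_abs_im _).trans ?_
      have h5 : (z - ⟨δ * (round (z.re / δ) : ℤ), δ * (round (z.im / δ) : ℤ)⟩ : ℂ).re =
          z.re - δ * (round (z.re / δ) : ℤ) := rfl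
      have h6 : (z - ⟨δ * (round (z.re / δ) : ℤ), δ * (round (z.im / δ) : ℤ)⟩ : ℂ).im =
          z.im - δ * (round (z.im / δ) : ℤ) := rfl
      rw [h5, h6]
      linarith

end Pool.Agent.TH642.RC
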