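import Pool.Agent.TH642.RC.Defs
import Pool.Agent.TH642.RC.Aff

set_option autoImplicit false

open MeasureTheory

namespace Pool.Agent.TH642.RC

theorem sb3 (h : S_STEP) : S_SB3 := by
  intro N μ hμ B hB hD p q s u w y l₁ l₂ i j l hij hil hjl hpi hqi hqj hsi hsj hdet α β γ hα hβ hγ
  have hr : ∀ k, (fun k => s k - l₁ * p k - l₂ * q k) k = s k - l₁ * p k - l₂ * q k := fun k => rfl
  set r : Fin N → ℂ := fun k => s k - l₁ * p k - l₂ * q k with hrdef
  have hri : r i = 0 := by rw [hr, hsi, hqi]; ring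
  have hrj : r j = 0 := by rw [hr, hsj]; ring
  have hrl0 : r l ≠ 0 := by rw [hr]; exact hdet
  set t : ℂ := y - l₁ * u - l₂ * w with ht
  have hform : ∀ x : Fin N → ℂ, ∑ k, r k * x k + t =
      (∑ k, s k * x k + y) - l₁ * (∑ k, p k * x k + u) - l₂ * (∑ k, q k * x k + w) := by
    intro x
    rw [mul_add, mul_add, Finset.mul_sum, Finset.mul_sum, ht]
    have h1 : ∑ k, r k * x k = ∑ k, s k * x k - ∑ k, l₁ * (p k * x k) - ∑ k, l₂ * (q k * x k) := by
      rw [← Finset.sum_sub_distrib, ← Finset.sum_sub_distrib]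
      apply Finset.sum_congr rfl
      intro k _
      rw [hr]
      ring
    rw [h1]
    ring
  have hγ' : 0 ≤ γ + ‖l₁‖ * α + ‖l₂‖ * β := by positivity
  set A : Set (Fin N → ℂ) := {x | ‖∑ k, p k * x k + u‖ ≤ α ∧ ‖∑ k, q k * x k + w‖ ≤ β ∧
    ‖∑ k, s k * x k + y‖ ≤ γ} with hA
  have hAm : MeasurableSet A := by
    have hf : ∀ (a : Fin N → ℂ) (s : ℂ), Measurable (fun x : Fin N → ℂ => ‖∑ k, a k * x k + s‖) := by
      intro a s
      have h : Measurable (fun x : Fin N → ℂ => ∑ k, a k * x k) :=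
        Finset.measurable_fun_sum _ (fun k _ => measurable_const.mul (measurable_pi_apply k))
      exact (h.add_const s).norm
    exact (measurableSet_le (hf p u) measurable_const).inter
      ((measurableSet_le (hf q w) measurable_const).inter
        (measurableSet_le (hf s y) measurable_const))
  have h1 : Measure.pi μ A ≤ ∫⁻ x, ind p u i (α / ‖p i‖) x *
      (ind q w j (β / ‖q j‖) x *
      ind r t l ((γ + ‖l₁‖ * α + ‖l₂‖ * β) / ‖r l‖) x) ∂(Measure.pi μ) := by
    rw [← lintegral_indicator_one hAm]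
    apply lintegral_mono
    intro x
    by_cases hx : x ∈ A
    · rw [Set.indicator_of_mem hx]
      have hx' := hx
      rw [hA, Set.mem_ofPred_eq] at hx'
      beta_reduce
      rw [ind_eq_one p u i hpi α x hx'.1, ind_eq_one q w j hqj β x hx'.2.1,
        ind_eq_one r t l hrl0 _ x _]
      · simp
      · rw [hform]
        refine (norm_sub_le _ _).trans ?_
        have e1 := hx'.1
        have e2 := hx'.2.1
        have e3 := hx'.2.2
        have e4 : ‖(∑ k, s k * x k + y) - l₁ * (∑ k, p k * x k + u)‖ ≤ γ + ‖l₁‖ * α := by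
          refine (norm_sub_le _ _).trans ?_
          rw [norm_mul]
          gcongr
        rw [norm_mul]
        gcongr
    · rw [Set.indicator_of_notMem hx]
      exact zero_le
  have h2 := ind_step h μ hμ B hB hD p u i (α / ‖p i‖) (by positivity)
    (fun x => ind q w j (β / ‖q j‖) x *
      ind r t l ((γ + ‖l₁‖ * α + ‖l₂‖ * β) / ‖r l‖) x)
    ((ind_meas _ _ _ _).mul (ind_meas _ _ _ _))
    (fun x b => by
      beta_reduce
      rw [ind_update q w i j hqj hqi _ x b, ind_update r t i l hrl0 hri _ x b])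
  have h3 := ind_step h μ hμ B hB hD q w j (β / ‖q j‖) (by positivity)
    (ind r t l ((γ + ‖l₁‖ * α + ‖l₂‖ * β) / ‖r l‖)) (ind_meas _ _ _ _)
    (fun x b => ind_update r t j l hrl0 hrj _ x b)
  have h4 := ind_step h μ hμ B hB hD r t l ((γ + ‖l₁‖ * α + ‖l₂‖ * β) / ‖r l‖) (by positivity)
    (fun _ => 1) measurable_const (fun _ _ => rfl)
  have h5 : ∫⁻ _x : Fin N → ℂ, (1 : ENNReal) ∂(Measure.pi μ) = 1 := by
    rw [lintegral_const, measure_univ, mul_one]
  rw [h5, mul_one] at h4
  simp only [mul_one] at h4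
  refine h1.trans (h2.trans ?_)
  rw [ENNReal.ofReal_mul (p := B * (Real.pi * (α / ‖p i‖) ^ 2) * (B * (Real.pi * (β / ‖q j‖) ^ 2)))
      (by positivity),
    ENNReal.ofReal_mul (p := B * (Real.pi * (α / ‖p i‖) ^ 2)) (by positivity), ← hr l, mul_assoc]
  exact mul_le_mul_right (h3.trans (mul_le_mul_right h4 _)) _

end Pool.Agent.TH642.RC
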