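import Pool.Agent.TH642.RC.Defs

set_option autoImplicit false

open MeasureTheory

namespace Pool.Agent.TH642.RC

theorem step : S_STEP := by
  classical
  intro N μ hμ B hB hD i c hc hci ρ hρ G hG hGi
  set K : ENNReal := ENNReal.ofReal (B * (Real.pi * ρ ^ 2)) with hK
  set S : Set (Fin N → ℂ) := {x : Fin N → ℂ | ‖x i - c x‖ ≤ ρ} with hS
  have hSm : MeasurableSet S := by
    apply measurableSet_le _ measurable_const
    exact ((measurable_pi_apply i).sub hc).norm
  have hf : Measurable (fun x => (S.indicator (fun _ => (1 : ENNReal)) x) * G x) :=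
    (measurable_const.indicator hSm).mul hG
  have hg : Measurable (fun x => K * G x) := hG.const_mul K
  rw [← lintegral_const_mul K hG]
  rw [lintegral_eq_lmarginal_univ (0 : Fin N → ℂ), lintegral_eq_lmarginal_univ (0 : Fin N → ℂ),
    lmarginal_erase' _ hf (Finset.mem_univ i), lmarginal_erase' _ hg (Finset.mem_univ i)]
  apply lmarginal_mono
  intro x
  show ∫⁻ a, (S.indicator (fun _ => (1 : ENNReal)) (Function.update x i a)) *
      G (Function.update x i a) ∂(μ i) ≤ ∫⁻ a, K * G (Function.update x i a) ∂(μ i)
  have h1 : ∀ a, G (Function.update x i a) = G x := fun a => hGi x a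
  have h2 : ∀ a, S.indicator (fun _ => (1 : ENNReal)) (Function.update x i a)
      = (Metric.closedBall (c x) ρ).indicator (fun _ => (1 : ENNReal)) a := by
    intro a
    have h3 : Function.update x i a ∈ S ↔ a ∈ Metric.closedBall (c x) ρ := by
      rw [hS, Set.mem_ofPred_eq, Function.update_self, hci, Metric.mem_closedBall, dist_eq_norm]
    by_cases h : a ∈ Metric.closedBall (c x) ρ
    · rw [Set.indicator_of_mem h, Set.indicator_of_mem (h3.mpr h)]
    · rw [Set.indicator_of_notMem h, Set.indicator_of_notMem (fun h' => h (h3.mp h'))]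
  simp only [h1, h2]
  have hball : μ i (Metric.closedBall (c x) ρ) ≤ K := by
    have h4 := hD i (Metric.closedBall (c x) ρ)
    rw [Measure.smul_apply, Complex.volume_closedBall, smul_eq_mul] at h4
    refine h4.trans (le_of_eq ?_)
    rw [hK, ENNReal.ofReal_mul hB, ENNReal.ofReal_mul Real.pi_nonneg, ENNReal.ofReal_pow hρ]
    congr 1
    rw [mul_comm]
    congr 1
    rw [← NNReal.coe_real_pi, ENNReal.ofReal_coe_nnreal]
  rw [lintegral_mul_const _ (measurable_const.indicator Metric.isClosed_closedBall.measurableSet),
    lintegral_const, measure_univ, mul_one]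
  apply mul_le_mul_left
  rw [lintegral_indicator Metric.isClosed_closedBall.measurableSet, lintegral_const, one_mul,
    Measure.restrict_apply_univ]
  exact hball

end Pool.Agent.TH642.RC
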