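import Mathlib
import Pool.Agent.TH642.RC.Defs

set_option autoImplicit false

/-!
# SUM (job 1325, helper642, MP_8f2e1c_an): bounds for `∑ √C(n,k) r^k` and its derivatives
-/

open MeasureTheory Polynomial Filter Topology

namespace Pool.Agent.TH642.RC

theorem sum_KK (m : ℕ) (r σ : ℝ) :
    ∑ j ∈ Finset.range (m + 1), σ ^ j * ((m.choose j : ℝ) * r ^ (2 * j)) = (1 + σ * r ^ 2) ^ m := by
  rw [show 1 + σ * r ^ 2 = σ * r ^ 2 + 1 by ring, add_pow]
  refine Finset.sum_congr rfl fun i _ => ?_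
  rw [one_pow, mul_one, mul_pow, ← pow_mul]
  ring

theorem sqrt_rpow_pow {y σ : ℝ} (h0 : 0 ≤ y) (m : ℕ) : √((y ^ σ) ^ m) = (y ^ m) ^ (σ / 2) := by
  rw [Real.sqrt_eq_rpow, ← Real.rpow_natCast (y ^ σ) m, ← Real.rpow_natCast y m,
    ← Real.rpow_mul h0, ← Real.rpow_mul h0, ← Real.rpow_mul h0]
  congr 1
  ring

theorem sum_summable {σ : ℝ} (hσ : 1 < σ) : Summable (fun j : ℕ => ((j : ℝ) + 2) ^ 2 * σ⁻¹ ^ j) := by
  have h1 : ‖σ⁻¹‖ < 1 := by
    rw [Real.norm_of_nonneg (by positivity)]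
    exact inv_lt_one_of_one_lt₀ hσ
  have s2 := summable_pow_mul_geometric_of_norm_lt_one 2 h1
  have s1 := (summable_pow_mul_geometric_of_norm_lt_one 1 h1).mul_left 4
  have s0 := (summable_geometric_of_norm_lt_one h1).mul_left 4
  refine ((s2.add s1).add s0).congr fun j => ?_
  ring

/-- the weighted sum -/
theorem sum_wt {σ : ℝ} (hσ : 1 < σ) (m : ℕ) {r : ℝ} (hr : 0 ≤ r) (w : ℕ → ℝ) (hw0 : ∀ j, 0 ≤ w j)
    (hw : ∀ j, w j ≤ (j : ℝ) + 2) :
    ∑ j ∈ Finset.range (m + 1), w j * bw m j * r ^ j ≤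
      √(∑' j : ℕ, ((j : ℝ) + 2) ^ 2 * σ⁻¹ ^ j) * KK m r ^ (σ / 2) := by
  have hσ0 : 0 < σ := by linarith
  have hs0 : 0 < √σ := Real.sqrt_pos.mpr hσ0
  have h1 : ∑ j ∈ Finset.range (m + 1), w j * bw m j * r ^ j =
      ∑ j ∈ Finset.range (m + 1), (w j * (√σ)⁻¹ ^ j) * (√σ ^ j * (bw m j * r ^ j)) := by
    refine Finset.sum_congr rfl fun j _ => ?_
    have : (√σ)⁻¹ ^ j * √σ ^ j = 1 := by
      rw [← mul_pow, inv_mul_cancel₀ hs0.ne', one_pow]
    calc w j * bw m j * r ^ j = w j * bw m j * r ^ j * ((√σ)⁻¹ ^ j * √σ ^ j) := by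
          rw [this, mul_one]
      _ = _ := by ring
  rw [h1]
  refine (Real.sum_mul_le_sqrt_mul_sqrt _ _ _).trans ?_
  refine mul_le_mul ?_ ?_ (Real.sqrt_nonneg _) (Real.sqrt_nonneg _)
  · apply Real.sqrt_le_sqrt
    calc ∑ j ∈ Finset.range (m + 1), (w j * (√σ)⁻¹ ^ j) ^ 2
        ≤ ∑ j ∈ Finset.range (m + 1), ((j : ℝ) + 2) ^ 2 * σ⁻¹ ^ j := by
          refine Finset.sum_le_sum fun j _ => ?_
          have e : ((√σ)⁻¹ ^ j) ^ 2 = σ⁻¹ ^ j := by
            rw [← pow_mul, mul_comm, pow_mul, inv_pow, Real.sq_sqrt hσ0.le]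
          rw [mul_pow, e]
          have := hw0 j
          have := hw j
          gcongr
      _ ≤ ∑' j : ℕ, ((j : ℝ) + 2) ^ 2 * σ⁻¹ ^ j :=
          (sum_summable hσ).sum_le_tsum _ (fun j _ => by positivity)
  · calc √(∑ j ∈ Finset.range (m + 1), (√σ ^ j * (bw m j * r ^ j)) ^ 2)
        = √((1 + σ * r ^ 2) ^ m) := by
          congr 1
          rw [← sum_KK]
          refine Finset.sum_congr rfl fun j _ => ?_
          have e1 : (√σ ^ j) ^ 2 = σ ^ j := by
            rw [← pow_mul, mul_comm, pow_mul, Real.sq_sqrt hσ0.le]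
          have e2 : bw m j ^ 2 = (m.choose j : ℝ) := by
            unfold bw
            exact Real.sq_sqrt (Nat.cast_nonneg _)
          rw [mul_pow, mul_pow, e1, e2, ← pow_mul, mul_comm j 2]
      _ ≤ √(((1 + r ^ 2) ^ σ) ^ m) := by
          apply Real.sqrt_le_sqrt
          refine pow_le_pow_left₀ (by positivity) ?_ m
          exact one_add_mul_self_le_rpow_one_add (by nlinarith [sq_nonneg r]) hσ.le
      _ = KK m r ^ (σ / 2) := by
          unfold KK
          exact sqrt_rpow_pow (by positivity) m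

theorem KK_mono {m n : ℕ} (h : m ≤ n) {r σ : ℝ} (hσ : 0 ≤ σ) : KK m r ^ σ ≤ KK n r ^ σ := by
  unfold KK
  refine Real.rpow_le_rpow (by positivity) ?_ hσ
  exact pow_le_pow_right₀ (by nlinarith [sq_nonneg r]) h

theorem bw_succ (m j : ℕ) : ((j : ℝ) + 1) * bw (m + 1) (j + 1) ≤ ((m : ℝ) + 1) * bw m j := by
  by_cases hj : j ≤ m
  · unfold bw
    refine abs_le_of_sq_le_sq' ?_ (by positivity) |>.2
    rw [mul_pow, mul_pow, Real.sq_sqrt (Nat.cast_nonneg _), Real.sq_sqrt (Nat.cast_nonneg _)]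
    have h : ((m : ℝ) + 1) * (m.choose j : ℝ) = ((m + 1).choose (j + 1) : ℝ) * ((j : ℝ) + 1) := by
      exact_mod_cast Nat.add_one_mul_choose_eq m j
    have h2 : (j : ℝ) ≤ m := by exact_mod_cast hj
    calc ((j : ℝ) + 1) ^ 2 * ((m + 1).choose (j + 1) : ℝ)
        = ((j : ℝ) + 1) * (((m + 1).choose (j + 1) : ℝ) * ((j : ℝ) + 1)) := by ring
      _ = ((j : ℝ) + 1) * (((m : ℝ) + 1) * (m.choose j : ℝ)) := by rw [h]
      _ ≤ ((m : ℝ) + 1) * (((m : ℝ) + 1) * (m.choose j : ℝ)) := by gcongr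
      _ = _ := by ring
  · have h1 : (m + 1).choose (j + 1) = 0 := Nat.choose_eq_zero_of_lt (by omega)
    unfold bw
    rw [h1]
    simp
    positivity

theorem sum_bounds : S_SUM := by
  intro σ hσ
  set W : ℝ := √(∑' j : ℕ, ((j : ℝ) + 2) ^ 2 * σ⁻¹ ^ j) with hW
  have hW0 : 0 ≤ W := Real.sqrt_nonneg _
  refine ⟨1 + W, by linarith, ?_⟩
  intro n r hr
  have hKK0 : ∀ m, 0 ≤ KK m r ^ (σ / 2) := fun m => by unfold KK; positivity
  have b0 : ∀ m j, 0 ≤ bw m j := fun m j => Real.sqrt_nonneg _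
  have mono : ∀ m, m ≤ n → W * KK m r ^ (σ / 2) ≤ (1 + W) * KK n r ^ (σ / 2) := by
    intro m hm
    exact mul_le_mul (by linarith) (KK_mono hm (by linarith)) (hKK0 m) (by linarith)
  refine ⟨?_, ?_, ?_⟩
  · have h := sum_wt hσ n hr (fun _ => 1) (fun _ => zero_le_one) (fun j => by
      have : (0 : ℝ) ≤ j := Nat.cast_nonneg j
      linarith)
    simp only [one_mul] at h
    exact h.trans (mono n le_rfl)
  · rcases n with _ | m
    · simp
    · rw [Finset.sum_range_succ']
      simp only [Nat.cast_zero, zero_mul, add_zero, Nat.add_sub_cancel]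
      have h := sum_wt hσ m hr (fun _ => 1) (fun _ => zero_le_one) (fun j => by
        have : (0 : ℝ) ≤ j := Nat.cast_nonneg j
        linarith)
      simp only [one_mul] at h
      calc ∑ k ∈ Finset.range (m + 1), ((k + 1 : ℕ) : ℝ) * bw (m + 1) (k + 1) * r ^ k
          ≤ ∑ k ∈ Finset.range (m + 1), ((m : ℝ) + 1) * (bw m k * r ^ k) := by
            refine Finset.sum_le_sum fun k _ => ?_
            rw [← mul_assoc]
            refine mul_le_mul_of_nonneg_right ?_ (by positivity)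
            have := bw_succ m k
            push_cast
            exact this
        _ = ((m : ℝ) + 1) * ∑ k ∈ Finset.range (m + 1), bw m k * r ^ k := by rw [Finset.mul_sum]
        _ ≤ ((m : ℝ) + 1) * ((1 + W) * KK (m + 1) r ^ (σ / 2)) :=
            mul_le_mul_of_nonneg_left (h.trans (mono m (by omega))) (by positivity)
        _ = _ := by push_cast; ring
  · rcases n with _ | _ | m
    · simp
    · have e : ∑ k ∈ Finset.range (0 + 1 + 1), (k : ℝ) * ((k : ℝ) - 1) * bw (0 + 1) k * r ^ (k - 2) =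
          0 := by simp [Finset.sum_range_succ]
      rw [e]
      exact mul_nonneg (mul_nonneg (by linarith) (Nat.cast_nonneg _)) (hKK0 _)
    · rw [Finset.sum_range_succ', Finset.sum_range_succ']
      simp only [Nat.cast_zero, zero_mul, add_zero, zero_add, Nat.cast_one, sub_self, mul_zero]
      have h := sum_wt hσ m hr (fun j => (j : ℝ) + 2) (fun j => by positivity) (fun j => le_rfl)
      calc ∑ k ∈ Finset.range (m + 1), ((k + 1 + 1 : ℕ) : ℝ) * (((k + 1 + 1 : ℕ) : ℝ) - 1) *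
            bw (m + 1 + 1) (k + 1 + 1) * r ^ (k + 1 + 1 - 2)
          ≤ ∑ k ∈ Finset.range (m + 1), ((m : ℝ) + 2) * (((k : ℝ) + 2) * bw m k * r ^ k) := by
            refine Finset.sum_le_sum fun k hk => ?_
            rw [show k + 1 + 1 - 2 = k by omega, ← mul_assoc]
            refine mul_le_mul_of_nonneg_right ?_ (by positivity)
            -- (k+2)(k+1) bw (m+2) (k+2) ≤ (m+2)(k+2) bw m k
            have i1 := bw_succ (m + 1) (k + 1)
            have i2 := bw_succ m k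
            push_cast at i1 ⊢
            have hk' : (k : ℝ) ≤ m := by
              have := Finset.mem_range.mp hk
              exact_mod_cast (by omega : k ≤ m)
            -- squares
            unfold bw at *
            refine abs_le_of_sq_le_sq' ?_ (by positivity) |>.2
            have e1 : ((m : ℝ) + 1) * (m.choose k : ℝ) =
                ((m + 1).choose (k + 1) : ℝ) * ((k : ℝ) + 1) := by
              exact_mod_cast Nat.add_one_mul_choose_eq m k
            have e2 : ((m : ℝ) + 1 + 1) * ((m + 1).choose (k + 1) : ℝ) =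
                ((m + 1 + 1).choose (k + 1 + 1) : ℝ) * ((k : ℝ) + 1 + 1) := by
              exact_mod_cast Nat.add_one_mul_choose_eq (m + 1) (k + 1)
            rw [mul_pow, mul_pow, mul_pow, mul_pow ((k : ℝ) + 2), Real.sq_sqrt (Nat.cast_nonneg _),
              Real.sq_sqrt (Nat.cast_nonneg _)]
            calc ((k : ℝ) + 1 + 1) ^ 2 * ((k : ℝ) + 1 + 1 - 1) ^ 2 *
                  ((m + 1 + 1).choose (k + 1 + 1) : ℝ)
                = ((k : ℝ) + 2) * ((k : ℝ) + 1) ^ 2 *
                  (((m + 1 + 1).choose (k + 1 + 1) : ℝ) * ((k : ℝ) + 1 + 1)) := by ring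
              _ = ((k : ℝ) + 2) * ((k : ℝ) + 1) * ((m : ℝ) + 2) *
                  (((m + 1).choose (k + 1) : ℝ) * ((k : ℝ) + 1)) := by rw [← e2]; ring
              _ = ((k : ℝ) + 2) * (((k : ℝ) + 1) * (((m : ℝ) + 2) * ((m : ℝ) + 1))) *
                  (m.choose k : ℝ) := by rw [← e1]; ring
              _ ≤ ((k : ℝ) + 2) * (((k : ℝ) + 2) * (((m : ℝ) + 2) * ((m : ℝ) + 2))) *
                  (m.choose k : ℝ) := by gcongr <;> norm_num
              _ = _ := by ring
        _ = ((m : ℝ) + 2) * ∑ k ∈ Finset.range (m + 1), ((k : ℝ) + 2) * bw m k * r ^ k := by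
            rw [Finset.mul_sum]
        _ ≤ ((m : ℝ) + 2) * ((1 + W) * KK (m + 1 + 1) r ^ (σ / 2)) :=
            mul_le_mul_of_nonneg_left (h.trans (mono m (by omega))) (by positivity)
        _ = _ := by push_cast; ring

end Pool.Agent.TH642.RC
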