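import Pool.Agent.TH642.RC.Defs

set_option autoImplicit false

open Polynomial MeasureTheory

namespace Pool.Agent.TH642.RC

namespace Tail

lemma disc_le (B : ℝ) (hB : 0 ≤ B) (μ : Measure ℂ) (h : Dens B μ) (a : ℂ) (δ : ℝ) (hδ : 0 ≤ δ) :
    μ (Metric.closedBall a δ) ≤ ENNReal.ofReal (B * (Real.pi * δ ^ 2)) := by
  refine (h (Metric.closedBall a δ)).trans (le_of_eq ?_)
  rw [Measure.smul_apply, Complex.volume_closedBall, smul_eq_mul, ENNReal.ofReal_mul hB,
    ENNReal.ofReal_mul Real.pi_nonneg, ENNReal.ofReal_pow hδ, mul_comm (ENNReal.ofReal Real.pi)]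
  congr 2
  exact ENNReal.ofReal_coe_nnreal.symm

end Tail

open Tail in
theorem tail : S_TAIL := by
  intro N μ hμ B hB hd L t δ hδ ht hL
  have hmar : ∀ (k : Fin (N + 1)) (S : Set ℂ), MeasurableSet S →
      Measure.pi μ {x : Fin (N + 1) → ℂ | x k ∈ S} = μ k S := by
    intro k S hS
    exact (measurePreserving_eval μ k).measure_preimage hS.nullMeasurableSet
  have h1 : Measure.pi μ {x : Fin (N + 1) → ℂ | ∃ k, L < ‖x k‖} ≤ ENNReal.ofReal ((N + 1) * t) := by
    have e : {x : Fin (N + 1) → ℂ | ∃ k, L < ‖x k‖} =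
        ⋃ k : Fin (N + 1), {x : Fin (N + 1) → ℂ | x k ∈ {y : ℂ | L < ‖y‖}} := by
      ext x; simp
    rw [e]
    refine (measure_iUnion_fintype_le _ _).trans ?_
    have hS : MeasurableSet {y : ℂ | L < ‖y‖} :=
      (isOpen_lt continuous_const continuous_norm).measurableSet
    calc ∑ k, Measure.pi μ {x : Fin (N + 1) → ℂ | x k ∈ {y : ℂ | L < ‖y‖}}
        ≤ ∑ _k : Fin (N + 1), ENNReal.ofReal t := Finset.sum_le_sum fun k _ => by
          rw [hmar k _ hS]; exact hL k
      _ = ENNReal.ofReal ((N + 1) * t) := by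
          rw [Finset.sum_const, Finset.card_univ, Fintype.card_fin, nsmul_eq_mul,
            ENNReal.ofReal_mul (by positivity)]
          congr 1
          rw [ENNReal.ofReal_add (by positivity) (by norm_num), ENNReal.ofReal_natCast,
            ENNReal.ofReal_one]
          push_cast
          rfl
  have h2 : Measure.pi μ {x : Fin (N + 1) → ℂ | ‖x (Fin.last N)‖ ≤ δ} ≤
      ENNReal.ofReal (B * (Real.pi * δ ^ 2)) := by
    have e : {x : Fin (N + 1) → ℂ | ‖x (Fin.last N)‖ ≤ δ} =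
        {x : Fin (N + 1) → ℂ | x (Fin.last N) ∈ Metric.closedBall (0 : ℂ) δ} := by
      ext x; simp
    rw [e, hmar _ _ Metric.isClosed_closedBall.measurableSet]
    exact disc_le B hB _ (hd _) 0 δ hδ
  have e : {x : Fin (N + 1) → ℂ | (∃ k, L < ‖x k‖) ∨ ‖x (Fin.last N)‖ ≤ δ} =
      {x : Fin (N + 1) → ℂ | ∃ k, L < ‖x k‖} ∪ {x : Fin (N + 1) → ℂ | ‖x (Fin.last N)‖ ≤ δ} := rfl
  rw [e]
  refine (measure_union_le _ _).trans ?_
  rw [ENNReal.ofReal_add (by positivity) (by positivity)]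
  exact add_le_add h1 h2

theorem cop (h : S_STEP) : S_COP := by
  intro n μ hμ B hB hd Q hQ
  have hroot : ∀ w : ℂ, Measure.pi μ {x : Fin (n + 1) → ℂ | (TT n x).eval w = 0} = 0 := by
    intro w
    obtain ⟨c, hc⟩ : ∃ c : (Fin (n + 1) → ℂ) → ℂ, c = fun x =>
      - ∑ k : Fin n, x k.succ * (bw n (k.succ : Fin (n+1)) : ℂ) * w ^ ((k.succ : Fin (n+1)) : ℕ) :=
      ⟨_, rfl⟩
    have hcm : Measurable c := by
      rw [hc]
      fun_prop
    have hcu : ∀ x a, c (Function.update x 0 a) = c x := by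
      intro x a
      rw [hc]
      simp only [neg_inj]
      refine Finset.sum_congr rfl fun k _ => ?_
      rw [Function.update_of_ne (Fin.succ_ne_zero k)]
    have h1 := h (n + 1) μ hμ B hB hd 0 c hcm hcu 0 le_rfl (fun _ => 1) measurable_const
      (fun _ _ => rfl)
    have h2 : {x : Fin (n + 1) → ℂ | (TT n x).eval w = 0} = {x | ‖x 0 - c x‖ ≤ 0} := by
      ext x
      simp only [Set.mem_setOf_eq, norm_le_zero_iff, hc, sub_neg_eq_add]
      rw [TT, eval_finsetSum, Fin.sum_univ_succ]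
      simp [bw]
    have hms : MeasurableSet {x : Fin (n + 1) → ℂ | ‖x 0 - c x‖ ≤ 0} :=
      measurableSet_le ((measurable_pi_apply 0).sub hcm).norm measurable_const
    rw [h2]
    simp only [mul_one] at h1
    rw [lintegral_indicator hms] at h1
    simpa using h1
  have hsub : {x : Fin (n + 1) → ℂ | ¬ IsCoprime (TT n x) Q} ⊆
      ⋃ w ∈ Q.roots.toFinset, {x : Fin (n + 1) → ℂ | (TT n x).eval w = 0} := by
    intro x hx
    rw [Set.mem_setOf_eq, Polynomial.isCoprime_iff_aeval_ne_zero_of_isAlgClosed ℂ ℂ] at hx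
    push Not at hx
    obtain ⟨w, hw1, hw2⟩ := hx
    rw [Set.mem_iUnion₂]
    refine ⟨w, ?_, ?_⟩
    · rw [Multiset.mem_toFinset, mem_roots hQ]
      simpa [IsRoot] using hw2
    · simpa using hw1
  refine measure_mono_null hsub ?_
  exact (measure_biUnion_null_iff (Finset.countable_toSet _)).2 fun w _ => hroot w

end Pool.Agent.TH642.RC
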