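import Mathlib
import Pool.Agent.TH642.RC.Defs

set_option autoImplicit false

/-!
# TAY (job 1328, helper642, MP_8f2e1c_an): Taylor at a double root
-/

open MeasureTheory Polynomial Filter Topology

namespace Pool.Agent.TH642.RC

theorem tay : S_TAY := by
  intro P Q z v z₀ v₀ δ η M Qb Qb' V ρ hδ hη hM h2 hQ hz hz₀ hv hzz hvv hP hP'
  set G : ℂ[X] := P - C v * Q with hG
  have e0 : ∀ w, G.eval w = P.eval w - v * Q.eval w := fun w => by simp [hG]
  have e1 : ∀ w, (derivative G).eval w = (derivative P).eval w - v * (derivative Q).eval w :=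
    fun w => by simp [hG]
  have e2 : ∀ w, (derivative (derivative G)).eval w =
      (derivative (derivative P)).eval w - v * (derivative (derivative Q)).eval w :=
    fun w => by simp [hG]
  have b2 : ∀ w : ℂ, ‖w‖ ≤ ρ → ‖(derivative (derivative G)).eval w‖ ≤ M := by
    intro w hw
    rw [e2]
    calc ‖(derivative (derivative P)).eval w - v * (derivative (derivative Q)).eval w‖
        ≤ ‖(derivative (derivative P)).eval w‖ + ‖v * (derivative (derivative Q)).eval w‖ :=
          norm_sub_le _ _
      _ = ‖(derivative (derivative P)).eval w‖ + ‖v‖ * ‖(derivative (derivative Q)).eval w‖ := by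
          rw [norm_mul]
      _ ≤ ‖(derivative (derivative P)).eval w‖ + V * ‖(derivative (derivative Q)).eval w‖ := by
          gcongr
      _ ≤ M := h2 w hw
  set S : Set ℂ := Metric.closedBall 0 ρ ∩ Metric.closedBall z δ with hS
  have hconv : Convex ℝ S := (convex_closedBall _ _).inter (convex_closedBall _ _)
  have hzS : z ∈ S := ⟨by simpa using hz, by simpa using hδ⟩
  have hz₀S : z₀ ∈ S := ⟨by simpa using hz₀, by
    rw [Metric.mem_closedBall, dist_comm, dist_eq_norm]; exact hzz⟩
  have g1 : ∀ w ∈ S, ‖(derivative G).eval w‖ ≤ M * δ := by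
    intro w hw
    have h := hconv.norm_image_sub_le_of_norm_hasDerivWithin_le
      (f := fun w => (derivative G).eval w) (f' := fun w => (derivative (derivative G)).eval w)
      (C := M) (fun x _ => ((derivative G).hasDerivAt x).hasDerivWithinAt)
      (fun x hx => b2 x (by simpa using hx.1)) hzS hw
    have h0 : (derivative G).eval z = 0 := by rw [e1, hP', sub_self]
    rw [h0, sub_zero] at h
    refine h.trans (mul_le_mul_of_nonneg_left ?_ hM)
    rw [← dist_eq_norm]
    exact hw.2
  have g0 : ‖G.eval z₀‖ ≤ M * δ * δ := by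
    have h := hconv.norm_image_sub_le_of_norm_hasDerivWithin_le
      (f := fun w => G.eval w) (f' := fun w => (derivative G).eval w)
      (C := M * δ) (fun x _ => (G.hasDerivAt x).hasDerivWithinAt)
      (fun x hx => g1 x hx) hzS hz₀S
    have h0 : G.eval z = 0 := by rw [e0, hP, sub_self]
    rw [h0, sub_zero] at h
    refine h.trans (mul_le_mul_of_nonneg_left ?_ (mul_nonneg hM hδ))
    rw [norm_sub_rev]
    exact hzz
  obtain ⟨q0, q1⟩ := hQ z₀ hz₀
  constructor
  · have e : P.eval z₀ - v₀ * Q.eval z₀ = G.eval z₀ + (v - v₀) * Q.eval z₀ := by rw [e0]; ring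
    rw [e]
    calc ‖G.eval z₀ + (v - v₀) * Q.eval z₀‖ ≤ ‖G.eval z₀‖ + ‖v - v₀‖ * ‖Q.eval z₀‖ := by
          rw [← norm_mul]; exact norm_add_le _ _
      _ ≤ M * δ * δ + η * Qb := by gcongr
      _ = δ ^ 2 * M + η * Qb := by ring
  · have e : (derivative P).eval z₀ - v₀ * (derivative Q).eval z₀ =
        (derivative G).eval z₀ + (v - v₀) * (derivative Q).eval z₀ := by rw [e1]; ring
    rw [e]
    calc ‖(derivative G).eval z₀ + (v - v₀) * (derivative Q).eval z₀‖
        ≤ ‖(derivative G).eval z₀‖ + ‖v - v₀‖ * ‖(derivative Q).eval z₀‖ := by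
          rw [← norm_mul]; exact norm_add_le _ _
      _ ≤ M * δ + η * Qb' := by
          have := g1 z₀ hz₀S
          gcongr
      _ = δ * M + η * Qb' := by ring

end Pool.Agent.TH642.RC
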