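import Pool.Agent.TH642.RC.Drb

set_option autoImplicit false

/-!
# RC-TRB: probability of the triple event (job 1330)
-/

open MeasureTheory Polynomial Filter Topology

namespace Pool.Agent.TH642.RC

theorem trb (h1 : S_SB3) (h2 : S_NET) (h3 : S_TAY) (h4 : S_EVAL) : S_TRB := by
  intro n hn μ hμ B hB hdens Q L V A A' V' ρ ρ' M Qb S g hL hρ hA' hAA hAV hVV hρρ hM hQb hS hg
    hg1 hH2 hHQ hHD
  have hV : 0 < V := by linarith
  have hV' : 0 < V' := by linarith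
  have hρ' : 0 < ρ' := by linarith
  obtain ⟨Qb', hQb'0, hQb'⟩ := exists_bound (derivative Q) ρ'
  -- bound for `P'` on the disc of radius `V'`
  set M₁ : ℝ := L * ∑ k ∈ Finset.range (n + 1), k * bw n k * V' ^ (k - 1) with hM₁
  have hM₁0 : 0 ≤ M₁ := by
    apply mul_nonneg hL
    apply Finset.sum_nonneg
    intro k _
    have : 0 ≤ bw n k := Real.sqrt_nonneg _
    positivity
  have hPder : ∀ x : Fin (n + 1) → ℂ, (∀ k, ‖x k‖ ≤ L) → ∀ w : ℂ, ‖w‖ ≤ V' →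
      ‖(derivative (TT n x)).eval w‖ ≤ M₁ := by
    intro x hx w hw
    refine ((h4 n x w).2.2 L hx).2.1.trans ?_
    apply mul_le_mul_of_nonneg_left _ hL
    apply Finset.sum_le_sum
    intro k _
    have : 0 ≤ bw n k := Real.sqrt_nonneg _
    gcongr
  -- uniform continuity of `g`
  obtain ⟨τ, hτ, hgτ⟩ : ∃ τ : ℝ, 0 < τ ∧ ∀ r ∈ Set.Icc A' V', ∀ s ∈ Set.Icc A' V', |r - s| < τ →
      |g r - g s| < 1 / 2 := by
    have huc := isCompact_Icc.uniformContinuousOn_of_continuous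
      (s := Set.Icc A' V') hg.continuousOn
    rw [Metric.uniformContinuousOn_iff] at huc
    obtain ⟨τ, hτ, h5⟩ := huc (1 / 2) (by norm_num)
    refine ⟨τ, hτ, fun r hr s hs hrs => ?_⟩
    have := h5 r hr s hs (by rw [Real.dist_eq]; exact hrs)
    rwa [Real.dist_eq] at this
  -- choice of `δ`
  have e1 := ev_lt (f := fun δ => δ) (by fun_prop) (c := ρ' - ρ) (by simpa using hρρ)
  have e3 := ev_lt (f := fun δ => δ) (by fun_prop) (c := ρ / 3) (by show (0 : ℝ) < ρ / 3; positivity)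
  have e5 := ev_lt (f := fun δ => δ * Qb') (by fun_prop) (c := Qb) (by simpa using hQb)
  have hz0 : (0 : ℝ) ^ 2 * M / Qb = 0 := by simp
  have e6 := ev_lt (f := fun δ => δ ^ 2 * M / Qb) (by fun_prop) (c := V / 3) (by
    show (0 : ℝ) ^ 2 * M / Qb < V / 3
    rw [hz0]; positivity)
  have e7 := ev_lt (f := fun δ => δ ^ 2 * M / Qb) (by fun_prop) (c := A - A') (by
    show (0 : ℝ) ^ 2 * M / Qb < A - A'
    rw [hz0]; linarith)
  have e8 := ev_lt (f := fun δ => δ ^ 2 * M / Qb) (by fun_prop) (c := V' - V) (by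
    show (0 : ℝ) ^ 2 * M / Qb < V' - V
    rw [hz0]; linarith)
  have e9 := ev_lt (f := fun δ => δ ^ 2 * M / Qb) (by fun_prop) (c := τ / 2) (by
    show (0 : ℝ) ^ 2 * M / Qb < τ / 2
    rw [hz0]; linarith)
  have e10 := ev_lt (f := fun δ => δ ^ 2 * M / Qb * M₁) (by fun_prop) (c := 1 / 2) (by
    show (0 : ℝ) ^ 2 * M / Qb * M₁ < 1 / 2
    rw [hz0]; norm_num)
  have e11 := ev_lt (f := fun δ => 2 * δ ^ 2 * M + (V' + ρ') * (2 * δ * M)) (by fun_prop)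
    (c := 1) (by simp)
  obtain ⟨δ, ⟨c1, c3, c5, c6, c7, c8, c9, c10, c11⟩, hδ⟩ :=
    ((e1.and (e3.and (e5.and (e6.and (e7.and (e8.and (e9.and (e10.and e11)))))))).and
      self_mem_nhdsWithin).exists
  have hδ : 0 < δ := hδ
  set η : ℝ := δ ^ 2 * M / Qb with hη
  have hη0 : 0 < η := by positivity
  have hηQ : η * Qb = δ ^ 2 * M := by rw [hη]; field_simp
  obtain ⟨Z₁, hZ₁, hZ₁'⟩ := h2 ρ δ hρ.le hδ
  obtain ⟨Z₂, hZ₂, hZ₂'⟩ := h2 V η hV.le hη0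
  have hc1 := card_net hρ hδ c3 hZ₁
  have hc2 := card_net hV hη0 c6 hZ₂
  have hb0 : bw n 0 = 1 := by simp [bw]
  have hb1 : 1 ≤ bw n 1 := by
    unfold bw
    rw [Nat.choose_one_right]
    rw [Real.one_le_sqrt]
    have : (1 : ℕ) ≤ n := by omega
    exact_mod_cast this
  -- the bound for one pair
  have hpair : ∀ z v : ℂ, (‖z‖ ≤ ρ' ∧ A' ≤ ‖v‖ ∧ ‖v‖ ≤ V') → Measure.pi μ
      {x : Fin (n + 1) → ℂ |
      ‖∑ k, pf n z k * x k + -(v * Q.eval z)‖ ≤ 2 * δ ^ 2 * M ∧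
      ‖∑ k, qf n z k * x k + -(v * (derivative Q).eval z)‖ ≤ 2 * δ * M ∧
      ‖∑ k, pf n v k * x k + 0‖ ≤ g ‖v‖ + 1} ≤
      ENNReal.ofReal (144 * Real.pi ^ 3 * B ^ 3 * δ ^ 6 * M ^ 4 * S) := by
    rintro z v ⟨hz, hv1, hv2⟩
    obtain ⟨l, hl2, hln, hSD⟩ := hHD z v hz hv1 hv2
    have hgv := hg1 ‖v‖
    -- the three indices
    set i : Fin (n + 1) := ⟨0, by omega⟩ with hi
    set j : Fin (n + 1) := ⟨1, by omega⟩ with hj
    set l' : Fin (n + 1) := ⟨l, by omega⟩ with hl'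
    have hij : i ≠ j := by simp [hi, hj]
    have hil : i ≠ l' := by
      rw [hi, hl']; intro h; rw [Fin.mk.injEq] at h; omega
    have hjl : j ≠ l' := by
      rw [hj, hl']; intro h; rw [Fin.mk.injEq] at h; omega
    have hpi : ∀ w : ℂ, pf n w i = 1 := by
      intro w
      show (bw n 0 : ℂ) * w ^ 0 = 1
      rw [hb0]; simp
    have hpj : ∀ w : ℂ, pf n w j = (bw n 1 : ℂ) * w := by
      intro w
      show (bw n 1 : ℂ) * w ^ 1 = _
      rw [pow_one]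
    have hqi : qf n z i = 0 := by
      show ((0 : ℕ) : ℂ) * (bw n 0 : ℂ) * z ^ (0 - 1) = 0
      simp
    have hqj : qf n z j = (bw n 1 : ℂ) := by
      show ((1 : ℕ) : ℂ) * (bw n 1 : ℂ) * z ^ (1 - 1) = _
      simp
    have hD : pf n v l' - 1 * pf n z l' - (v - z) * qf n z l' =
        (bw n l : ℂ) * (v ^ l - z ^ l - l * z ^ (l - 1) * (v - z)) := by
      show (bw n l : ℂ) * v ^ l - 1 * ((bw n l : ℂ) * z ^ l) -
        (v - z) * (((l : ℕ) : ℂ) * (bw n l : ℂ) * z ^ (l - 1)) = _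
      ring
    have hDn : ‖pf n v l' - 1 * pf n z l' - (v - z) * qf n z l'‖ =
        bw n l * ‖v ^ l - z ^ l - l * z ^ (l - 1) * (v - z)‖ := by
      have hbl : 0 ≤ bw n l := Real.sqrt_nonneg _
      rw [hD, norm_mul, Complex.norm_real, Real.norm_of_nonneg hbl]
    have hDpos : 0 < ‖pf n v l' - 1 * pf n z l' - (v - z) * qf n z l'‖ := by
      rw [hDn]
      have h5 : 0 ≤ bw n l * ‖v ^ l - z ^ l - l * z ^ (l - 1) * (v - z)‖ :=
        mul_nonneg (Real.sqrt_nonneg _) (norm_nonneg _)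
      rcases h5.eq_or_lt with h6 | h6
      · rw [← h6] at hSD
        nlinarith
      · exact h6
    have hD0 : pf n v l' - 1 * pf n z l' - (v - z) * qf n z l' ≠ 0 := norm_pos_iff.1 hDpos
    have hb1c : (bw n 1 : ℂ) ≠ 0 := by
      have : bw n 1 ≠ 0 := by linarith
      exact_mod_cast this
    refine (h1 (n + 1) μ hμ B hB hdens (pf n z) (qf n z) (pf n v) _ _ _ 1 (v - z) i j l' hij hil
      hjl (by rw [hpi]; exact one_ne_zero) hqi (by rw [hqj]; exact hb1c) (by rw [hpi, hpi, one_mul])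
      (by rw [hpj, hpj, hqj]; ring) hD0 _ _ _ (by positivity) (by positivity)
      (by linarith)).trans (ENNReal.ofReal_le_ofReal ?_)
    have hqjn : 1 ≤ ‖qf n z j‖ := by
      rw [hqj, Complex.norm_real, Real.norm_of_nonneg (by linarith)]; exact hb1
    rw [hpi, norm_one, div_one, one_mul]
    set D : ℝ := ‖pf n v l' - 1 * pf n z l' - (v - z) * qf n z l'‖ with hDd
    have hvz : ‖v - z‖ ≤ V' + ρ' := (norm_sub_le _ _).trans (by linarith)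
    have h6 : g ‖v‖ + 1 + 2 * δ ^ 2 * M + ‖v - z‖ * (2 * δ * M) ≤ 3 * g ‖v‖ := by
      have : ‖v - z‖ * (2 * δ * M) ≤ (V' + ρ') * (2 * δ * M) := by gcongr
      linarith
    have h7 : g ‖v‖ ^ 2 / D ^ 2 ≤ S := by
      rw [div_le_iff₀ (by positivity), hDn]; exact hSD
    have h8 : 2 * δ * M / ‖qf n z j‖ ≤ 2 * δ * M := div_le_self (by positivity) hqjn
    have h9 : 0 ≤ 2 * δ * M / ‖qf n z j‖ := by positivity
    calc (B * (Real.pi * (2 * δ ^ 2 * M) ^ 2)) * (B * (Real.pi * (2 * δ * M / ‖qf n z j‖) ^ 2)) *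
          (B * (Real.pi * ((g ‖v‖ + 1 + 2 * δ ^ 2 * M + ‖v - z‖ * (2 * δ * M)) / D) ^ 2))
        ≤ (B * (Real.pi * (2 * δ ^ 2 * M) ^ 2)) * (B * (Real.pi * (2 * δ * M) ^ 2)) *
          (B * (Real.pi * ((3 * g ‖v‖) / D) ^ 2)) := by gcongr
      _ = 144 * Real.pi ^ 3 * B ^ 3 * δ ^ 6 * M ^ 4 * (g ‖v‖ ^ 2 / D ^ 2) := by
          rw [div_pow]; ring
      _ ≤ 144 * Real.pi ^ 3 * B ^ 3 * δ ^ 6 * M ^ 4 * S := by gcongr
  -- the cover
  have hcov : ∀ x ∈ TR n Q L ρ A V g, ∃ z₀ ∈ Z₁, ∃ v₀ ∈ Z₂,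
      (‖z₀‖ ≤ ρ' ∧ A' ≤ ‖v₀‖ ∧ ‖v₀‖ ≤ V') ∧
      x ∈ {x : Fin (n + 1) → ℂ |
      ‖∑ k, pf n z₀ k * x k + -(v₀ * Q.eval z₀)‖ ≤ 2 * δ ^ 2 * M ∧
      ‖∑ k, qf n z₀ k * x k + -(v₀ * (derivative Q).eval z₀)‖ ≤ 2 * δ * M ∧
      ‖∑ k, pf n v₀ k * x k + 0‖ ≤ g ‖v₀‖ + 1} := by
    rintro x ⟨hx, z, v, hz, hv1, hv2, hr1, hr2, hr3⟩
    obtain ⟨z₀, hz₀, hzz⟩ := hZ₁' z hz
    obtain ⟨v₀, hv₀, hvv⟩ := hZ₂' v hv2
    have hn1 : ‖z₀‖ ≤ ‖z‖ + δ := by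
      have : z₀ = z - (z - z₀) := by ring
      calc ‖z₀‖ = ‖z - (z - z₀)‖ := by rw [← this]
        _ ≤ ‖z‖ + ‖z - z₀‖ := norm_sub_le _ _
        _ ≤ _ := by linarith
    have hn2 : |‖v‖ - ‖v₀‖| ≤ η := (abs_norm_sub_norm_le v v₀).trans hvv
    have hn2' := abs_le.1 hn2
    have hz₀ρ : ‖z₀‖ ≤ ρ' := by linarith
    have hv₀A : A' ≤ ‖v₀‖ := by linarith [hn2'.2]
    have hv₀V : ‖v₀‖ ≤ V' := by linarith [hn2'.1]
    have ht := h3 (TT n x) Q z v z₀ v₀ δ η M Qb Qb' V ρ' hδ.le hη0.le hM.le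
      (fun w hw => hH2 x hx w hw) (fun w hw => ⟨hHQ w hw, hQb' w hw⟩) (by linarith) hz₀ρ hv2 hzz
      hvv hr1 hr2
    obtain ⟨ht1, ht2⟩ := ht
    obtain ⟨he1, he2, -⟩ := h4 n x z₀
    obtain ⟨he3, -, -⟩ := h4 n x v₀
    refine ⟨z₀, hz₀, v₀, hv₀, ⟨hz₀ρ, hv₀A, hv₀V⟩, ?_, ?_, ?_⟩
    · show ‖∑ k : Fin (n + 1), ((bw n k : ℂ) * z₀ ^ (k : ℕ)) * x k + -(v₀ * Q.eval z₀)‖ ≤
        2 * δ ^ 2 * M
      rw [← he1, ← sub_eq_add_neg]
      refine ht1.trans (le_of_eq ?_)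
      rw [hηQ]; ring
    · show ‖∑ k : Fin (n + 1), (((k : ℕ) : ℂ) * (bw n k : ℂ) * z₀ ^ ((k : ℕ) - 1)) * x k +
        -(v₀ * (derivative Q).eval z₀)‖ ≤ 2 * δ * M
      rw [← he2, ← sub_eq_add_neg]
      refine ht2.trans ?_
      have : η * Qb' ≤ δ * M := by
        calc η * Qb' = (δ * Qb') * (δ * M) / Qb := by rw [hη]; ring
          _ ≤ Qb * (δ * M) / Qb := by gcongr
          _ = δ * M := by field_simp
      linarith
    · show ‖∑ k : Fin (n + 1), ((bw n k : ℂ) * v₀ ^ (k : ℕ)) * x k + 0‖ ≤ g ‖v₀‖ + 1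
      rw [← he3, add_zero]
      have hmv : ‖(TT n x).eval v₀ - (TT n x).eval v‖ ≤ M₁ * ‖v₀ - v‖ := by
        apply Convex.norm_image_sub_le_of_norm_hasDerivWithin_le (s := Metric.closedBall (0 : ℂ) V')
          (f := fun w => (TT n x).eval w) (f' := fun w => (derivative (TT n x)).eval w)
        · intro w _
          exact ((TT n x).hasDerivAt w).hasDerivWithinAt
        · intro w hw
          exact hPder x hx w (by rwa [mem_closedBall_zero_iff] at hw)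
        · exact convex_closedBall 0 V'
        · rw [mem_closedBall_zero_iff]; linarith
        · rw [mem_closedBall_zero_iff]; exact hv₀V
      have hvv' : ‖v₀ - v‖ ≤ η := by rw [norm_sub_rev]; exact hvv
      have h5 : M₁ * ‖v₀ - v‖ ≤ 1 / 2 := by
        calc M₁ * ‖v₀ - v‖ ≤ M₁ * η := by gcongr
          _ = η * M₁ := mul_comm _ _
          _ ≤ 1 / 2 := c10
      have h6 : g ‖v‖ ≤ g ‖v₀‖ + 1 / 2 := by
        have := hgτ ‖v‖ ⟨by linarith, by linarith⟩ ‖v₀‖ ⟨hv₀A, hv₀V⟩ (by linarith)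
        have := (abs_lt.1 this).2
        linarith
      calc ‖(TT n x).eval v₀‖ = ‖(TT n x).eval v + ((TT n x).eval v₀ - (TT n x).eval v)‖ := by
            ring_nf
        _ ≤ ‖(TT n x).eval v‖ + ‖(TT n x).eval v₀ - (TT n x).eval v‖ := norm_add_le _ _
        _ ≤ g ‖v₀‖ + 1 := by linarith
  refine (union_bound (Measure.pi μ) (TR n Q L ρ A V g) Z₁ Z₂ _ _ _ (by positivity) hcov
    hpair).trans (ENNReal.ofReal_le_ofReal ?_)
  have hpi : Real.pi ^ 3 ≤ 64 := by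
    have h9 := Real.pi_le_four
    have h10 := Real.pi_pos
    calc Real.pi ^ 3 ≤ 4 ^ 3 := by gcongr
      _ = 64 := by norm_num
  calc (Z₁.card : ℝ) * Z₂.card * (144 * Real.pi ^ 3 * B ^ 3 * δ ^ 6 * M ^ 4 * S)
      ≤ (9 * ρ ^ 2 / δ ^ 2) * (9 * V ^ 2 / η ^ 2) *
        (144 * Real.pi ^ 3 * B ^ 3 * δ ^ 6 * M ^ 4 * S) := by gcongr
    _ = 11664 * Real.pi ^ 3 * (B ^ 3 * ρ ^ 2 * V ^ 2 * Qb ^ 2 * M ^ 2 * S) := by
        rw [hη]
        field_simp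
        ring
    _ ≤ 11664 * 64 * (B ^ 3 * ρ ^ 2 * V ^ 2 * Qb ^ 2 * M ^ 2 * S) := by gcongr
    _ ≤ 10000000 * B ^ 3 * ρ ^ 2 * V ^ 2 * Qb ^ 2 * M ^ 2 * S := by
        have : 0 ≤ B ^ 3 * ρ ^ 2 * V ^ 2 * Qb ^ 2 * M ^ 2 * S := by positivity
        linarith

end Pool.Agent.TH642.RC
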