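import Pool.Agent.TH642.RC.Defs

set_option autoImplicit false

namespace Pool.Agent.TH642.RC

private lemma tri_aux (m : ℕ) (r s : ℝ) (hs : 0 ≤ s) (h : 10 * s ≤ r) :
    5 * ((m : ℝ) + 2) * s ^ (m + 1) ≤ r ^ (m + 1) := by
  have hr : 0 ≤ r := by linarith
  induction m with
  | zero => simp; linarith
  | succ m ih =>
    have h1 : 0 ≤ s ^ (m + 1) := by positivity
    have hm : (0 : ℝ) ≤ (m : ℝ) := Nat.cast_nonneg m
    have h2 : 5 * (((m + 1 : ℕ) : ℝ) + 2) * s ^ (m + 1) ≤ (3 / 2) * r ^ (m + 1) := by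
      push_cast
      nlinarith [mul_nonneg hm h1]
    have h3 : 0 ≤ r ^ (m + 1) := by positivity
    calc 5 * (((m + 1 : ℕ) : ℝ) + 2) * s ^ (m + 1 + 1)
        = (5 * (((m + 1 : ℕ) : ℝ) + 2) * s ^ (m + 1)) * s := by ring
      _ ≤ ((3 / 2) * r ^ (m + 1)) * (r / 10) := by
          apply mul_le_mul h2 (by linarith) hs (by positivity)
      _ ≤ r ^ (m + 1 + 1) := by
          have : 0 ≤ r ^ (m + 1) * r := by positivity
          rw [pow_succ r (m + 1)]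
          linarith

/-- **TRI** -/
theorem tri : S_TRI := by
  intro l z v hl h
  obtain ⟨m, rfl⟩ := Nat.exists_eq_add_of_le' hl
  set r := ‖v‖ with hr
  set s := ‖z‖ with hs
  have hs0 : 0 ≤ s := norm_nonneg z
  have hr0 : 0 ≤ r := norm_nonneg v
  have hA := tri_aux m r s hs0 h
  have hm : (0 : ℝ) ≤ (m : ℝ) := Nat.cast_nonneg m
  have hsm : 0 ≤ s ^ (m + 1) := by positivity
  have hrm : 0 ≤ r ^ (m + 1) := by positivity
  have h1 : s ^ (m + 2) ≤ r ^ (m + 2) / 100 := by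
    have : s ^ (m + 1) ≤ r ^ (m + 1) / 10 := by nlinarith [mul_nonneg hm hsm]
    calc s ^ (m + 2) = s ^ (m + 1) * s := by ring
      _ ≤ (r ^ (m + 1) / 10) * (r / 10) := by
          apply mul_le_mul this (by linarith) hs0 (by positivity)
      _ = r ^ (m + 2) / 100 := by ring
  have h2 : ((m : ℝ) + 2) * s ^ (m + 1) * (r + s) ≤ (22 / 100) * r ^ (m + 2) := by
    calc ((m : ℝ) + 2) * s ^ (m + 1) * (r + s)
        ≤ (r ^ (m + 1) / 5) * (11 / 10 * r) := by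
          apply mul_le_mul (by linarith) (by linarith) (by positivity) (by positivity)
      _ = (22 / 100) * r ^ (m + 2) := by ring
  have h3 : ‖z ^ (m + 2) + ((m + 2 : ℕ) : ℂ) * z ^ (m + 2 - 1) * (v - z)‖ ≤
      (23 / 100) * r ^ (m + 2) := by
    calc ‖z ^ (m + 2) + ((m + 2 : ℕ) : ℂ) * z ^ (m + 2 - 1) * (v - z)‖
        ≤ ‖z ^ (m + 2)‖ + ‖((m + 2 : ℕ) : ℂ) * z ^ (m + 2 - 1) * (v - z)‖ := norm_add_le _ _
      _ = s ^ (m + 2) + ((m : ℝ) + 2) * s ^ (m + 1) * ‖v - z‖ := by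
          rw [norm_mul, norm_mul, norm_pow, norm_pow, Complex.norm_natCast]
          push_cast
          rfl
      _ ≤ s ^ (m + 2) + ((m : ℝ) + 2) * s ^ (m + 1) * (r + s) := by
          have : ‖v - z‖ ≤ r + s := norm_sub_le v z
          have h4 : 0 ≤ ((m : ℝ) + 2) * s ^ (m + 1) := by positivity
          nlinarith [mul_le_mul_of_nonneg_left this h4]
      _ ≤ (23 / 100) * r ^ (m + 2) := by linarith
  have h4 : r ^ (m + 2) = ‖v ^ (m + 2)‖ := by rw [norm_pow]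
  have h5 : ‖v ^ (m + 2)‖ ≤ ‖v ^ (m + 2) - z ^ (m + 2) -
      ((m + 2 : ℕ) : ℂ) * z ^ (m + 2 - 1) * (v - z)‖ +
      ‖z ^ (m + 2) + ((m + 2 : ℕ) : ℂ) * z ^ (m + 2 - 1) * (v - z)‖ := by
    have := norm_add_le (v ^ (m + 2) - z ^ (m + 2) - ((m + 2 : ℕ) : ℂ) * z ^ (m + 2 - 1) * (v - z))
      (z ^ (m + 2) + ((m + 2 : ℕ) : ℂ) * z ^ (m + 2 - 1) * (v - z))
    have e : v ^ (m + 2) - z ^ (m + 2) - ((m + 2 : ℕ) : ℂ) * z ^ (m + 2 - 1) * (v - z) +
      (z ^ (m + 2) + ((m + 2 : ℕ) : ℂ) * z ^ (m + 2 - 1) * (v - z)) = v ^ (m + 2) := by ring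
    rwa [e] at this
  have h6 : 0 ≤ r ^ (m + 2) := by positivity
  linarith

end Pool.Agent.TH642.RC
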