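import Pool.Agent.TH642.RC.Asy
import Pool.Agent.TH642.RC.Dyn
import Pool.Agent.TH642.RC.Tail
import Pool.Agent.TH642.RC.Esc
import Pool.Agent.TH642.RC.Ind
import Pool.Agent.TH642.RC.Sum
import Pool.Agent.TH642.RC.Trb
import Pool.Agent.TH642.RC.Drb
import Pool.Agent.TH642.RC.Net
import Pool.Agent.TH642.RC.Tay
import Pool.Agent.TH642.RC.Eval
import Pool.Agent.TH642.RC.Tri
import Pool.Agent.TH642.RC.SB3
import Pool.Agent.TH642.RC.SB2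
import Pool.Agent.TH642.RC.Step

set_option autoImplicit false

open MeasureTheory Polynomial Filter Topology

namespace Pool.Agent.TH642.RC.M

theorem drb' : S_DRB := drb (sb2 step) net tay eval_tt

theorem trb' : S_TRB := trb (sb3 step) net tay eval_tt

/-- the trivial bound -/
theorem triv {ε K B : ℝ} {n : ℕ} (hn : 1 ≤ n) (h : (n : ℝ) ^ (1 - ε) ≤ K * B ^ 2)
    (μ : Fin (n + 1) → Measure ℂ) (_hμ : ∀ i, IsProbabilityMeasure (μ i)) (Q : ℂ[X]) :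
    Measure.pi μ {x | ¬ ((TT n x).natDegree = n ∧ Hyperbolic (TT n x) Q)} ≤
      ENNReal.ofReal (K * B ^ 2 / (n : ℝ) ^ (1 - ε)) := by
  have hn0 : (0 : ℝ) < n := by exact_mod_cast hn
  refine prob_le_one.trans ?_
  rw [← ENNReal.ofReal_one]
  apply ENNReal.ofReal_le_ofReal
  rw [one_le_div (Real.rpow_pos_of_pos hn0 _)]
  exact h

theorem pow_le_self {N ε : ℝ} (hN : 1 ≤ N) (hε : 0 < ε) : N ^ (1 - ε) ≤ N := by
  calc N ^ (1 - ε) ≤ N ^ (1 : ℝ) := Real.rpow_le_rpow_of_exponent_le hN (by linarith)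
    _ = N := Real.rpow_one _

theorem inv_le {N ε : ℝ} (hN : 1 ≤ N) (hε : 0 < ε) : 1 / N ≤ 1 / N ^ (1 - ε) := by
  have h1 := pow_le_self hN hε
  have h2 : 0 < N ^ (1 - ε) := Real.rpow_pos_of_pos (by linarith) _
  exact one_div_le_one_div_of_le h2 h1

theorem b0 {N ε B a : ℝ} (hN : 1 ≤ N) (hε : 0 < ε) (hB : 1 ≤ B) :
    (N + 1) * (|a| / N ^ 2) + B * (Real.pi * (1 / N) ^ 2) ≤
      (2 * |a| + Real.pi) * B ^ 2 * (1 / N ^ (1 - ε)) := by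
  have hN0 : 0 < N := by linarith
  have hpi := Real.pi_pos
  have hB2 : 1 ≤ B ^ 2 := by nlinarith
  have h1 : (N + 1) * (|a| / N ^ 2) ≤ 2 * |a| * B ^ 2 * (1 / N) := by
    have h2 : N + 1 ≤ 2 * N := by linarith
    calc (N + 1) * (|a| / N ^ 2) ≤ (2 * N) * (|a| / N ^ 2) := by gcongr
      _ = 2 * |a| * 1 * (1 / N) := by field_simp
      _ ≤ 2 * |a| * B ^ 2 * (1 / N) := by gcongr
  have h3 : B * (Real.pi * (1 / N) ^ 2) ≤ Real.pi * B ^ 2 * (1 / N) := by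
    have h4 : B ≤ B ^ 2 := by nlinarith
    have h5 : (1 / N) ^ 2 ≤ 1 / N := by
      rw [div_pow, one_pow]
      gcongr
      nlinarith
    calc B * (Real.pi * (1 / N) ^ 2) ≤ B ^ 2 * (Real.pi * (1 / N)) := by gcongr
      _ = _ := by ring
  have h6 := inv_le hN hε
  calc _ ≤ 2 * |a| * B ^ 2 * (1 / N) + Real.pi * B ^ 2 * (1 / N) := add_le_add h1 h3
    _ = (2 * |a| + Real.pi) * B ^ 2 * (1 / N) := by ring
    _ ≤ _ := by gcongr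

theorem b1 {N ε B L A M0 K Λ c : ℝ} (hN : 1 ≤ N) (hε : 0 < ε) (hL : L = N ^ (ε / 8))
    (hL1 : 1 ≤ L) (hA0 : 0 < A) (hA1 : A ≤ 1) (hM0 : 1 ≤ M0) (hK : 0 ≤ K) (hΛ : 0 ≤ Λ)
    (hA2 : A ^ 2 = N ^ (-1 + ε / 2)) :
    K * (B ^ 2 * A ^ 2 * (L + A * M0) ^ 2 * (M0 ^ 2 * c ^ 4)) * Λ ≤
      (K * ((1 + M0) ^ 2 * (M0 ^ 2 * c ^ 4)) * Λ) * B ^ 2 * (1 / N ^ (1 - ε)) := by
  have hN0 : 0 < N := by linarith
  have h1 : L + A * M0 ≤ L * (1 + M0) := by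
    have : A * M0 ≤ L * M0 := by
      have : A ≤ L := by linarith
      gcongr
    linarith
  have h2 : A ^ 2 * L ^ 2 ≤ 1 / N ^ (1 - ε) := by
    rw [hA2, hL, ← Real.rpow_natCast, ← Real.rpow_mul hN0.le, ← Real.rpow_add hN0,
      one_div, ← Real.rpow_neg hN0.le]
    apply Real.rpow_le_rpow_of_exponent_le hN
    push_cast
    linarith
  have hAM : 0 ≤ A * M0 := by positivity
  calc K * (B ^ 2 * A ^ 2 * (L + A * M0) ^ 2 * (M0 ^ 2 * c ^ 4)) * Λ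
      ≤ K * (B ^ 2 * A ^ 2 * (L * (1 + M0)) ^ 2 * (M0 ^ 2 * c ^ 4)) * Λ := by
        gcongr
    _ = (K * ((1 + M0) ^ 2 * (M0 ^ 2 * c ^ 4)) * Λ) * B ^ 2 * (A ^ 2 * L ^ 2) := by ring
    _ ≤ _ := by gcongr

theorem b2 {n : ℕ} (hn : 1 ≤ n) {ε B l b K D : ℝ} (hε : 0 < ε) (hl : 0 < l) (hK : 0 ≤ K)
    (hlb : l * b = 36) (hD : 0 < D) :
    K * (B ^ 2 * D) * (n : ℝ) ^ 33 * (Real.exp (-l * sN b n) / (1 - Real.exp (-l))) ≤
      (K * D / (1 - Real.exp (-l))) * B ^ 2 * (1 / (n : ℝ) ^ (1 - ε)) := by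
  have hn1 : (1 : ℝ) ≤ n := by exact_mod_cast hn
  have hn0 : (0 : ℝ) < n := by linarith
  have hq1 : Real.exp (-l) < 1 := by rw [Real.exp_lt_one_iff]; linarith
  have hq1' : 0 < 1 - Real.exp (-l) := by linarith
  have h1 : Real.exp (-l * sN b n) ≤ 1 / (n : ℝ) ^ 36 := by
    have h2 : 36 * Real.log n ≤ l * sN b n := by
      rw [← hlb, mul_assoc]
      exact mul_le_mul_of_nonneg_left (le_sN b n) hl.le
    have h3 : Real.exp (36 * Real.log n) = (n : ℝ) ^ 36 := by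
      have : (36 : ℝ) * Real.log n = ((36 : ℕ) : ℝ) * Real.log n := by norm_num
      rw [this, Real.exp_nat_mul, Real.exp_log hn0]
    rw [neg_mul, Real.exp_neg, ← h3, one_div]
    gcongr
  have h4 : (n : ℝ) ^ 33 * (1 / (n : ℝ) ^ 36) ≤ 1 / n := by
    rw [mul_one_div, div_le_div_iff₀ (by positivity) hn0, one_mul, ← pow_succ]
    exact pow_le_pow_right₀ hn1 (by norm_num)
  have h6 := inv_le hn1 hε
  calc K * (B ^ 2 * D) * (n : ℝ) ^ 33 * (Real.exp (-l * sN b n) / (1 - Real.exp (-l)))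
      ≤ K * (B ^ 2 * D) * (n : ℝ) ^ 33 * ((1 / (n : ℝ) ^ 36) / (1 - Real.exp (-l))) := by gcongr
    _ = (K * D / (1 - Real.exp (-l))) * B ^ 2 * ((n : ℝ) ^ 33 * (1 / (n : ℝ) ^ 36)) := by ring
    _ ≤ (K * D / (1 - Real.exp (-l))) * B ^ 2 * (1 / n) := by gcongr
    _ ≤ _ := by gcongr

theorem b3 {n : ℕ} (hn : 1 ≤ n) {ε B A b K D κ : ℝ} (hε : 0 < ε) (hBn : B ≤ n)
    (hb0 : 0 ≤ b) (hK : 0 ≤ K)
    (hD : 0 ≤ D) (hκ : 0 < κ) (hA0 : 0 < A) (hA1 : A ≤ 1) (hnA : (n : ℝ) * A ^ 2 = (n : ℝ) ^ (ε / 2))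
    (hlast : (n : ℝ) ^ (23 + 2 * b) * Real.exp (-(κ / 8) * (n : ℝ) ^ (ε / 2)) < 1) :
    K * B ^ 3 * D * (n : ℝ) ^ 21 * Real.exp (2 * (sN b n + 1)) * KK n (A / 2) ^ (-κ) ≤
      (K * D * Real.exp 8) * B ^ 2 * (1 / (n : ℝ) ^ (1 - ε)) := by
  have hn1 : (1 : ℝ) ≤ n := by exact_mod_cast hn
  have hn0 : (0 : ℝ) < n := by linarith
  have h1 : Real.exp (2 * (sN b n + 1)) ≤ Real.exp 8 * (n : ℝ) ^ (2 * b) := by
    have h2 := sN_le hb0 hn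
    have h3 : Real.exp (2 * (sN b n + 1)) ≤ Real.exp (8 + Real.log n * (2 * b)) := by
      apply Real.exp_le_exp.2
      linarith
    refine h3.trans (le_of_eq ?_)
    rw [Real.exp_add, Real.rpow_def_of_pos hn0]
  have h4 : KK n (A / 2) ^ (-κ) ≤ Real.exp (-(κ / 8) * (n : ℝ) ^ (ε / 2)) := by
    have h5 : Real.exp ((n : ℝ) ^ (ε / 2) / 8) ≤ KK n (A / 2) := by
      have h6 := exp_le_pow (a := (A / 2) ^ 2) (by positivity) (by nlinarith) n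
      have h7 : (n : ℝ) * (A / 2) ^ 2 / 2 = (n : ℝ) ^ (ε / 2) / 8 := by
        rw [← hnA]; ring
      rw [h7] at h6
      exact h6
    rw [Real.rpow_neg (KK_pos _ _).le]
    have h8 : Real.exp (κ / 8 * (n : ℝ) ^ (ε / 2)) ≤ KK n (A / 2) ^ κ := by
      refine le_trans (le_of_eq ?_) (Real.rpow_le_rpow (Real.exp_pos _).le h5 hκ.le)
      rw [← Real.exp_mul]
      congr 1
      ring
    rw [neg_mul, Real.exp_neg]
    gcongr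
  have h9 : B ^ 3 ≤ B ^ 2 * n := by
    calc B ^ 3 = B ^ 2 * B := by ring
      _ ≤ B ^ 2 * n := by gcongr
  have h10 : (n : ℝ) * ((n : ℝ) ^ 21 * (n : ℝ) ^ (2 * b) *
      Real.exp (-(κ / 8) * (n : ℝ) ^ (ε / 2))) ≤ 1 / n := by
    rw [le_div_iff₀ hn0]
    refine le_trans (le_of_eq ?_) hlast.le
    rw [Real.rpow_add hn0]
    have : (n : ℝ) ^ (23 : ℝ) = (n : ℝ) ^ 23 := by
      rw [← Real.rpow_natCast]; norm_num
    rw [this]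
    ring
  have h6 := inv_le hn1 hε
  have hKK := KK_pos n (A / 2)
  calc K * B ^ 3 * D * (n : ℝ) ^ 21 * Real.exp (2 * (sN b n + 1)) * KK n (A / 2) ^ (-κ)
      ≤ K * (B ^ 2 * n) * D * (n : ℝ) ^ 21 *
        (Real.exp 8 * (n : ℝ) ^ (2 * b)) * Real.exp (-(κ / 8) * (n : ℝ) ^ (ε / 2)) := by
        gcongr
    _ = (K * D * Real.exp 8) * B ^ 2 * ((n : ℝ) * ((n : ℝ) ^ 21 * (n : ℝ) ^ (2 * b) *
        Real.exp (-(κ / 8) * (n : ℝ) ^ (ε / 2)))) := by ring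
    _ ≤ (K * D * Real.exp 8) * B ^ 2 * (1 / n) := by gcongr
    _ ≤ _ := by gcongr

/-- the conditions on `n` -/
def Big (θ M0 ε b κ : ℝ) (n : ℕ) : Prop :=
  4 ≤ n ∧ 2 ≤ (1 - θ) * n ∧ 8 * M0 ≤ n ∧
      8 * ((sN b n : ℝ) + 1) ≤ (n : ℝ) ^ (1 : ℝ) ∧ 800 * ((sN b n : ℝ) + 1) ≤ (n : ℝ) ^ (ε / 2) ∧
      ((n : ℝ) + 1) * n < (1 + ((n : ℝ) ^ (-1 / 2 + (ε / 2) / 2) / 2) ^ 2) ^ (n - 1) ∧
      (n : ℝ) ^ (23 + 2 * b) * Real.exp (-(κ / 8) * (n : ℝ) ^ (ε / 2)) < 1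

theorem ev_Big {θ M0 ε b κ : ℝ} (hθ1 : θ < 1) (hε : 0 < ε) (hε1 : ε < 1) (hb0 : 0 ≤ b)
    (hκ : 0 < κ) : ∀ᶠ n : ℕ in atTop, Big θ M0 ε b κ n := by
  unfold Big
  refine (eventually_ge_atTop 4).and ?_
  refine Eventually.and ?_ ?_
  · have h1 : Tendsto (fun n : ℕ => (1 - θ) * (n : ℝ)) atTop atTop :=
      tendsto_natCast_atTop_atTop.const_mul_atTop (by linarith)
    exact h1.eventually_ge_atTop 2
  refine Eventually.and ?_ ?_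
  · exact tendsto_natCast_atTop_atTop.eventually_ge_atTop (8 * M0)
  exact (ev_sN (by norm_num) hb0 one_pos).and ((ev_sN (by norm_num) hb0 (by positivity)).and
    ((ev_big (by positivity) (by linarith)).and (ev_exp (by positivity) (by positivity))))

/-- the bound for large `n` -/
theorem large_n {θ M0 ε σ c b κ a : ℝ} {p : ℕ} (hθ0 : 0 ≤ θ) (hθ1 : θ < 1) (hM0 : 1 ≤ M0)
    (hε : 0 < ε) (hε1 : ε < 1) (hσ : 1 < σ) (hσθ : 0 < lam σ θ) (hc : 1 ≤ c) (hS : Sums σ c)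
    (hb0 : 0 ≤ b) (hlb : lam σ θ * b = 36) (hκdef : κ = 1 - σ * θ) (hκ : 0 < κ)
    (hp' : 16 ≤ p * ε) {n : ℕ} (hn : 1 ≤ n) {B : ℝ} (hB : 1 ≤ B) (hBn : B ≤ n) {m : ℕ} {Q : ℂ[X]}
    (hm : (m : ℝ) ≤ θ * n) (hQ0 : Q ≠ 0) (hdeg : Q.natDegree ≤ m)
    (hcoef : ∀ k, ‖Q.coeff k‖ ≤ M0 * bw m k) (μ : Fin (n + 1) → Measure ℂ)
    (hμ : ∀ i, IsProbabilityMeasure (μ i)) (hd : ∀ i, Dens B (μ i))
    (htl : ∀ (i : Fin (n + 1)) (t : ℝ), 0 < t → μ i {y | t < ‖y‖} ≤ ENNReal.ofReal (a / t ^ p))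
    (hbig : Big θ M0 ε b κ n) :
    Measure.pi μ {x | ¬ ((TT n x).natDegree = n ∧ Hyperbolic (TT n x) Q)} ≤
      ENNReal.ofReal (((2 * |a| + Real.pi) + (C1 * ((1 + M0) ^ 2 * (M0 ^ 2 * c ^ 4)) *
        Lam (lam σ θ)) + (C2 * (M0 ^ 4 * c ^ 4) / (1 - Real.exp (-lam σ θ))) +
        (C3 * (M0 ^ 2 * c ^ 2) ^ 3 * Real.exp 8)) * B ^ 2 / (n : ℝ) ^ (1 - ε)) := by
  have hn1 : (1 : ℝ) ≤ n := by exact_mod_cast hn
  have hn0 : (0 : ℝ) < n := by linarith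
  obtain ⟨hn4, hn2, h8, hs8, hs800, hbig', hlast⟩ := hbig
  rw [Real.rpow_one] at hs8
  have h : Ctx n m Q M0 θ := ⟨hn, hm, hdeg, hcoef, hM0, hθ0, hθ1⟩
  have hm2 : m + 2 ≤ n := by
    have : (m : ℝ) + 2 ≤ n := by nlinarith
    exact_mod_cast this
  -- parameters
  obtain ⟨L, hL⟩ : ∃ L : ℝ, L = (n : ℝ) ^ (ε / 8) := ⟨_, rfl⟩
  obtain ⟨A, hA⟩ : ∃ A : ℝ, A = (n : ℝ) ^ (-1 / 2 + (ε / 2) / 2) := ⟨_, rfl⟩
  have hL0 : 0 < L := by rw [hL]; positivity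
  have hL1 : 1 ≤ L := by rw [hL]; exact Real.one_le_rpow hn1 (by positivity)
  have hLs : L ≤ √n := by
    rw [hL, Real.sqrt_eq_rpow]
    exact Real.rpow_le_rpow_of_exponent_le hn1 (by linarith)
  have hA0 : 0 < A := by rw [hA]; positivity
  have hA1 : A ≤ 1 := by
    rw [hA]; exact Real.rpow_le_one_of_one_le_of_nonpos hn1 (by linarith)
  have hA2 : A ^ 2 = (n : ℝ) ^ (-1 + ε / 2) := by
    rw [hA, ← Real.rpow_natCast, ← Real.rpow_mul hn0.le]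
    congr 1
    push_cast
    ring
  have hnA : (n : ℝ) * A ^ 2 = (n : ℝ) ^ (ε / 2) := by
    rw [hA2, ← Real.rpow_one_add' hn0.le]
    · congr 1; ring
    · linarith
  have hLp : (n : ℝ) ^ 2 ≤ L ^ p := by
    rw [hL, ← Real.rpow_natCast, ← Real.rpow_natCast, ← Real.rpow_mul hn0.le]
    apply Real.rpow_le_rpow_of_exponent_le hn1
    push_cast
    linarith
  have htail : ∀ i, μ i {y | L < ‖y‖} ≤ ENNReal.ofReal (|a| / (n : ℝ) ^ 2) := by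
    intro i
    refine (htl i L hL0).trans (ENNReal.ofReal_le_ofReal ?_)
    calc a / L ^ p ≤ |a| / L ^ p := by
          gcongr
          exact le_abs_self _
      _ ≤ |a| / (n : ℝ) ^ 2 := by gcongr
  have hs8' : 8 * (sN b n + 1) ≤ n := by exact_mod_cast hs8
  have key := core_bound drb' trb' ind_bound eval_tt qb tri dyn esc tail (cop step) hσ hσθ hc hS h hQ0
    hn4 hm2 h8 μ (by linarith : (0:ℝ) ≤ B) hd hL0.le hLs hA0 hA1 (by positivity) htail (sN b n)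
    (two_le_sN b n) hs8' (by rw [hnA]; exact hs800) (by rw [hA]; exact hbig')
  refine key.trans (ENNReal.ofReal_le_ofReal ?_)
  have e0 := b0 (a := a) hn1 hε hB
  have e1 := b1 (B := B) (c := c) hn1 hε hL hL1 hA0 hA1 hM0 C1_pos.le (Lam_pos hσθ).le hA2
  have e2 := b2 (B := B) (D := M0 ^ 4 * c ^ 4) hn hε hσθ C2_pos.le hlb (by positivity)
  have e3 := b3 (D := (M0 ^ 2 * c ^ 2) ^ 3) hn hε hBn hb0 C3_pos.le
    (by positivity) hκ hA0 hA1 hnA hlast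
  rw [← hκdef]
  have e4 := add_le_add (add_le_add (add_le_add e0 e1) e2) e3
  refine e4.trans (le_of_eq ?_)
  ring

theorem main_bound (θ M0 ε : ℝ) (hθ0 : 0 ≤ θ) (hθ1 : θ < 1) (hM0 : 1 ≤ M0) (hε : 0 < ε)
    (Mp : ℕ → ℝ) :
    ∃ K : ℝ, 0 < K ∧ ∀ n : ℕ, 1 ≤ n → ∀ B : ℝ, 1 ≤ B → ∀ (m : ℕ) (Q : ℂ[X]), (m : ℝ) ≤ θ * n →
      Q ≠ 0 → Q.natDegree ≤ m → (∀ k, ‖Q.coeff k‖ ≤ M0 * bw m k) →
      ∀ μ : Fin (n + 1) → Measure ℂ, (∀ i, IsProbabilityMeasure (μ i)) → (∀ i, Dens B (μ i)) →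
      (∀ (i : Fin (n + 1)) (p : ℕ) (t : ℝ), 0 < t →
        μ i {y | t < ‖y‖} ≤ ENNReal.ofReal (Mp p / t ^ p)) →
      Measure.pi μ {x | ¬ ((TT n x).natDegree = n ∧ Hyperbolic (TT n x) Q)} ≤
        ENNReal.ofReal (K * B ^ 2 / (n : ℝ) ^ (1 - ε)) := by
  rcases le_or_gt 1 ε with hε1 | hε1
  · refine ⟨1, one_pos, fun n hn B hB m Q _ _ _ _ μ hμ _ _ => triv hn ?_ μ hμ Q⟩
    have hn1 : (1 : ℝ) ≤ n := by exact_mod_cast hn
    have h1 : (n : ℝ) ^ (1 - ε) ≤ 1 := Real.rpow_le_one_of_one_le_of_nonpos hn1 (by linarith)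
    nlinarith
  -- constants
  obtain ⟨σ, hσdef⟩ : ∃ σ : ℝ, σ = 1 + (1 - θ) / 4 := ⟨_, rfl⟩
  have hσ : 1 < σ := by linarith
  have hσθ : 0 < lam σ θ := by
    unfold lam
    rw [hσdef]
    nlinarith
  obtain ⟨c, hc, hS'⟩ := sum_bounds σ hσ
  have hS : Sums σ c := hS'
  obtain ⟨b, hb⟩ : ∃ b : ℝ, b = 36 / lam σ θ := ⟨_, rfl⟩
  have hb0 : 0 ≤ b := by rw [hb]; positivity
  have hlb : lam σ θ * b = 36 := by rw [hb]; field_simp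
  obtain ⟨κ, hκdef⟩ : ∃ κ : ℝ, κ = 1 - σ * θ := ⟨_, rfl⟩
  have hκ : 0 < κ := by
    unfold lam at hσθ
    rw [hκdef]
    nlinarith
  obtain ⟨p, hp⟩ := exists_nat_ge (16 / ε)
  have hp' : 16 ≤ p * ε := by rwa [div_le_iff₀ hε] at hp
  obtain ⟨N0, hN0⟩ := eventually_atTop.1 (ev_Big (M0 := M0) hθ1 hε hε1 hb0 hκ)
  obtain ⟨K1, hK1⟩ : ∃ K1 : ℝ, K1 = ((2 * |Mp p| + Real.pi) +
      (C1 * ((1 + M0) ^ 2 * (M0 ^ 2 * c ^ 4)) *
        Lam (lam σ θ)) + (C2 * (M0 ^ 4 * c ^ 4) / (1 - Real.exp (-lam σ θ))) +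
        (C3 * (M0 ^ 2 * c ^ 2) ^ 3 * Real.exp 8)) := ⟨_, rfl⟩
  have hK1' : 0 ≤ K1 := by
    have hq1 : Real.exp (-lam σ θ) < 1 := by rw [Real.exp_lt_one_iff]; linarith
    have hq1' : 0 < 1 - Real.exp (-lam σ θ) := by linarith
    have hC1 := C1_pos
    have hC2 := C2_pos
    have hC3 := C3_pos
    have hLam := Lam_pos hσθ
    have hpi := Real.pi_pos
    rw [hK1]
    positivity
  have hN0' : (0 : ℝ) ≤ N0 := Nat.cast_nonneg _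
  refine ⟨K1 + (N0 + 1), by positivity, ?_⟩
  intro n hn B hB m Q hm hQ0 hdeg hcoef μ hμ hd htl
  have hn1 : (1 : ℝ) ≤ n := by exact_mod_cast hn
  have hn0 : (0 : ℝ) < n := by linarith
  have hpow1 : (n : ℝ) ^ (1 - ε) ≤ n := pow_le_self hn1 hε
  have hpow0 : 0 < (n : ℝ) ^ (1 - ε) := Real.rpow_pos_of_pos hn0 _
  have hB2 : 1 ≤ B ^ 2 := by nlinarith
  rcases Nat.lt_or_ge n N0 with hlt | hge
  · apply triv hn _ μ hμ Q
    have h1 : (n : ℝ) < N0 := by exact_mod_cast hlt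
    have h2 : (n : ℝ) ≤ K1 + (N0 + 1) := by linarith
    nlinarith
  rcases lt_or_ge (n : ℝ) B with hBn | hBn
  · apply triv hn _ μ hμ Q
    have h2 : 1 ≤ K1 + (N0 + 1) := by linarith
    have h3 : (n : ℝ) ≤ B ^ 2 := by nlinarith
    nlinarith
  have key := large_n (a := Mp p) hθ0 hθ1 hM0 hε hε1 hσ hσθ hc hS hb0 hlb hκdef hκ hp' hn hB hBn hm
    hQ0 hdeg hcoef μ hμ hd (fun i t ht => htl i p t ht) (hN0 n hge)
  rw [← hK1] at key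
  refine key.trans (ENNReal.ofReal_le_ofReal ?_)
  have hKK : K1 ≤ K1 + (N0 + 1) := by linarith
  exact div_le_div_of_nonneg_right (mul_le_mul_of_nonneg_right hKK (by positivity)) hpow0.le

end Pool.Agent.TH642.RC.M
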