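import Pool.Agent.TH642.RC.Defs
import Pool.Agent.TH642.RC.Aff

set_option autoImplicit false

open MeasureTheory

namespace Pool.Agent.TH642.RC

theorem sb2 (h : S_STEP) : S_SB2 := by
  intro N μ hμ B hB hD p q u w i j hij hpi hdet α β hα hβ
  have hr : ∀ k, (fun k => p i * q k - q i * p k) k = p i * q k - q i * p k := fun k => rfl
  set r : Fin N → ℂ := fun k => p i * q k - q i * p k with hrdef
  have hri : r i = 0 := by rw [hr]; ring
  have hrj : r j = p i * q j - p j * q i := by rw [hr]; ring
  have hrj0 : r j ≠ 0 := by rw [hrj]; exact hdet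
  set t : ℂ := p i * w - q i * u with ht
  have hform : ∀ x : Fin N → ℂ, ∑ k, r k * x k + t =
      p i * (∑ k, q k * x k + w) - q i * (∑ k, p k * x k + u) := by
    intro x
    rw [mul_add, mul_add, Finset.mul_sum, Finset.mul_sum, ht]
    have h1 : ∑ k, r k * x k = ∑ k, p i * (q k * x k) - ∑ k, q i * (p k * x k) := by
      rw [← Finset.sum_sub_distrib]
      apply Finset.sum_congr rfl
      intro k _
      rw [hr]
      ring
    rw [h1]
    ring
  have hβ' : 0 ≤ ‖p i‖ * β + ‖q i‖ * α := by positivity
  set A : Set (Fin N → ℂ) := {x | ‖∑ k, p k * x k + u‖ ≤ α ∧ ‖∑ k, q k * x k + w‖ ≤ β} with hA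
  have hAm : MeasurableSet A := by
    have hf : ∀ (a : Fin N → ℂ) (s : ℂ), Measurable (fun x : Fin N → ℂ => ‖∑ k, a k * x k + s‖) := by
      intro a s
      have h : Measurable (fun x : Fin N → ℂ => ∑ k, a k * x k) :=
        Finset.measurable_fun_sum _ (fun k _ => measurable_const.mul (measurable_pi_apply k))
      exact (h.add_const s).norm
    exact (measurableSet_le (hf p u) measurable_const).inter
      (measurableSet_le (hf q w) measurable_const)
  have h1 : Measure.pi μ A ≤ ∫⁻ x, ind p u i (α / ‖p i‖) x *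
      ind r t j ((‖p i‖ * β + ‖q i‖ * α) / ‖r j‖) x ∂(Measure.pi μ) := by
    rw [← lintegral_indicator_one hAm]
    apply lintegral_mono
    intro x
    by_cases hx : x ∈ A
    · rw [Set.indicator_of_mem hx]
      have hx' := hx
      rw [hA, Set.mem_ofPred_eq] at hx'
      beta_reduce
      rw [ind_eq_one p u i hpi α x hx'.1, ind_eq_one r t j hrj0 _ x _]
      · simp
      · rw [hform]
        refine (norm_sub_le _ _).trans ?_
        rw [norm_mul, norm_mul]
        have e1 := hx'.1
        have e2 := hx'.2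
        gcongr
    · rw [Set.indicator_of_notMem hx]
      exact zero_le
  have h2 := ind_step h μ hμ B hB hD p u i (α / ‖p i‖) (by positivity)
    (ind r t j ((‖p i‖ * β + ‖q i‖ * α) / ‖r j‖)) (ind_meas _ _ _ _)
    (fun x b => ind_update r t i j hrj0 hri _ x b)
  have h3 := ind_step h μ hμ B hB hD r t j ((‖p i‖ * β + ‖q i‖ * α) / ‖r j‖) (by positivity)
    (fun _ => 1) measurable_const (fun _ _ => rfl)
  have h4 : ∫⁻ _x : Fin N → ℂ, (1 : ENNReal) ∂(Measure.pi μ) = 1 := by
    rw [lintegral_const, measure_univ, mul_one]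
  rw [h4, mul_one] at h3
  simp only [mul_one] at h3
  refine h1.trans (h2.trans ?_)
  rw [ENNReal.ofReal_mul (p := B * (Real.pi * (α / ‖p i‖) ^ 2)) (by positivity), ← hrj]
  exact mul_le_mul_right h3 _

end Pool.Agent.TH642.RC
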