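import Pool.Agent.TH642.RC.Uni

set_option autoImplicit false

open MeasureTheory Polynomial Filter Topology

namespace Pool.Agent.TH642.RC.M

theorem choose_two {n : ℕ} (hn : 2 ≤ n) (hI : S_IND) {a r : ℝ} (ha : 0 < a) (har : a ≤ r)
    (hbig : ((n : ℝ) + 1) * n < (1 + a ^ 2) ^ (n - 1)) :
    ∃ l, 2 ≤ l ∧ l ≤ n ∧ KK n r ≤ (n + 1) * ((n.choose l : ℝ) * r ^ (2 * l)) := by
  have hr : 0 < r := lt_of_lt_of_le ha har
  obtain ⟨i, hin, hK⟩ := (hI n r hr.le).1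
  refine ⟨i, ?_, hin, hK⟩
  by_contra hcon
  have hn2 : (2 : ℝ) ≤ n := by exact_mod_cast hn
  have h1 : (1 + a ^ 2) ^ (n - 1) ≤ (1 + r ^ 2) ^ (n - 1) := by gcongr
  have h2 : KK n r = (1 + r ^ 2) * (1 + r ^ 2) ^ (n - 1) := by
    unfold KK
    rw [← pow_succ']
    congr 1
    omega
  have h3 : ((n : ℝ) + 1) * n < (1 + r ^ 2) ^ (n - 1) := lt_of_lt_of_le hbig h1
  rcases (by omega : i = 0 ∨ i = 1) with h0 | h0
  · rw [h0] at hK
    simp at hK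
    have hG : 0 < (1 + r ^ 2) ^ (n - 1) := by positivity
    have h4 : (1 + r ^ 2) ^ (n - 1) ≤ KK n r := by
      rw [h2]
      nlinarith [sq_nonneg r]
    nlinarith
  · rw [h0] at hK
    simp at hK
    have hr2 : 0 < r ^ 2 := by positivity
    rw [h2] at hK
    nlinarith

noncomputable def C3 : ℝ := 10000000 * 32

theorem C3_pos : 0 < C3 := by unfold C3; norm_num

theorem tre_bound (hT : S_TRB) (hI : S_IND) (hE : S_EVAL) (hQ : S_QB) (hTRI : S_TRI)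
    {σ c θ : ℝ} (hσ : 1 < σ)
    (hσθ : 0 < lam σ θ) (hc : 1 ≤ c) (hS : Sums σ c) {n m : ℕ} {Q : ℂ[X]} {M0 : ℝ}
    (h : Ctx n m Q M0 θ) (μ : Fin (n + 1) → Measure ℂ) [∀ i, IsProbabilityMeasure (μ i)] {B : ℝ}
    (hB : 0 ≤ B) (hd : ∀ i, Dens B (μ i)) {L : ℝ} (hL : 0 ≤ L) (hLn : L ≤ (n : ℝ) ^ 3 * M0)
    {A : ℝ} (hA : 0 < A) (hA1 : A ≤ 1) (s1 : ℕ) (hs0 : 1 ≤ s1) (hs : 8 * (s1 + 1) ≤ n)
    (hAn : 800 * (s1 + 1 : ℝ) ≤ n * A ^ 2)
    (hbig : ((n : ℝ) + 1) * n < (1 + (A / 2) ^ 2) ^ (n - 1)) :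
    Measure.pi μ (TR n Q L (rad n s1) A ((n : ℝ) ^ 3)
        (fun r => (n : ℝ) ^ 3 * (M0 * c * KK n r ^ (σ * θ / 2)))) ≤
      ENNReal.ofReal (C3 * B ^ 3 * (M0 ^ 2 * c ^ 2) ^ 3 * (n : ℝ) ^ 21 * Real.exp (2 * (s1 + 1)) *
        KK n (A / 2) ^ (-(1 - σ * θ))) := by
  have hn := h.hn
  have hn2 : 2 ≤ n := by omega
  have hn0 : (0 : ℝ) < n := by exact_mod_cast hn
  have hn1 : (1 : ℝ) ≤ n := by exact_mod_cast hn
  have hM0 := h.hM0
  have hM00 : 0 < M0 := by linarith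
  have hθ := h.hθ0
  have hs1 : (1 : ℝ) ≤ s1 := by exact_mod_cast hs0
  have hsn : (8 : ℝ) * (s1 + 1) ≤ n := by exact_mod_cast hs
  have hlam : σ * (1 + θ) < 2 := by unfold lam at hσθ; linarith
  have hσθ1 : σ * θ < 1 := by nlinarith
  have hρpos : 0 < rad n s1 := by
    have := rad_lt hn le_rfl (show (0:ℝ) < (s1:ℝ) by linarith)
    rw [rad_zero] at this
    exact this
  have hρ2 : rad n (s1 + 1) ^ 2 ≤ 2 * ((s1 + 1) / n) := rad_sq_le hn (by linarith) (by linarith)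
  have hρ1 : rad n s1 ^ 2 ≤ 1 := by
    have h1 : rad n s1 ^ 2 ≤ 2 * (s1 / n) := rad_sq_le hn (by linarith) (by linarith)
    refine h1.trans ?_
    rw [← mul_div_assoc, div_le_one hn0]
    linarith
  have h20 : 20 * rad n (s1 + 1) ≤ A := by
    refine (abs_le_of_sq_le_sq' ?_ hA.le).2
    calc (20 * rad n (s1 + 1)) ^ 2 = 400 * rad n (s1 + 1) ^ 2 := by ring
      _ ≤ 400 * (2 * (((s1 : ℝ) + 1) / n)) := by gcongr
      _ = (800 * ((s1 : ℝ) + 1)) / n := by ring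
      _ ≤ A ^ 2 := by rw [div_le_iff₀ hn0]; linarith
  have hn3 : (1 : ℝ) ≤ (n : ℝ) ^ 3 := one_le_pow₀ hn1
  have hKA : 0 < KK n (A / 2) := KK_pos _ _
  have key := hT n hn2 μ inferInstance B hB hd Q L ((n : ℝ) ^ 3) A (A / 2) (2 * (n : ℝ) ^ 3)
    (rad n s1) (rad n (s1 + 1))
    ((2 * (n : ℝ) ^ 3 * M0) * c * n * Real.exp (σ * (s1 + 1) / 2))
    (M0 * c * Real.exp (σ * θ * (s1 + 1) / 2))
    (4 * (n + 1) * ((n : ℝ) ^ 3 * M0 * c) ^ 2 * KK n (A / 2) ^ (-(1 - σ * θ)))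
    (fun r => (n : ℝ) ^ 3 * (M0 * c * KK n r ^ (σ * θ / 2))) hL hρpos (by positivity) (by linarith)
    (by linarith) (by linarith) (rad_lt hn (by linarith) (by linarith))
    (by positivity) (by positivity) (by positivity)
    (by
      have h1 : Continuous (fun r : ℝ => KK n r ^ (σ * θ / 2)) := by
        apply Continuous.rpow_const
        · unfold KK; fun_prop
        · intro r; left; exact (KK_pos n r).ne'
      exact continuous_const.mul (continuous_const.mul h1))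
    (by
      intro r
      have h1 : 1 ≤ KK n r ^ (σ * θ / 2) := Real.one_le_rpow (one_le_KK n r) (by positivity)
      have h2 : 1 ≤ M0 * c := one_le_mul_of_one_le_of_one_le hM0 hc
      have h3 : 1 ≤ M0 * c * KK n r ^ (σ * θ / 2) := one_le_mul_of_one_le_of_one_le h2 h1
      exact one_le_mul_of_one_le_of_one_le hn3 h3)
    (fun x hx w hw => (mbound hE hQ (by linarith) (by linarith) hS h hL (by positivity)
      (by linarith) x hx w hw).trans (by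
        have : L + (n : ℝ) ^ 3 * M0 ≤ 2 * (n : ℝ) ^ 3 * M0 := by linarith
        gcongr))
    (fun w hw => qbound' hQ (by linarith) (by linarith) hS h (by linarith) w hw)
    (by
      intro z v hz hv1 hv2
      obtain ⟨l, hl2, hln, hK⟩ := choose_two hn2 hI (a := A / 2) (r := ‖v‖) (by positivity) hv1 hbig
      refine ⟨l, hl2, hln, ?_⟩
      have h10 : 10 * ‖z‖ ≤ ‖v‖ := by linarith
      have htri := hTRI l z v hl2 h10
      set W := ‖v ^ l - z ^ l - l * z ^ (l - 1) * (v - z)‖ with hW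
      have hK' := KK_pos n ‖v‖
      have hvpos : 0 < ‖v‖ := by linarith
      have e1 : KK n ‖v‖ ≤ 4 * (n + 1) * (bw n l * W) ^ 2 := by
        calc KK n ‖v‖ ≤ (n + 1) * ((n.choose l : ℝ) * ‖v‖ ^ (2 * l)) := hK
          _ = (n + 1) * (bw n l ^ 2 * (‖v‖ ^ l) ^ 2) := by rw [bw_sq, ← pow_mul, mul_comm l 2]
          _ ≤ (n + 1) * (bw n l ^ 2 * (2 * W) ^ 2) := by gcongr
          _ = _ := by ring
      have hmono : KK n (A / 2) ≤ KK n ‖v‖ := KK_mono (by positivity) hv1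
      have e2 : 1 ≤ KK n ‖v‖ ^ (1 - σ * θ) * KK n (A / 2) ^ (-(1 - σ * θ)) := by
        rw [Real.rpow_neg hKA.le, ← div_eq_mul_inv, one_le_div (by positivity)]
        exact Real.rpow_le_rpow hKA.le hmono (by linarith)
      have e3 : KK n ‖v‖ ^ (σ * θ) * KK n ‖v‖ ^ (1 - σ * θ) = KK n ‖v‖ := by
        rw [← Real.rpow_add hK']
        simp
      have e4 : (KK n ‖v‖ ^ (σ * θ / 2)) ^ 2 = KK n ‖v‖ ^ (σ * θ) := by
        rw [← Real.rpow_natCast, ← Real.rpow_mul hK'.le]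
        congr 1
        push_cast
        ring
      calc ((n : ℝ) ^ 3 * (M0 * c * KK n ‖v‖ ^ (σ * θ / 2))) ^ 2
          = ((n : ℝ) ^ 3 * M0 * c) ^ 2 * (KK n ‖v‖ ^ (σ * θ / 2)) ^ 2 := by ring
        _ = ((n : ℝ) ^ 3 * M0 * c) ^ 2 * (KK n ‖v‖ ^ (σ * θ) * 1) := by rw [e4, mul_one]
        _ ≤ ((n : ℝ) ^ 3 * M0 * c) ^ 2 * (KK n ‖v‖ ^ (σ * θ) *
              (KK n ‖v‖ ^ (1 - σ * θ) * KK n (A / 2) ^ (-(1 - σ * θ)))) := by gcongr
        _ = ((n : ℝ) ^ 3 * M0 * c) ^ 2 * KK n (A / 2) ^ (-(1 - σ * θ)) *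
              (KK n ‖v‖ ^ (σ * θ) * KK n ‖v‖ ^ (1 - σ * θ)) := by ring
        _ = ((n : ℝ) ^ 3 * M0 * c) ^ 2 * KK n (A / 2) ^ (-(1 - σ * θ)) * KK n ‖v‖ := by rw [e3]
        _ ≤ ((n : ℝ) ^ 3 * M0 * c) ^ 2 * KK n (A / 2) ^ (-(1 - σ * θ)) *
              (4 * (n + 1) * (bw n l * W) ^ 2) := by gcongr
        _ = _ := by ring)
  refine key.trans (ENNReal.ofReal_le_ofReal ?_)
  have hn1' : ((n : ℝ) + 1) ≤ 2 * n := by linarith
  have eE : Real.exp (σ * θ * (s1 + 1) / 2) ^ 2 * Real.exp (σ * (s1 + 1) / 2) ^ 2 ≤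
      Real.exp (2 * (s1 + 1)) := by
    rw [← Real.exp_nat_mul, ← Real.exp_nat_mul, ← Real.exp_add]
    apply Real.exp_le_exp.2
    push_cast
    nlinarith
  calc 10000000 * B ^ 3 * rad n s1 ^ 2 * ((n : ℝ) ^ 3) ^ 2 *
        (M0 * c * Real.exp (σ * θ * (s1 + 1) / 2)) ^ 2 *
        ((2 * (n : ℝ) ^ 3 * M0) * c * n * Real.exp (σ * (s1 + 1) / 2)) ^ 2 *
        (4 * (n + 1) * ((n : ℝ) ^ 3 * M0 * c) ^ 2 * KK n (A / 2) ^ (-(1 - σ * θ)))
      ≤ 10000000 * B ^ 3 * 1 * ((n : ℝ) ^ 3) ^ 2 *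
        (M0 * c * Real.exp (σ * θ * (s1 + 1) / 2)) ^ 2 *
        ((2 * (n : ℝ) ^ 3 * M0) * c * n * Real.exp (σ * (s1 + 1) / 2)) ^ 2 *
        (4 * (2 * n) * ((n : ℝ) ^ 3 * M0 * c) ^ 2 * KK n (A / 2) ^ (-(1 - σ * θ))) := by
        gcongr
    _ = C3 * B ^ 3 * (M0 ^ 2 * c ^ 2) ^ 3 * (n : ℝ) ^ 21 *
        (Real.exp (σ * θ * (s1 + 1) / 2) ^ 2 * Real.exp (σ * (s1 + 1) / 2) ^ 2) *
        KK n (A / 2) ^ (-(1 - σ * θ)) := by
        unfold C3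
        ring
    _ ≤ _ := by
        have := C3_pos
        gcongr

end Pool.Agent.TH642.RC.M
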