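import Pool.Agent.TH642.RC.Blk2

set_option autoImplicit false

open MeasureTheory Polynomial Filter Topology

namespace Pool.Agent.TH642.RC.M

theorem find_block {n : ℕ} {r : ℝ} (s0 : ℕ) : ∀ s1 : ℕ, s0 < s1 → rad n s0 ≤ r → r ≤ rad n s1 →
    ∃ s : ℕ, s0 ≤ s ∧ s < s1 ∧ rad n s ≤ r ∧ r ≤ rad n (s + 1) := by
  intro s1
  induction s1 with
  | zero => intro h; omega
  | succ k ih =>
    intro h h1 h2
    rcases le_total r (rad n k) with hle | hge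
    · rcases Nat.lt_or_ge s0 k with hlt | hk
      · obtain ⟨s, a, b, c, d⟩ := ih hlt h1 hle
        exact ⟨s, a, by omega, c, d⟩
      · have : s0 = k := by omega
        subst this
        refine ⟨s0, le_rfl, by omega, h1, ?_⟩
        push_cast at h2
        exact h2
    · refine ⟨k, by omega, by omega, hge, ?_⟩
      push_cast at h2
      exact h2

theorem DR_sub {n : ℕ} {Q : ℂ[X]} {L V ρ : ℝ} {s0 s1 : ℕ} (h : s0 < s1) (hρ : ρ ≤ rad n s1) :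
    DR n Q L (rad n s0) ρ V ⊆
      ⋃ s ∈ Finset.Ico s0 s1, DR n Q L (rad n s) (rad n (s + 1)) V := by
  rintro x ⟨hx, z, v, h1, h2, h3, h4, h5⟩
  obtain ⟨s, a, b, c, d⟩ := find_block s0 s1 h h1 (h2.trans hρ)
  simp only [Set.mem_iUnion, Finset.mem_Ico]
  exact ⟨s, ⟨a, b⟩, hx, z, v, c, d, h3, h4, h5⟩

noncomputable def lam (σ θ : ℝ) : ℝ := 2 - σ * (1 + θ)

noncomputable def Lam (l : ℝ) : ℝ := ∑' s : ℕ, ((s : ℝ) + 1) ^ 4 * Real.exp (-l * s)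

theorem Lam_summable {l : ℝ} (hl : 0 < l) :
    Summable (fun s : ℕ => ((s : ℝ) + 1) ^ 4 * Real.exp (-l * s)) := by
  have hr : ‖Real.exp (-l)‖ < 1 := by
    rw [Real.norm_eq_abs, abs_of_pos (Real.exp_pos _), Real.exp_lt_one_iff]
    linarith
  have h1 := summable_pow_mul_geometric_of_norm_lt_one 4 hr
  have h2 := (summable_nat_add_iff 1).2 h1
  have h3 := h2.mul_left (Real.exp l)
  refine h3.congr fun s => ?_
  have e : Real.exp (-l) ^ (s + 1) = Real.exp (-l) * Real.exp (-l * s) := by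
    rw [pow_succ, ← Real.exp_nat_mul, mul_comm]
    congr 2
    ring
  rw [e]
  push_cast
  have e2 : Real.exp l * Real.exp (-l) = 1 := by rw [← Real.exp_add]; simp
  linear_combination ((s : ℝ) + 1) ^ 4 * Real.exp (-l * s) * e2

theorem sum_le_Lam {l : ℝ} (hl : 0 < l) (S : Finset ℕ) :
    ∑ s ∈ S, ((s : ℝ) + 1) ^ 4 * Real.exp (-l * s) ≤ Lam l :=
  (Lam_summable hl).sum_le_tsum S (fun s _ => by positivity)

theorem Lam_pos {l : ℝ} (hl : 0 < l) : 0 < Lam l := by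
  have := sum_le_Lam hl {0}
  simp at this
  linarith

/-- the small region -/
theorem small_union (hD : S_DRB) (hI : S_IND) (hE : S_EVAL) (hQ : S_QB) {σ c θ : ℝ} (hσ : 1 < σ)
    (hσθ : 0 < lam σ θ) (hc : 1 ≤ c) (hS : Sums σ c) {n m : ℕ} {Q : ℂ[X]} {M0 : ℝ}
    (h : Ctx n m Q M0 θ) (μ : Fin (n + 1) → Measure ℂ) [∀ i, IsProbabilityMeasure (μ i)] {B : ℝ}
    (hB : 0 ≤ B) (hd : ∀ i, Dens B (μ i)) {L V : ℝ} (hL : 0 ≤ L) (hV : 0 < V) (s1 : ℕ)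
    (hs0 : 1 ≤ s1) (hs : 8 * (s1 + 1) ≤ n) :
    Measure.pi μ (DR n Q L 0 (rad n s1) V) ≤
      ENNReal.ofReal (C1 * (B ^ 2 * V ^ 2 * (L + V * M0) ^ 2 * (M0 ^ 2 * c ^ 4)) *
        Lam (lam σ θ)) := by
  have h0 : DR n Q L 0 (rad n s1) V = DR n Q L (rad n (0 : ℕ)) (rad n s1) V := by
    rw [Nat.cast_zero, rad_zero]
  rw [h0]
  have hM0 := h.hM0
  refine (measure_mono (DR_sub (by omega) le_rfl)).trans ?_
  refine (measure_biUnion_finset_le _ _).trans ?_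
  have h1 : ∀ s ∈ Finset.Ico 0 s1, Measure.pi μ (DR n Q L (rad n s) (rad n (s + 1)) V) ≤
      ENNReal.ofReal (C1 * (B ^ 2 * V ^ 2 * (L + V * M0) ^ 2 * (M0 ^ 2 * c ^ 4)) *
        ((s + 1 : ℝ) ^ 4 * Real.exp (-(2 - σ * (1 + θ)) * s))) := by
    intro s hs'
    rw [Finset.mem_Ico] at hs'
    unfold lam at hσθ
    exact blk1 hD hI hE hQ hσ (by linarith) hc hS h μ hB hd hL hV s (by omega)
  refine (Finset.sum_le_sum h1).trans ?_
  rw [← ENNReal.ofReal_sum_of_nonneg]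
  · apply ENNReal.ofReal_le_ofReal
    rw [← Finset.mul_sum]
    have := C1_pos
    gcongr
    exact sum_le_Lam hσθ _
  · intro s _
    have := C1_pos
    positivity

theorem rad_big {n : ℕ} (hn : 1 ≤ n) {s : ℝ} (hs : n * Real.log (1 + (n : ℝ) ^ 6) ≤ s) :
    (n : ℝ) ^ 3 ≤ rad n s := by
  have hn0 : (0 : ℝ) < n := by exact_mod_cast hn
  unfold rad
  apply Real.le_sqrt_of_sq_le
  have h1 : Real.log (1 + (n : ℝ) ^ 6) ≤ s / n := by
    rw [le_div_iff₀ hn0]; linarith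
  have h2 := Real.exp_le_exp.2 h1
  rw [Real.exp_log (by positivity)] at h2
  calc ((n : ℝ) ^ 3) ^ 2 = (n : ℝ) ^ 6 := by ring
    _ ≤ _ := by linarith

theorem rad_not_big {n : ℕ} (hn : 1 ≤ n) {s : ℝ} (hs : s ≤ n * Real.log (1 + (n : ℝ) ^ 6) + 2) :
    rad n s ≤ 4 * (n : ℝ) ^ 3 := by
  have hn1 : (1 : ℝ) ≤ n := by exact_mod_cast hn
  have hn0 : (0 : ℝ) < n := by linarith
  unfold rad
  apply Real.sqrt_le_iff.2
  refine ⟨by positivity, ?_⟩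
  have h1 : s / n ≤ Real.log (1 + (n : ℝ) ^ 6) + 2 := by
    rw [div_le_iff₀ hn0]
    nlinarith
  have h2 := Real.exp_le_exp.2 h1
  rw [Real.exp_add, Real.exp_log (by positivity)] at h2
  have h3 : Real.exp 2 ≤ 8 := by
    have : Real.exp 2 = Real.exp 1 ^ 2 := by rw [← Real.exp_nat_mul]; norm_num
    rw [this]
    have := Real.exp_one_lt_d9
    have h4 := Real.exp_pos 1
    nlinarith
  have h6 : (1 : ℝ) ≤ (n : ℝ) ^ 6 := one_le_pow₀ hn1
  calc Real.exp (s / n) - 1 ≤ (1 + (n : ℝ) ^ 6) * 8 := by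
        nlinarith
    _ ≤ (4 * (n : ℝ) ^ 3) ^ 2 := by nlinarith

/-- the large region -/
theorem large_union (hD : S_DRB) (hI : S_IND) (hE : S_EVAL) (hQ : S_QB) {σ c θ : ℝ} (hσ : 1 < σ)
    (hσθ : 0 < lam σ θ) (hc : 1 ≤ c) (hS : Sums σ c) {n m : ℕ} {Q : ℂ[X]} {M0 : ℝ}
    (h : Ctx n m Q M0 θ) (μ : Fin (n + 1) → Measure ℂ) [∀ i, IsProbabilityMeasure (μ i)] {B : ℝ}
    (hB : 0 ≤ B) (hd : ∀ i, Dens B (μ i)) {L : ℝ} (hL : 0 ≤ L) (hLn : L ≤ (n : ℝ) ^ 3 * M0)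
    (s1 : ℕ) (hs : 2 ≤ s1) (h12 : (s1 : ℝ) + 1 ≤ n * Real.log (1 + (n : ℝ) ^ 6)) :
    Measure.pi μ (DR n Q L (rad n s1) ((n : ℝ) ^ 3) ((n : ℝ) ^ 3)) ≤
      ENNReal.ofReal (C2 * (B ^ 2 * (M0 ^ 4 * c ^ 4)) * (n : ℝ) ^ 33 *
        (Real.exp (-lam σ θ * s1) / (1 - Real.exp (-lam σ θ)))) := by
  have hn := h.hn
  have hM0 := h.hM0
  have hq1 : Real.exp (-lam σ θ) < 1 := by rw [Real.exp_lt_one_iff]; linarith
  have hq0 := Real.exp_pos (-lam σ θ)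
  obtain ⟨s2, hs2⟩ : ∃ s2 : ℕ, s2 = ⌈(n : ℝ) * Real.log (1 + (n : ℝ) ^ 6)⌉₊ := ⟨_, rfl⟩
  have h2a : n * Real.log (1 + (n : ℝ) ^ 6) ≤ s2 := by rw [hs2]; exact Nat.le_ceil _
  have h2b : (s2 : ℝ) ≤ n * Real.log (1 + (n : ℝ) ^ 6) + 1 := by
    rw [hs2]
    refine (Nat.ceil_lt_add_one ?_).le
    have : 0 ≤ Real.log (1 + (n : ℝ) ^ 6) := Real.log_nonneg (by
      have : (0:ℝ) ≤ (n : ℝ) ^ 6 := by positivity
      linarith)
    positivity
  have hq : ∀ s : ℕ, Real.exp (-(2 - σ * (1 + θ)) * s) = Real.exp (-lam σ θ) ^ s := by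
    intro s
    rw [← Real.exp_nat_mul]
    congr 1
    unfold lam
    ring
  have hlt : s1 < s2 := by
    have : (s1 : ℝ) < s2 := by linarith
    exact_mod_cast this
  refine (measure_mono (DR_sub hlt (rad_big hn h2a))).trans ?_
  refine (measure_biUnion_finset_le _ _).trans ?_
  have h1 : ∀ s ∈ Finset.Ico s1 s2,
      Measure.pi μ (DR n Q L (rad n s) (rad n (s + 1)) ((n : ℝ) ^ 3)) ≤
      ENNReal.ofReal (C2 * (B ^ 2 * (M0 ^ 4 * c ^ 4)) * (n : ℝ) ^ 33 *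
        Real.exp (-lam σ θ) ^ s) := by
    intro s hs'
    rw [Finset.mem_Ico] at hs'
    rw [← hq]
    unfold lam at hσθ
    refine blk2 hD hI hE hQ hσ (by linarith) hc hS h μ hB hd hL hLn s (by omega) ?_
    apply rad_not_big hn
    have : ((s + 1 : ℕ) : ℝ) ≤ s2 := by exact_mod_cast hs'.2
    push_cast at this
    linarith
  refine (Finset.sum_le_sum h1).trans ?_
  rw [← ENNReal.ofReal_sum_of_nonneg]
  · apply ENNReal.ofReal_le_ofReal
    rw [← Finset.mul_sum]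
    have := C2_pos
    have e1 : Real.exp (-lam σ θ * s1) = Real.exp (-lam σ θ) ^ s1 := by
      rw [← Real.exp_nat_mul]
      congr 1
      ring
    rw [e1]
    gcongr
    exact geom_sum_Ico_le_of_lt_one hq0.le hq1
  · intro s _
    have := C2_pos
    positivity

end Pool.Agent.TH642.RC.M
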